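import Pool.Agent.MCE.Defs
import Pool.Agent.LKA.EdgeSets

/-!
# MCE-Avoid: graphs without edges in a given set of pairs
-/

open scoped Classical
open Finset

namespace MCE

theorem card_Gs (n M : ℕ) : (Gs n M).card = (n.choose 2).choose M := by
  rw [← LKA.cnt_true n M]
  unfold Gs LKA.cnt
  congr 1
  ext G
  simp only [Finset.mem_filter, and_true]

private theorem choose_aux (P N : ℕ) (h : P ≤ N) (M : ℕ) :
    P.choose M * N ^ M ≤ P ^ M * N.choose M := by
  induction M with
  | zero => simp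
  | succ M ih =>
    have h1 := Nat.choose_succ_right_eq P M
    have h2 := Nat.choose_succ_right_eq N M
    have h3 : N * (P - M) ≤ P * (N - M) := by
      rcases le_total M P with hM | hM
      · rw [Nat.mul_sub, Nat.mul_sub, mul_comm N P]
        exact Nat.sub_le_sub_left (Nat.mul_le_mul_right M h) _
      · rw [Nat.sub_eq_zero_of_le hM, mul_zero]
        exact Nat.zero_le _
    have h4 : P.choose (M + 1) * N ^ (M + 1) * (M + 1) ≤ P ^ (M + 1) * N.choose (M + 1) * (M + 1) := by
      calc P.choose (M + 1) * N ^ (M + 1) * (M + 1)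
          = (P.choose (M + 1) * (M + 1)) * (N ^ M * N) := by ring
        _ = (P.choose M * N ^ M) * (N * (P - M)) := by rw [h1]; ring
        _ ≤ (P ^ M * N.choose M) * (P * (N - M)) := Nat.mul_le_mul ih h3
        _ = P ^ (M + 1) * (N.choose M * (N - M)) := by ring
        _ = P ^ (M + 1) * N.choose (M + 1) * (M + 1) := by rw [← h2]; ring
    exact Nat.le_of_mul_le_mul_right h4 (Nat.succ_pos M)

private def Bp {n : ℕ} (Q s : Finset (Sym2 (Fin n))) : Prop := ∀ e ∈ Q, e ∉ s

theorem avoid (n M : ℕ) (Q : Finset (Sym2 (Fin n))) (hQ : ∀ e ∈ Q, ¬ e.IsDiag) :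
    (((Gs n M).filter (Av Q)).card : ℝ) ≤ Real.exp (-(dn n M * Q.card)) * (Gs n M).card := by
  have hE : Q ⊆ (⊤ : SimpleGraph (Fin n)).edgeFinset := by
    intro e he
    rw [SimpleGraph.mem_edgeFinset, SimpleGraph.edgeSet_top]
    exact hQ e he
  have hEc : ((⊤ : SimpleGraph (Fin n)).edgeFinset).card = n.choose 2 := by
    rw [SimpleGraph.card_edgeFinset_top_eq_card_choose_two, Fintype.card_fin]
  have hq : Q.card ≤ n.choose 2 := by
    rw [← hEc]
    exact Finset.card_le_card hE
  have h1 : ((Gs n M).filter (Av Q)).card = LKA.cnt n M (fun G => Bp Q G.edgeFinset) := by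
    unfold Gs LKA.cnt
    rw [Finset.filter_filter]
    congr 1
    refine Finset.filter_congr fun G _ => ?_
    have h : Av Q G ↔ Bp Q G.edgeFinset := by
      unfold Av Bp
      simp only [SimpleGraph.mem_edgeFinset]
    rw [h]
  have h2 : ((Gs n M).filter (Av Q)).card ≤ (n.choose 2 - Q.card).choose M := by
    rw [h1]
    have h3 := LKA.cnt_edge n M (Bp Q)
    rw [h3]
    have h4 : (n.choose 2 - Q.card).choose M =
        (((⊤ : SimpleGraph (Fin n)).edgeFinset \ Q).powersetCard M).card := by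
      rw [Finset.card_powersetCard, Finset.card_sdiff_of_subset hE, hEc]
    rw [h4]
    refine Finset.card_le_card ?_
    intro s hs
    obtain ⟨hs1, hs2⟩ := Finset.mem_filter.1 hs
    obtain ⟨hs3, hs4⟩ := Finset.mem_powersetCard.1 hs1
    refine Finset.mem_powersetCard.2 ⟨?_, hs4⟩
    intro e he
    exact Finset.mem_sdiff.2 ⟨hs3 he, fun heQ => hs2 e heQ he⟩
  have h5 : (((Gs n M).filter (Av Q)).card : ℝ) ≤ ((n.choose 2 - Q.card).choose M : ℕ) := by
    exact_mod_cast h2
  refine h5.trans ?_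
  rw [card_Gs]
  obtain ⟨N, hN⟩ : ∃ N, N = n.choose 2 := ⟨_, rfl⟩
  unfold dn
  rw [← hN] at hq ⊢
  rcases Nat.eq_zero_or_pos N with h0 | hpos
  · have h6 : (N - Q.card).choose M ≤ N.choose M := Nat.choose_le_choose M (Nat.sub_le _ _)
    have h7 : ((M : ℝ) / (N : ℕ)) = 0 := by
      rw [h0]
      simp
    rw [h7, zero_mul, neg_zero, Real.exp_zero, one_mul]
    exact_mod_cast h6
  · have h6 := choose_aux (N - Q.card) N (Nat.sub_le _ _) M
    have h7 : (((N - Q.card).choose M : ℕ) : ℝ) * (N : ℝ) ^ M ≤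
        ((N - Q.card : ℕ) : ℝ) ^ M * (N.choose M : ℕ) := by
      exact_mod_cast h6
    have hNp : (0 : ℝ) < N := by exact_mod_cast hpos
    have h8 : ((N - Q.card : ℕ) : ℝ) ≤ N * Real.exp (-((Q.card : ℝ) / N)) := by
      rw [Nat.cast_sub hq]
      have h9 := Real.add_one_le_exp (-((Q.card : ℝ) / N))
      have h10 : (N : ℝ) * (-((Q.card : ℝ) / N) + 1) = N - Q.card := by
        field_simp
        ring
      rw [← h10]
      exact mul_le_mul_of_nonneg_left h9 hNp.le
    have h9 : ((N - Q.card : ℕ) : ℝ) ^ M ≤ (N : ℝ) ^ M * Real.exp (-((M : ℝ) / N * Q.card)) := by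
      refine (pow_le_pow_left₀ (Nat.cast_nonneg _) h8 M).trans (le_of_eq ?_)
      rw [mul_pow, ← Real.exp_nat_mul]
      congr 2
      ring
    have h10 : (((N - Q.card).choose M : ℕ) : ℝ) * (N : ℝ) ^ M ≤
        (Real.exp (-((M : ℝ) / N * Q.card)) * (N.choose M : ℕ)) * (N : ℝ) ^ M := by
      refine h7.trans ?_
      refine (mul_le_mul_of_nonneg_right h9 (Nat.cast_nonneg _)).trans (le_of_eq ?_)
      ring
    exact le_of_mul_le_mul_right h10 (pow_pos hNp M)

end MCE
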