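import Pool.Agent.MCE.Defs
import Pool.Agent.MCE.Avoid

/-!
# MCE-Base: the first moment of the last step

The sums over the graphs without edges in `Q` of `1` and of the number of the sets found by the last step.
-/

open scoped Classical
open Finset

namespace MCE

private theorem mb_new {n : ℕ} (U Y : Finset (Fin n)) :
    (((Y \ U) ×ˢ (Y ∩ U)).image fun p : Fin n × Fin n => s(p.1, p.2)).card =
      (Y \ U).card * (Y ∩ U).card := by
  rw [card_image_of_injOn, card_product]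
  rintro ⟨a, b⟩ h ⟨a', b'⟩ h' he
  rw [mem_coe, mem_product, mem_sdiff, mem_inter] at h h'
  rcases Sym2.eq_iff.1 he with ⟨h1, h2⟩ | ⟨h1, h2⟩
  · exact Prod.ext h1 h2
  · exfalso
    apply h.1.2
    have h3 : a = b' := h1
    rw [h3]
    exact h'.2.2

theorem base_one {n : ℕ} (M ub : ℕ) (U : Finset (Fin n)) (Q : Finset (Sym2 (Fin n)))
    (hU : U.card ≤ ub) (hQ : Ins Q U) :
    ∑ _G ∈ (Gs n M).filter (Av Q), (1 : ℝ) ≤
      Real.exp (-(dn n M * Q.card)) * 1 * (Gs n M).card := by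
  rw [sum_const, nsmul_eq_mul, mul_one, mul_one]
  exact avoid n M Q fun e he => (hQ e he).1

private theorem mb_Y {n : ℕ} (M m2 b : ℕ) (U : Finset (Fin n)) (Q : Finset (Sym2 (Fin n)))
    (hQ : Ins Q U) (Y : Finset (Fin n)) (hY : Y.card = m2) (hb : (Y \ U).card = b) :
    ∑ G ∈ (Gs n M).filter (Av Q), (if Stb G Y then (1 : ℝ) else 0) ≤
      Real.exp (-(dn n M * Q.card)) * Real.exp (-(dn n M * (b * (m2 - b)))) * (Gs n M).card := by
  set N : Finset (Sym2 (Fin n)) :=
    ((Y \ U) ×ˢ (Y ∩ U)).image fun p : Fin n × Fin n => s(p.1, p.2) with hN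
  have hNm : ∀ e ∈ N, ∃ u v, u ∈ Y ∧ u ∉ U ∧ v ∈ Y ∧ v ∈ U ∧ e = s(u, v) := by
    intro e he
    obtain ⟨⟨u, v⟩, huv, rfl⟩ := mem_image.1 he
    rw [mem_product, mem_sdiff, mem_inter] at huv
    exact ⟨u, v, huv.1.1, huv.1.2, huv.2.1, huv.2.2, rfl⟩
  have hdis : Disjoint Q N := by
    rw [Finset.disjoint_left]
    intro e he he'
    obtain ⟨u, v, -, hu, -, -, rfl⟩ := hNm e he'
    exact hu ((hQ _ he).2 u (Sym2.mem_mk_left u v))
  have hcard : ((Q ∪ N).card : ℝ) = Q.card + b * (m2 - b) := by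
    have h1 := card_sdiff_add_card_inter Y U
    have h2 : ((Y ∩ U).card : ℝ) = m2 - b := by
      rw [hY, hb] at h1
      have : (b : ℝ) + (Y ∩ U).card = m2 := by exact_mod_cast h1
      linarith
    rw [card_union_of_disjoint hdis, hN, mb_new, hb, Nat.cast_add, Nat.cast_mul, h2]
  have h1 := avoid n M (Q ∪ N) (by
    intro e he
    rcases mem_union.1 he with he | he
    · exact (hQ e he).1
    · obtain ⟨u, v, -, hu, -, hv, rfl⟩ := hNm e he
      rw [Sym2.mk_isDiag_iff]
      rintro rfl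
      exact hu hv)
  rw [hcard, mul_add, neg_add, Real.exp_add] at h1
  refine le_trans ?_ h1
  rw [← sum_filter, sum_const, nsmul_eq_mul, mul_one, filter_filter]
  have h2 : ((Gs n M).filter fun G => Av Q G ∧ Stb G Y) ⊆ (Gs n M).filter (Av (Q ∪ N)) := by
    intro G hG
    rw [mem_filter] at hG ⊢
    refine ⟨hG.1, fun e he => ?_⟩
    rcases mem_union.1 he with he | he
    · exact hG.2.1 e he
    · obtain ⟨u, v, hu, -, hv, -, rfl⟩ := hNm e he
      rw [SimpleGraph.mem_edgeSet]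
      exact hG.2.2 u hu v hv
  exact_mod_cast card_le_card h2

private theorem mb_cnt {n : ℕ} (m2 q b ub : ℕ) (U : Finset (Fin n)) (hU : U.card ≤ ub) :
    ((((univ : Finset (Finset (Fin n))).filter fun Y => Y.card = m2 ∧ (Y \ U).card < q).filter
      fun Y => (Y \ U).card = b).card : ℝ) ≤ (n.choose b : ℝ) * 2 ^ ub := by
  have h1 : (((univ : Finset (Finset (Fin n))).filter fun Y => Y.card = m2 ∧ (Y \ U).card < q).filter
      fun Y => (Y \ U).card = b).card ≤ ((powersetCard b (univ : Finset (Fin n))) ×ˢ U.powerset).card := by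
    refine card_le_card_of_injOn (fun Y => (Y \ U, Y ∩ U)) ?_ ?_
    · intro Y hY
      rw [mem_coe, mem_filter] at hY
      rw [mem_coe, mem_product, mem_powersetCard, mem_powerset]
      exact ⟨⟨subset_univ _, hY.2⟩, inter_subset_right⟩
    · intro Y _ Y' _ he
      have e1 : Y \ U = Y' \ U := congrArg Prod.fst he
      have e2 : Y ∩ U = Y' ∩ U := congrArg Prod.snd he
      rw [← sdiff_union_inter Y U, e1, e2, sdiff_union_inter]
  rw [card_product, card_powersetCard, card_powerset, card_univ, Fintype.card_fin] at h1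
  have h2 : n.choose b * 2 ^ U.card ≤ n.choose b * 2 ^ ub :=
    Nat.mul_le_mul_left _ (Nat.pow_le_pow_right (by norm_num) hU)
  exact_mod_cast h1.trans h2

theorem base_last {n : ℕ} (M m2 q ub : ℕ) (hq : q ≤ m2) (U : Finset (Fin n))
    (Q : Finset (Sym2 (Fin n))) (hU : U.card ≤ ub) (hQ : Ins Q U) :
    ∑ G ∈ (Gs n M).filter (Av Q), lastY G m2 q U ≤
      Real.exp (-(dn n M * Q.card)) * gam n M m2 q ub * (Gs n M).card := by
  set 𝒴 : Finset (Finset (Fin n)) :=
    univ.filter fun Y : Finset (Fin n) => Y.card = m2 ∧ (Y \ U).card < q with h𝒴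
  have h1 : ∀ G : SimpleGraph (Fin n), lastY G m2 q U = ∑ Y ∈ 𝒴, (if Stb G Y then (1 : ℝ) else 0) := by
    intro G
    rw [← sum_filter, sum_const, nsmul_eq_mul, mul_one, h𝒴, filter_filter]
    unfold lastY
    congr 2
    ext Y
    rw [mem_filter, mem_filter]
    tauto
  rw [sum_congr rfl fun G _ => h1 G, sum_comm]
  have h2 : ∀ Y ∈ 𝒴, (Y \ U).card ∈ range q := by
    intro Y hY
    rw [mem_range]
    exact (mem_filter.1 hY).2.2
  rw [← sum_fiberwise_of_maps_to h2]
  unfold gam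
  rw [mul_sum, sum_mul]
  refine sum_le_sum fun b _ => ?_
  have h3 : ∀ Y ∈ 𝒴.filter fun Y => (Y \ U).card = b,
      ∑ G ∈ (Gs n M).filter (Av Q), (if Stb G Y then (1 : ℝ) else 0) ≤
      Real.exp (-(dn n M * Q.card)) * Real.exp (-(dn n M * (b * (m2 - b)))) * (Gs n M).card := by
    intro Y hY
    obtain ⟨hY1, hY2⟩ := mem_filter.1 hY
    exact mb_Y M m2 b U Q hQ Y (mem_filter.1 hY1).2.1 hY2
  refine (sum_le_sum h3).trans ?_
  rw [sum_const, nsmul_eq_mul]
  have h4 := mb_cnt m2 q b ub U hU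
  have h5 : 0 ≤ Real.exp (-(dn n M * Q.card)) * Real.exp (-(dn n M * (b * (m2 - b)))) *
      ((Gs n M).card : ℝ) := by positivity
  refine (mul_le_mul_of_nonneg_right h4 h5).trans (le_of_eq ?_)
  ring

end MCE
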