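import Pool.Agent.MCE.Defs

/-!
# MCE-Binom: binomial coefficients
-/

open scoped Classical
open Finset

namespace MCE

theorem choose_le_pow_exp (n b : ℕ) {τ : ℝ} (hτ : 0 < τ) :
    (n.choose b : ℝ) ≤ (n / τ) ^ b * Real.exp τ := by
  have h1 : (n.choose b : ℝ) ≤ (n : ℝ) ^ b / (b.factorial : ℝ) := Nat.choose_le_pow_div b n
  have h2 : τ ^ b / (b.factorial : ℝ) ≤ Real.exp τ := Real.pow_div_factorial_le_exp τ hτ.le b
  have h3 : (n : ℝ) ^ b / (b.factorial : ℝ) = (n / τ) ^ b * (τ ^ b / (b.factorial : ℝ)) := by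
    rw [div_pow]
    field_simp
  rw [h3] at h1
  exact h1.trans (mul_le_mul_of_nonneg_left h2 (by positivity))

/-- for all `b`: `C(n, b) ≤ exp (b (L + ln x) + s)` -/
theorem choose_le_ss {ε : ℝ} (hε : 0 < ε) {k n : ℕ} (hk : 0 < k) (hn : 0 < n) (b : ℕ) :
    (n.choose b : ℝ) ≤
      Real.exp (b * (Real.log k + Real.log (1 + 2 * ε)) + ss ε k n) := by
  have hk' : (0 : ℝ) < k := by exact_mod_cast hk
  have hn' : (0 : ℝ) < n := by exact_mod_cast hn
  have hx : (0 : ℝ) < 1 + 2 * ε := by linarith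
  have hτ : 0 < ss ε k n := by
    unfold ss
    positivity
  refine (choose_le_pow_exp n b hτ).trans (le_of_eq ?_)
  have h1 : (n : ℝ) / ss ε k n = k * (1 + 2 * ε) := by
    unfold ss
    field_simp
  rw [h1, Real.exp_add, ← Real.log_mul hk'.ne' hx.ne', mul_comm (b : ℝ), Real.exp_mul,
    Real.exp_log (by positivity), Real.rpow_natCast]

end MCE
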