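import Pool.Agent.MCE.Defs

/-!
# MCE-Path: gates and fresh steps

Every set on a path from `Z` is found after some number of fresh steps from `Z`.
-/

open scoped Classical
open Finset

namespace MCE

variable {n : ℕ}

private theorem mp_step (G : SimpleGraph (Fin n)) {m2 q : ℕ} (hq : 0 < q) {A B : Finset (Fin n)}
    (h : Rel G m2 A B) : ∀ (i : ℕ) (U : Finset (Fin n)), W G m2 q i U A → ∃ i', W G m2 q i' U B := by
  intro i
  induction i with
  | zero =>
    intro U hA
    have hA' : (A \ U).card < q := hA
    obtain ⟨-, hB, -, hB2, hAB⟩ := h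
    have h1 : (B \ U).card ≤ (A \ U).card + 1 := by
      rcases hAB with ⟨v, -, rfl⟩ | ⟨v, -, rfl⟩
      · have h2 : insert v A \ U ⊆ insert v (A \ U) := by
          intro x hx
          rw [mem_sdiff, mem_insert] at hx
          rw [mem_insert, mem_sdiff]
          tauto
        exact (card_le_card h2).trans (card_insert_le _ _)
      · exact (card_le_card (sdiff_subset_sdiff (erase_subset _ _) (subset_refl _))).trans (Nat.le_succ _)
    by_cases h2 : (B \ U).card < q
    · exact ⟨0, h2⟩
    · refine ⟨1, B, hB, hB2, by omega, ?_⟩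
      show (B \ (U ∪ B)).card < q
      rw [sdiff_eq_empty_iff_subset.2 subset_union_right, card_empty]
      exact hq
  | succ i ih =>
    rintro U ⟨T, h1, h2, h3, h4⟩
    obtain ⟨i', hi'⟩ := ih (U ∪ T) h4
    exact ⟨i' + 1, T, h1, h2, h3, hi'⟩

theorem path (G : SimpleGraph (Fin n)) {m2 q : ℕ} (hq : 0 < q) {Z S : Finset (Fin n)}
    (h : Relation.ReflTransGen (Rel G m2) Z S) : ∃ i, W G m2 q i Z S := by
  induction h with
  | refl =>
    refine ⟨0, ?_⟩
    show (Z \ Z).card < q
    rw [sdiff_self, bot_eq_empty, card_empty]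
    exact hq
  | tail _ h2 ih =>
    obtain ⟨i, hi⟩ := ih
    exact mp_step G hq h2 i Z hi

end MCE
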