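import Pool.Agent.MCE.Defs
import Pool.Agent.MCE.Path

/-!
# MCE-CntV: counting gates by fresh steps

Plan. `card_W_le`: induction on `i` for all `U`; `i = 0`: equality; `i + 1`: the set on the left is contained in the union over the `T` of the filter of the
sets `{Y | Stb, card = m2, W i (U ∪ T) Y}`: `Finset.card_biUnion_le`, cast.
`one_le_V`: induction on `i'` for all `i`, `U`: `i' = 0`: `V 0 = 1`; `i' + 1`: then `i = i'' + 1`, `W (i''+1) U Y` gives a `T` with `W i'' (U ∪ T) Y`, the sum of the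
non-negative terms `V i' (U ∪ T)` is at least the one of this `T`, which is `≥ 1` (`V ≥ 0` by induction).
`gates_le`: every gate `Y` is stable of size `m2` and there are a stable `Z` of size `mx` and `i` with `W i Z Y` (`path`).  If `i ≥ m0`, then `1 ≤ V (fun _ =>
1) m0 Z` by `one_le_V`, contradiction to `h` (non-negative terms).  So `i < m0`, and the gates are in the union over `i < m0` and `Z` of `{Y | ..., W i Z Y}`;
`card_W_le`.
-/

open scoped Classical
open Finset

namespace MCE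

variable {n : ℕ}

theorem card_W_le (G : SimpleGraph (Fin n)) (m2 q i : ℕ) (U : Finset (Fin n)) :
    ((univ.filter (fun Y : Finset (Fin n) => Stb G Y ∧ Y.card = m2 ∧ W G m2 q i U Y)).card : ℝ) ≤
      V G m2 q (lastY G m2 q) i U := by
  induction i generalizing U with
  | zero =>
    show _ ≤ lastY G m2 q U
    unfold lastY
    refine Nat.cast_le.2 (Finset.card_le_card fun Y hY => ?_)
    obtain ⟨_, h⟩ := Finset.mem_filter.1 hY
    exact Finset.mem_filter.2 ⟨Finset.mem_univ _, h⟩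
  | succ i ih =>
    have h1 : univ.filter (fun Y : Finset (Fin n) => Stb G Y ∧ Y.card = m2 ∧ W G m2 q (i + 1) U Y) ⊆
        (univ.filter (fun T : Finset (Fin n) => Stb G T ∧ m2 ≤ T.card ∧ (T \ U).card = q)).biUnion fun T =>
          univ.filter (fun Y : Finset (Fin n) => Stb G Y ∧ Y.card = m2 ∧ W G m2 q i (U ∪ T) Y) := by
      intro Y hY
      obtain ⟨h2, h3, T, h4, h5, h6, h7⟩ := (Finset.mem_filter.1 hY).2
      exact Finset.mem_biUnion.2 ⟨T, Finset.mem_filter.2 ⟨Finset.mem_univ _, h4, h5, h6⟩,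
        Finset.mem_filter.2 ⟨Finset.mem_univ _, h2, h3, h7⟩⟩
    have h2 := (Finset.card_le_card h1).trans Finset.card_biUnion_le
    have h3 : ((univ.filter (fun Y : Finset (Fin n) => Stb G Y ∧ Y.card = m2 ∧ W G m2 q (i + 1) U Y)).card : ℝ) ≤
        ∑ T ∈ univ.filter (fun T : Finset (Fin n) => Stb G T ∧ m2 ≤ T.card ∧ (T \ U).card = q),
          ((univ.filter (fun Y : Finset (Fin n) => Stb G Y ∧ Y.card = m2 ∧ W G m2 q i (U ∪ T) Y)).card : ℝ) := by
      exact_mod_cast h2
    refine h3.trans ?_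
    show _ ≤ ∑ T ∈ univ.filter (fun T => Stb G T ∧ m2 ≤ T.card ∧ (T \ U).card = q), V G m2 q (lastY G m2 q) i (U ∪ T)
    exact Finset.sum_le_sum fun T _ => ih (U ∪ T)

private theorem cv_nn (G : SimpleGraph (Fin n)) (m2 q i : ℕ) (U : Finset (Fin n)) :
    0 ≤ V G m2 q (fun _ => 1) i U := by
  induction i generalizing U with
  | zero => exact zero_le_one
  | succ i ih => exact Finset.sum_nonneg fun T _ => ih _

theorem one_le_V (G : SimpleGraph (Fin n)) (m2 q : ℕ) {i i' : ℕ} (hi : i' ≤ i)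
    {U Y : Finset (Fin n)} (h : W G m2 q i U Y) : 1 ≤ V G m2 q (fun _ => 1) i' U := by
  induction i' generalizing i U with
  | zero => exact le_rfl
  | succ i' ih =>
    obtain ⟨j, rfl⟩ : ∃ j, i = j + 1 := ⟨i - 1, by omega⟩
    obtain ⟨T, h4, h5, h6, h7⟩ := h
    show 1 ≤ ∑ T ∈ univ.filter (fun T => Stb G T ∧ m2 ≤ T.card ∧ (T \ U).card = q), V G m2 q (fun _ => 1) i' (U ∪ T)
    refine (ih (by omega) h7).trans ?_
    exact Finset.single_le_sum (f := fun T => V G m2 q (fun _ => 1) i' (U ∪ T)) (fun T _ => cv_nn G m2 q i' _)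
      (Finset.mem_filter.2 ⟨Finset.mem_univ _, h4, h5, h6⟩)

theorem gates_le (G : SimpleGraph (Fin n)) {m2 mx q : ℕ} (hq : 0 < q) (m0 : ℕ)
    (h : ∑ Z ∈ univ.filter (fun Z : Finset (Fin n) => Stb G Z ∧ Z.card = mx),
      V G m2 q (fun _ => 1) m0 Z < 1) :
    ((gates G m2 mx).card : ℝ) ≤ ∑ i ∈ range m0,
      ∑ Z ∈ univ.filter (fun Z : Finset (Fin n) => Stb G Z ∧ Z.card = mx),
        V G m2 q (lastY G m2 q) i Z := by
  have h1 : gates G m2 mx ⊆ (range m0).biUnion fun i =>
      (univ.filter (fun Z : Finset (Fin n) => Stb G Z ∧ Z.card = mx)).biUnion fun Z =>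
        univ.filter (fun Y : Finset (Fin n) => Stb G Y ∧ Y.card = m2 ∧ W G m2 q i Z Y) := by
    intro Y hY
    obtain ⟨h2, Z, h3, h4, h5⟩ := (Finset.mem_filter.1 hY).2
    have hZ : Z ∈ univ.filter (fun Z : Finset (Fin n) => Stb G Z ∧ Z.card = mx) :=
      Finset.mem_filter.2 ⟨Finset.mem_univ _, h3, h4⟩
    have hst : Stb G Y := by
      rcases Relation.ReflTransGen.cases_tail h5 with h6 | ⟨A, _, h6⟩
      · rw [h6]
        exact h3
      · exact h6.2.1
    obtain ⟨i, hi⟩ := path G hq h5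
    have him : i < m0 := by
      by_contra h6
      have h7 := one_le_V G m2 q (not_lt.1 h6) hi
      have h8 := Finset.single_le_sum (f := fun Z => V G m2 q (fun _ => 1) m0 Z) (fun T _ => cv_nn G m2 q m0 T) hZ
      linarith
    exact Finset.mem_biUnion.2 ⟨i, Finset.mem_range.2 him, Finset.mem_biUnion.2 ⟨Z, hZ,
      Finset.mem_filter.2 ⟨Finset.mem_univ _, hst, h2, hi⟩⟩⟩
  have h2 := ((Finset.card_le_card h1).trans Finset.card_biUnion_le).trans
    (Finset.sum_le_sum fun i _ => Finset.card_biUnion_le)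
  have h3 : ((gates G m2 mx).card : ℝ) ≤ ∑ i ∈ range m0,
      ∑ Z ∈ univ.filter (fun Z : Finset (Fin n) => Stb G Z ∧ Z.card = mx),
        ((univ.filter (fun Y : Finset (Fin n) => Stb G Y ∧ Y.card = m2 ∧ W G m2 q i Z Y)).card : ℝ) := by
    exact_mod_cast h2
  exact h3.trans (Finset.sum_le_sum fun i _ => Finset.sum_le_sum fun Z _ => card_W_le G m2 q i Z)

end MCE
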