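import Mathlib

/-!
# MCE (`MP_f583e4_lc`): Metropolis chains and simulated annealing from the empty set fail

Definitions of the project.  `G` is a graph on `Fin n`.
-/

open scoped Classical
open Finset

namespace MCE

variable {n : ℕ}

/-- the set `S` is stable -/
def Stb (G : SimpleGraph (Fin n)) (S : Finset (Fin n)) : Prop := ∀ u ∈ S, ∀ v ∈ S, ¬ G.Adj u v

/-- the mean value of `h` after one step of the chain from the state `S`: a uniformly random vertex
`v` is chosen; if `v ∈ S`, then `v` is deleted with probability `r |S|`; if `v ∉ S` and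
`S ∪ {v}` is stable, then `v` is inserted with probability `a |S|` -/
noncomputable def step (G : SimpleGraph (Fin n)) (a r : ℕ → ℝ) (h : Finset (Fin n) → ℝ)
    (S : Finset (Fin n)) : ℝ :=
  (∑ v : Fin n, if v ∈ S then r S.card * h (S.erase v) + (1 - r S.card) * h S
    else if Stb G (insert v S) then a S.card * h (insert v S) + (1 - a S.card) * h S
    else h S) / n

/-- the probability that the chain which is in the state `S` at the time `i` visits a set with at
least `mx` vertices within `t` steps -/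
noncomputable def hit (G : SimpleGraph (Fin n)) (a r : ℕ → ℕ → ℝ) (mx : ℕ) :
    ℕ → ℕ → Finset (Fin n) → ℝ
  | 0, _, S => if mx ≤ S.card then 1 else 0
  | t + 1, i, S => if mx ≤ S.card then 1 else step G (a i) (r i) (hit G a r mx t (i + 1)) S

/-- the expected number of visits to `P` at the times `i, ..., i + t` -/
noncomputable def vis (G : SimpleGraph (Fin n)) (a r : ℕ → ℕ → ℝ) (P : Finset (Fin n) → Prop) :
    ℕ → ℕ → Finset (Fin n) → ℝ
  | 0, _, S => if P S then 1 else 0
  | t + 1, i, S => (if P S then 1 else 0) + step G (a i) (r i) (vis G a r P t (i + 1)) S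

/-- one step of the chain, acting on densities -/
noncomputable def push (G : SimpleGraph (Fin n)) (a r : ℕ → ℝ) (μ : Finset (Fin n) → ℝ)
    (S : Finset (Fin n)) : ℝ :=
  if Stb G S then
    (∑ v : Fin n, if v ∈ S then a (S.card - 1) * μ (S.erase v) + (1 - r S.card) * μ S
      else if Stb G (insert v S) then r (S.card + 1) * μ (insert v S) + (1 - a S.card) * μ S
      else μ S) / n
  else 0

/-- the distribution of the chain at the time `t`, started at `S₀` at the time `0` -/
noncomputable def dens (G : SimpleGraph (Fin n)) (a r : ℕ → ℕ → ℝ) (S₀ : Finset (Fin n)) :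
    ℕ → Finset (Fin n) → ℝ
  | 0 => fun S => if S = S₀ then 1 else 0
  | t + 1 => push G (a t) (r t) (dens G a r S₀ t)

/-- the vertices outside `S` without a neighbour in `S` -/
noncomputable def free (G : SimpleGraph (Fin n)) (S : Finset (Fin n)) : Finset (Fin n) :=
  univ.filter (fun v => v ∉ S ∧ ∀ u ∈ S, ¬ G.Adj u v)

/-- all sets of size at most `m1` have many free vertices -/
def FreeOK (G : SimpleGraph (Fin n)) (m1 : ℕ) (fm : ℕ → ℝ) : Prop :=
  ∀ S : Finset (Fin n), S.card ≤ m1 → fm S.card ≤ (free G S).card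

/-- admissible rates: `a i j` insertion, `r i j` deletion at the time `i` in a set of size `j` -/
def Adm (Λ K : ℝ) (a r : ℕ → ℕ → ℝ) : Prop :=
  (∀ i j, 0 < a i j ∧ a i j ≤ 1 ∧ 0 < r i j ∧ r i j ≤ 1 ∧ a i j ≤ Λ * r i (j + 1)) ∧
  ((∀ i j, a i j = a 0 j ∧ r i j = r 0 j) ∨
   (∀ i j, r i (j + 1) ≤ a i j ∧ a i j ≤ K * a i (j + 1) ∧
      a i j * r (i + 1) (j + 1) ≤ a (i + 1) j * r i (j + 1)))

/-- stable sets with at least `m2` vertices which differ by one vertex -/
def Rel (G : SimpleGraph (Fin n)) (m2 : ℕ) (A B : Finset (Fin n)) : Prop :=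
  Stb G A ∧ Stb G B ∧ m2 ≤ A.card ∧ m2 ≤ B.card ∧
    ((∃ v, v ∉ A ∧ B = insert v A) ∨ ∃ v, v ∈ A ∧ B = A.erase v)

/-- `S` is joined to a stable set with `mx` vertices through stable sets of size at least `m2` -/
def CG (G : SimpleGraph (Fin n)) (m2 mx : ℕ) (S : Finset (Fin n)) : Prop :=
  ∃ Z, Stb G Z ∧ Z.card = mx ∧ Relation.ReflTransGen (Rel G m2) Z S

/-- the gates -/
noncomputable def gates (G : SimpleGraph (Fin n)) (m2 mx : ℕ) : Finset (Finset (Fin n)) :=
  univ.filter (fun S => S.card = m2 ∧ CG G m2 mx S)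

/-- `Y` is found after `i` fresh steps from the set `U` -/
def W (G : SimpleGraph (Fin n)) (m2 q : ℕ) : ℕ → Finset (Fin n) → Finset (Fin n) → Prop
  | 0, U, Y => (Y \ U).card < q
  | i + 1, U, Y => ∃ T, Stb G T ∧ m2 ≤ T.card ∧ (T \ U).card = q ∧ W G m2 q i (U ∪ T) Y

/-- weighted number of the sequences of `i` fresh steps from the set `U` -/
noncomputable def V (G : SimpleGraph (Fin n)) (m2 q : ℕ) (g : Finset (Fin n) → ℝ) :
    ℕ → Finset (Fin n) → ℝ
  | 0, U => g U
  | i + 1, U => ∑ T ∈ univ.filter (fun T => Stb G T ∧ m2 ≤ T.card ∧ (T \ U).card = q),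
      V G m2 q g i (U ∪ T)

/-- the number of the stable sets of size `m2` with less than `q` vertices outside `U` -/
noncomputable def lastY (G : SimpleGraph (Fin n)) (m2 q : ℕ) (U : Finset (Fin n)) : ℝ :=
  ((univ.filter (fun Y : Finset (Fin n) => Stb G Y ∧ Y.card = m2 ∧ (Y \ U).card < q)).card : ℝ)

/-- the graphs with `M` edges -/
noncomputable def Gs (n M : ℕ) : Finset (SimpleGraph (Fin n)) :=
  univ.filter (fun G => G.edgeSet.ncard = M)

/-- the graph `G` has no edge in `Q` -/
def Av (Q : Finset (Sym2 (Fin n))) (G : SimpleGraph (Fin n)) : Prop := ∀ e ∈ Q, e ∉ G.edgeSet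

/-- the elements of `Q` are pairs of different vertices of `U` -/
def Ins (Q : Finset (Sym2 (Fin n))) (U : Finset (Fin n)) : Prop :=
  ∀ e ∈ Q, ¬ e.IsDiag ∧ ∀ v ∈ e, v ∈ U

/-- the edge density -/
noncomputable def dn (n M : ℕ) : ℝ := (M : ℝ) / (n.choose 2 : ℕ)

/-- the factor of a fresh step -/
noncomputable def rho (n M m2 q ub : ℕ) : ℝ :=
  (n.choose q : ℝ) * 2 ^ ub * Real.exp (-(dn n M * (q * (m2 - q))))

/-- the factor of the last step -/
noncomputable def gam (n M m2 q ub : ℕ) : ℝ :=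
  ∑ b ∈ range q, (n.choose b : ℝ) * 2 ^ ub * Real.exp (-(dn n M * (b * (m2 - b))))

/-- the expected number of stable sets with `mx` vertices -/
noncomputable def zet (n M mx : ℕ) : ℝ :=
  (n.choose mx : ℝ) * Real.exp (-(dn n M * (mx.choose 2 : ℕ)))

/-! ### parameters -/

/-- the number of edges `M_k(n)` -/
noncomputable def Mk (ε : ℝ) (k n : ℕ) : ℕ := ⌊(1 / 2 + ε) * k * Real.log k * n⌋₊

/-- the size of the sets found by the greedy algorithm -/
noncomputable def ss (ε : ℝ) (k n : ℕ) : ℝ := n / ((1 + 2 * ε) * k)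

/-- the scale `s ln k` of the exponents -/
noncomputable def NN (ε : ℝ) (k n : ℕ) : ℝ := ss ε k n * Real.log k

/-- lower bound for the number of free vertices of the sets of size `j` -/
noncomputable def fm (ε : ℝ) (k n : ℕ) (j : ℕ) : ℝ :=
  n * Real.exp (-(j / ss ε k n * Real.log k)) / (30 * Real.log k)

noncomputable def pj0 (ε δ : ℝ) (k n : ℕ) : ℕ := ⌊(1 - 2 * δ) * ss ε k n⌋₊
noncomputable def pm1 (ε δ : ℝ) (k n : ℕ) : ℕ := ⌊(1 - δ) * ss ε k n⌋₊
noncomputable def pm2 (ε δ : ℝ) (k n : ℕ) : ℕ := ⌈(1 + δ) * ss ε k n⌉₊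
noncomputable def pq (ε δ : ℝ) (k n : ℕ) : ℕ := ⌊δ / 2 * ss ε k n⌋₊
noncomputable def pmx (k n : ℕ) : ℕ := ⌈(n : ℝ) / k⌉₊
noncomputable def pm0 (δ : ℝ) : ℕ := ⌈8 / δ ^ 2⌉₊
noncomputable def pub (ε δ : ℝ) (k n : ℕ) : ℕ := pmx k n + pm0 δ * pq ε δ k n

end MCE
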