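import Pool.Agent.MCE.Defs

/-!
# MCE-PushLe: one step of the density bound
-/

open scoped Classical
open Finset

namespace MCE

variable {n : ℕ}

private theorem pl_stb {G : SimpleGraph (Fin n)} {S : Finset (Fin n)} (hS : Stb G S) {v : Fin n}
    (hv : v ∉ S) : Stb G (insert v S) ↔ v ∈ free G S := by
  unfold free
  rw [mem_filter]
  constructor
  · intro h
    exact ⟨mem_univ _, hv, fun u hu => h u (mem_insert_of_mem hu) v (mem_insert_self v S)⟩
  · rintro ⟨-, -, h⟩ u hu w hw
    rw [mem_insert] at hu hw
    rcases hu with rfl | hu <;> rcases hw with rfl | hw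
    · exact G.irrefl
    · exact fun h1 => h w hw h1.symm
    · exact h u hu
    · exact hS u hu w hw

private theorem pl_sum (S : Finset (Fin n)) (c : ℝ) :
    ∑ v : Fin n, (if v ∈ S then c else 0) = S.card * c := by
  rw [Finset.sum_ite_mem, Finset.univ_inter, Finset.sum_const, nsmul_eq_mul]

theorem push_le (G : SimpleGraph (Fin n)) (hn : 0 < n) (a r : ℕ → ℝ)
    (ha : ∀ j, 0 ≤ a j ∧ a j ≤ 1) (hr : ∀ j, 0 ≤ r j ∧ r j ≤ 1) (fm : ℕ → ℝ) (m1 : ℕ)
    (hf : FreeOK G m1 fm) (B B' : ℕ → ℝ)
    (h : ∀ j f : ℕ, j + f ≤ n → (j ≤ m1 → fm j ≤ f) →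
      j * (a (j - 1) * B (j - 1)) + f * (r (j + 1) * B (j + 1)) + (n - j * r j - f * a j) * B j ≤
        n * B' j)
    (μ : Finset (Fin n) → ℝ) (hμ : ∀ S, Stb G S → μ S ≤ B S.card) (S : Finset (Fin n))
    (hS : Stb G S) : push G a r μ S ≤ B' S.card := by
  have hdis : Disjoint S (free G S) := by
    rw [Finset.disjoint_left]
    intro v hv hv2
    exact (mem_filter.1 hv2).2.1 hv
  have hcard : S.card + (free G S).card ≤ n := by
    rw [← card_union_of_disjoint hdis]
    exact (card_le_univ _).trans (le_of_eq (Fintype.card_fin n))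
  have hmain := h S.card (free G S).card hcard (fun hj => hf S hj)
  have hn' : (0 : ℝ) < n := by exact_mod_cast hn
  unfold push
  rw [if_pos hS, div_le_iff₀ hn']
  have hterm : ∀ v ∈ (univ : Finset (Fin n)),
      (if v ∈ S then a (S.card - 1) * μ (S.erase v) + (1 - r S.card) * μ S
        else if Stb G (insert v S) then r (S.card + 1) * μ (insert v S) + (1 - a S.card) * μ S
        else μ S) ≤ B S.card +
          (if v ∈ S then a (S.card - 1) * B (S.card - 1) - r S.card * B S.card else 0) +
          (if v ∈ free G S then r (S.card + 1) * B (S.card + 1) - a S.card * B S.card else 0) := by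
    intro v _
    have hμS := hμ S hS
    by_cases hv : v ∈ S
    · have hvf : v ∉ free G S := Finset.disjoint_left.1 hdis hv
      rw [if_pos hv, if_pos hv, if_neg hvf]
      have h1 : μ (S.erase v) ≤ B (S.card - 1) := by
        rw [← card_erase_of_mem hv]
        exact hμ _ (fun u hu w hw => hS u (mem_of_mem_erase hu) w (mem_of_mem_erase hw))
      have h2 := mul_le_mul_of_nonneg_left h1 (ha (S.card - 1)).1
      have h3 : (1 - r S.card) * μ S ≤ (1 - r S.card) * B S.card :=
        mul_le_mul_of_nonneg_left hμS (by linarith [(hr S.card).2])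
      linarith
    · rw [if_neg hv, if_neg hv]
      by_cases hv2 : v ∈ free G S
      · rw [if_pos ((pl_stb hS hv).2 hv2), if_pos hv2]
        have h1 : μ (insert v S) ≤ B (S.card + 1) := by
          rw [← card_insert_of_notMem hv]
          exact hμ _ ((pl_stb hS hv).2 hv2)
        have h2 := mul_le_mul_of_nonneg_left h1 (hr (S.card + 1)).1
        have h3 : (1 - a S.card) * μ S ≤ (1 - a S.card) * B S.card :=
          mul_le_mul_of_nonneg_left hμS (by linarith [(ha S.card).2])
        linarith
      · rw [if_neg (fun h1 => hv2 ((pl_stb hS hv).1 h1)), if_neg hv2]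
        linarith
  refine (Finset.sum_le_sum hterm).trans ?_
  rw [Finset.sum_add_distrib, Finset.sum_add_distrib, pl_sum, pl_sum, Finset.sum_const,
    card_univ, Fintype.card_fin, nsmul_eq_mul]
  linarith

end MCE
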