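import Pool.Agent.MCE.Defs
import Pool.Agent.MCE.PushLe

/-!
# MCE-DensI: density bound for time-independent rates

Induction on the time with `push_le` and an explicit supersolution.
-/

open scoped Classical
open Finset

namespace MCE

variable {n : ℕ}

private noncomputable def di_U (fm : ℕ → ℝ) (j : ℕ) : ℝ := ∏ i ∈ Ico 1 (j + 1), ((i : ℝ) / fm i)

private theorem di_U_succ (fm : ℕ → ℝ) (j : ℕ) :
    di_U fm (j + 1) = di_U fm j * (((j + 1 : ℕ) : ℝ) / fm (j + 1)) := by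
  unfold di_U
  rw [Finset.prod_Ico_succ_top (by omega)]

private theorem di_U_pos {fm : ℕ → ℝ} (hfm : ∀ j, 0 < fm j) (j : ℕ) : 0 < di_U fm j := by
  unfold di_U
  refine Finset.prod_pos fun i hi => ?_
  rw [Finset.mem_Ico] at hi
  exact div_pos (by exact_mod_cast hi.1) (hfm i)

private noncomputable def di_w (a r U : ℕ → ℝ) (m1 : ℕ) : ℕ → ℝ
  | 0 => 0
  | k + 1 => (r (m1 - k) * di_w a r U m1 k + U (m1 - k - 1)) / a (m1 - k - 1)

private theorem di_exists_u (a r U : ℕ → ℝ) (ha : ∀ j, 0 < a j) (hr : ∀ j, 0 < r j) (hU : ∀ j, 0 < U j)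
    (m1 : ℕ) : ∃ u : ℕ → ℝ, (∀ j, 0 ≤ u j) ∧ (∀ j, m1 ≤ j → u j = 0) ∧
      ∀ j, j < m1 → a j * u j = r (j + 1) * u (j + 1) + U j := by
  refine ⟨fun j => di_w a r U m1 (m1 - j), fun j => ?_, fun j hj => ?_, fun j hj => ?_⟩
  · have h1 : ∀ k, 0 ≤ di_w a r U m1 k := by
      intro k
      induction k with
      | zero => exact le_refl _
      | succ k ih =>
        show 0 ≤ (r (m1 - k) * di_w a r U m1 k + U (m1 - k - 1)) / a (m1 - k - 1)
        have e1 := (hr (m1 - k)).le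
        have e2 := (hU (m1 - k - 1)).le
        have e3 := (ha (m1 - k - 1)).le
        positivity
    exact h1 _
  · show di_w a r U m1 (m1 - j) = 0
    rw [Nat.sub_eq_zero_of_le hj]
    rfl
  · show a j * di_w a r U m1 (m1 - j) = r (j + 1) * di_w a r U m1 (m1 - (j + 1)) + U j
    obtain ⟨k, hk⟩ : ∃ k, m1 - j = k + 1 := ⟨m1 - j - 1, by omega⟩
    have h1 : m1 - (j + 1) = k := by omega
    rw [hk, h1]
    show a j * ((r (m1 - k) * di_w a r U m1 k + U (m1 - k - 1)) / a (m1 - k - 1)) = _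
    have h2 : m1 - k = j + 1 := by omega
    rw [h2, Nat.add_sub_cancel]
    rw [mul_div_cancel₀ _ (ha j).ne']

private theorem di_exists_v (a r : ℕ → ℝ) (ha : ∀ j, 0 < a j) (hr : ∀ j, 0 < r j) {Λ : ℝ} (hΛ : 1 ≤ Λ)
    (hl : ∀ j, a j ≤ Λ * r (j + 1)) (m1 : ℕ) : ∃ v : ℕ → ℝ, (∀ j, 0 < v j) ∧ v m1 = 1 ∧
      (∀ j, r (j + 1) * v (j + 1) = a j * v j) ∧ ∀ d, v (m1 + d) ≤ Λ ^ d := by
  have hp : ∀ j, 0 < ∏ l ∈ range j, a l / r (l + 1) := fun j =>
    Finset.prod_pos fun l _ => div_pos (ha l) (hr (l + 1))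
  have hrec : ∀ j, r (j + 1) * ((∏ l ∈ range (j + 1), a l / r (l + 1)) / ∏ l ∈ range m1, a l / r (l + 1)) =
      a j * ((∏ l ∈ range j, a l / r (l + 1)) / ∏ l ∈ range m1, a l / r (l + 1)) := by
    intro j
    rw [Finset.prod_range_succ]
    have h1 := (hr (j + 1)).ne'
    have h2 := (hp m1).ne'
    field_simp
  have h1 : (∏ l ∈ range m1, a l / r (l + 1)) / ∏ l ∈ range m1, a l / r (l + 1) = 1 :=
    div_self (hp m1).ne'
  refine ⟨fun j => (∏ l ∈ range j, a l / r (l + 1)) / ∏ l ∈ range m1, a l / r (l + 1),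
    fun j => div_pos (hp j) (hp m1), h1, hrec, fun d => ?_⟩
  induction d with
  | zero =>
    rw [Nat.add_zero, pow_zero]
    exact h1.le
  | succ d ih =>
    have h2 := hrec (m1 + d)
    have h3 := hl (m1 + d)
    have h4 := hr (m1 + d + 1)
    have h5 : 0 < (∏ l ∈ range (m1 + d), a l / r (l + 1)) / ∏ l ∈ range m1, a l / r (l + 1) :=
      div_pos (hp _) (hp m1)
    have h6 : r (m1 + d + 1) * ((∏ l ∈ range (m1 + d + 1), a l / r (l + 1)) / ∏ l ∈ range m1, a l / r (l + 1)) ≤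
        r (m1 + d + 1) * Λ ^ (d + 1) := by
      rw [h2]
      calc a (m1 + d) * ((∏ l ∈ range (m1 + d), a l / r (l + 1)) / ∏ l ∈ range m1, a l / r (l + 1))
          ≤ (Λ * r (m1 + d + 1)) * Λ ^ d := mul_le_mul h3 ih h5.le (by positivity)
        _ = r (m1 + d + 1) * Λ ^ (d + 1) := by ring
    exact le_of_mul_le_mul_left h6 h4

/-- the inequality which is needed for `push_le` -/
private theorem di_key {n : ℕ} (a r fm U u v : ℕ → ℝ) (m1 : ℕ) (hm1 : 0 < m1) (hfm : ∀ j, 0 < fm j)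
    (hU : ∀ j, 0 < U j) (hU1 : ∀ j, U (j + 1) = U j * (((j + 1 : ℕ) : ℝ) / fm (j + 1)))
    (hu0 : ∀ j, m1 ≤ j → u j = 0) (hu : ∀ j, j < m1 → a j * u j = r (j + 1) * u (j + 1) + U j)
    (hv : ∀ j, 0 < v j) (hv1 : v m1 = 1) (j f : ℕ) (hjf : j + f ≤ n) (hff : j ≤ m1 → fm j ≤ f) :
    j * (a (j - 1) * u (j - 1)) + f * (r (j + 1) * u (j + 1)) - (j * r j + f * a j) * u j ≤
      n * (U (m1 - 1) * v j) := by
  have hn0 : (0 : ℝ) ≤ n := Nat.cast_nonneg n
  have hR : 0 ≤ (n : ℝ) * (U (m1 - 1) * v j) := mul_nonneg hn0 (mul_nonneg (hU _).le (hv _).le)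
  rcases lt_trichotomy j m1 with hj | hj | hj
  · have h1 := hu j hj
    rcases j with _ | j
    · refine le_trans ?_ hR
      have h2 : (0 : ℝ) ≤ f := Nat.cast_nonneg f
      have h3 := mul_nonneg h2 (hU 0).le
      push_cast
      nlinarith
    · refine le_trans ?_ hR
      have h2 := hu j (by omega)
      have h3 := hff hj.le
      rw [Nat.add_sub_cancel]
      have h4 : ((j + 1 : ℕ) : ℝ) * U j ≤ f * U (j + 1) := by
        rw [hU1]
        have h5 := hfm (j + 1)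
        have h6 : ((j + 1 : ℕ) : ℝ) * U j = fm (j + 1) * (U j * (((j + 1 : ℕ) : ℝ) / fm (j + 1))) := by
          field_simp
        rw [h6]
        refine mul_le_mul_of_nonneg_right h3 ?_
        have h7 := hU j
        positivity
      have e1 : ((j + 1 : ℕ) : ℝ) * (a j * u j) + f * (r (j + 1 + 1) * u (j + 1 + 1)) -
          (((j + 1 : ℕ) : ℝ) * r (j + 1) + f * a (j + 1)) * u (j + 1) =
          ((j + 1 : ℕ) : ℝ) * U j - f * U (j + 1) := by
        rw [h2]
        linear_combination (-(f : ℝ)) * h1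
      rw [e1]
      linarith
  · subst hj
    have h1 := hu (j - 1) (by omega)
    rw [Nat.sub_add_cancel hm1, hu0 j le_rfl, mul_zero, zero_add] at h1
    rw [hu0 j le_rfl, hu0 (j + 1) (by omega), h1, hv1]
    have h2 : (j : ℝ) ≤ n := by exact_mod_cast (by omega : j ≤ n)
    have h3 := mul_le_mul_of_nonneg_right h2 (hU (j - 1)).le
    linarith
  · rw [hu0 j hj.le, hu0 (j + 1) (by omega), hu0 (j - 1) (by omega)]
    refine le_trans (le_of_eq ?_) hR
    ring

theorem dens_le_I (G : SimpleGraph (Fin n)) (hn : 0 < n) (a r : ℕ → ℝ)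
    (ha : ∀ j, 0 < a j ∧ a j ≤ 1) (hr : ∀ j, 0 < r j ∧ r j ≤ 1) {Λ : ℝ} (hΛ : 1 ≤ Λ)
    (hl : ∀ j, a j ≤ Λ * r (j + 1)) (fm : ℕ → ℝ) (hfm : ∀ j, 0 < fm j) (m1 : ℕ)
    (hf : FreeOK G m1 fm) {S₀ : Finset (Fin n)} (h0 : Stb G S₀) (h1 : S₀.card < m1) (t : ℕ)
    (Y : Finset (Fin n)) (hY : Stb G Y) (hY1 : m1 ≤ Y.card) :
    dens G (fun _ => a) (fun _ => r) S₀ t Y ≤
      t * Λ ^ (Y.card - m1) * ∏ i ∈ Ico (S₀.card + 1) m1, ((i : ℝ) / fm i) := by
  obtain ⟨u, hu1, hu2, hu3⟩ := di_exists_u a r (di_U fm) (fun j => (ha j).1) (fun j => (hr j).1)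
    (di_U_pos hfm) m1
  obtain ⟨v, hv1, hv2, hv3, hv4⟩ := di_exists_v a r (fun j => (ha j).1) (fun j => (hr j).1) hΛ hl m1
  have hU := di_U_pos hfm
  have hm1 : 0 < m1 := by omega
  have key : ∀ t : ℕ, ∀ S, Stb G S → dens G (fun _ => a) (fun _ => r) S₀ t S ≤
      (u S.card + t * di_U fm (m1 - 1) * v S.card) / di_U fm S₀.card := by
    intro t
    induction t with
    | zero =>
      intro S hS
      show (if S = S₀ then (1 : ℝ) else 0) ≤ _
      rw [Nat.cast_zero, zero_mul, zero_mul, add_zero]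
      by_cases hSS : S = S₀
      · rw [if_pos hSS, hSS, le_div_iff₀ (hU _), one_mul]
        have h2 := hu3 S₀.card h1
        have h3 := mul_nonneg (hr (S₀.card + 1)).1.le (hu1 (S₀.card + 1))
        have h4 := mul_le_mul_of_nonneg_right (ha S₀.card).2 (hu1 S₀.card)
        linarith
      · rw [if_neg hSS]
        exact div_nonneg (hu1 _) (hU _).le
    | succ t ih =>
      intro S hS
      refine push_le G hn a r (fun j => ⟨(ha j).1.le, (ha j).2⟩) (fun j => ⟨(hr j).1.le, (hr j).2⟩) fm m1 hf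
        (fun j => (u j + t * di_U fm (m1 - 1) * v j) / di_U fm S₀.card)
        (fun j => (u j + ((t + 1 : ℕ) : ℝ) * di_U fm (m1 - 1) * v j) / di_U fm S₀.card) ?_ _ ih S hS
      intro j f hjf hff
      have h2 := di_key a r fm (di_U fm) u v m1 hm1 hfm hU (di_U_succ fm) hu2 hu3 hv1 hv2 j f hjf hff
      have h3 : (j : ℝ) * (a (j - 1) * v (j - 1)) = j * r j * v j := by
        rcases j with _ | j
        · push_cast
          ring
        · rw [Nat.add_sub_cancel, ← hv3 j]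
          ring
      have h4 := hv3 j
      have hUp := hU S₀.card
      have h5 : (j : ℝ) * (a (j - 1) * ((u (j - 1) + t * di_U fm (m1 - 1) * v (j - 1)) / di_U fm S₀.card)) +
          f * (r (j + 1) * ((u (j + 1) + t * di_U fm (m1 - 1) * v (j + 1)) / di_U fm S₀.card)) +
          (n - j * r j - f * a j) * ((u j + t * di_U fm (m1 - 1) * v j) / di_U fm S₀.card) =
          (((j : ℝ) * (a (j - 1) * u (j - 1)) + f * (r (j + 1) * u (j + 1)) - (j * r j + f * a j) * u j) +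
            n * u j + n * (t * di_U fm (m1 - 1) * v j)) / di_U fm S₀.card := by
        have e1 : (j : ℝ) * (a (j - 1) * ((u (j - 1) + t * di_U fm (m1 - 1) * v (j - 1)) / di_U fm S₀.card)) +
          f * (r (j + 1) * ((u (j + 1) + t * di_U fm (m1 - 1) * v (j + 1)) / di_U fm S₀.card)) +
          (n - j * r j - f * a j) * ((u j + t * di_U fm (m1 - 1) * v j) / di_U fm S₀.card) =
          (((j : ℝ) * (a (j - 1) * u (j - 1)) + f * (r (j + 1) * u (j + 1)) - (j * r j + f * a j) * u j) +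
            n * u j + t * di_U fm (m1 - 1) * ((j : ℝ) * (a (j - 1) * v (j - 1)) +
              f * (r (j + 1) * v (j + 1)) + (n - j * r j - f * a j) * v j)) / di_U fm S₀.card := by
          ring
        rw [e1, h3, h4]
        ring
      show (j : ℝ) * (a (j - 1) * ((u (j - 1) + t * di_U fm (m1 - 1) * v (j - 1)) / di_U fm S₀.card)) +
          f * (r (j + 1) * ((u (j + 1) + t * di_U fm (m1 - 1) * v (j + 1)) / di_U fm S₀.card)) +
          (n - j * r j - f * a j) * ((u j + t * di_U fm (m1 - 1) * v j) / di_U fm S₀.card) ≤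
          n * ((u j + ((t + 1 : ℕ) : ℝ) * di_U fm (m1 - 1) * v j) / di_U fm S₀.card)
      rw [h5, ← mul_div_assoc]
      refine div_le_div_of_nonneg_right ?_ hUp.le
      push_cast
      linarith
  refine (key t Y hY).trans ?_
  rw [hu2 _ hY1, zero_add]
  obtain ⟨d, hd⟩ := Nat.exists_eq_add_of_le hY1
  have h2 := hv4 d
  rw [hd, Nat.add_sub_cancel_left]
  have h3 : di_U fm (m1 - 1) = di_U fm S₀.card * ∏ i ∈ Ico (S₀.card + 1) m1, ((i : ℝ) / fm i) := by
    unfold di_U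
    rw [Nat.sub_add_cancel hm1, Finset.prod_Ico_consecutive _ (by omega) (by omega)]
  have hP : 0 ≤ ∏ i ∈ Ico (S₀.card + 1) m1, ((i : ℝ) / fm i) :=
    Finset.prod_nonneg fun i _ => div_nonneg (Nat.cast_nonneg i) (hfm i).le
  rw [h3]
  have h4 : (t : ℝ) * (di_U fm S₀.card * ∏ i ∈ Ico (S₀.card + 1) m1, ((i : ℝ) / fm i)) * v (m1 + d) /
      di_U fm S₀.card = t * v (m1 + d) * ∏ i ∈ Ico (S₀.card + 1) m1, ((i : ℝ) / fm i) := by
    have h5 := (hU S₀.card).ne'
    field_simp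
  rw [h4]
  exact mul_le_mul_of_nonneg_right (mul_le_mul_of_nonneg_left h2 (Nat.cast_nonneg t)) hP

end MCE
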