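import Pool.Agent.MCE.Defs
import Pool.Agent.MCE.PushLe

/-!
# MCE-DensII: density bound for simulated annealing

The density of the chain at the time `t` is at most a function of the size of the set.
-/

open scoped Classical
open Finset

namespace MCE

variable {n : ℕ}

private noncomputable def dU (K : ℝ) (fm : ℕ → ℝ) (m1 j : ℕ) : ℝ :=
  if j ≤ m1 then ∏ i ∈ Ioc 0 j, (4 * K * i / fm i) else 0

private noncomputable def dV (a r : ℕ → ℕ → ℝ) (j0 t j : ℕ) : ℝ :=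
  ∏ l ∈ Ico j0 j, a t l / r t (l + 1)

private theorem dU_pos {K : ℝ} (hK : 1 ≤ K) {fm : ℕ → ℝ} (hfm : ∀ j, 0 < fm j) {m1 j : ℕ}
    (hj : j ≤ m1) : 0 < dU K fm m1 j := by
  unfold dU
  rw [if_pos hj]
  refine prod_pos fun i hi => ?_
  have h1 : (0 : ℝ) < i := by exact_mod_cast (mem_Ioc.1 hi).1
  have h2 := hfm i
  have h3 : 0 < K := by linarith
  positivity

private theorem dU_nn {K : ℝ} (hK : 1 ≤ K) {fm : ℕ → ℝ} (hfm : ∀ j, 0 < fm j) (m1 j : ℕ) :
    0 ≤ dU K fm m1 j := by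
  by_cases hj : j ≤ m1
  · exact (dU_pos hK hfm hj).le
  · unfold dU
    rw [if_neg hj]

private theorem dU_zero {K : ℝ} {fm : ℕ → ℝ} {m1 j : ℕ} (hj : m1 < j) : dU K fm m1 j = 0 := by
  unfold dU
  rw [if_neg (by omega)]

private theorem dU_succ {K : ℝ} {fm : ℕ → ℝ} {m1 j : ℕ} (hj : j + 1 ≤ m1) :
    dU K fm m1 (j + 1) = dU K fm m1 j * (4 * K * (j + 1 : ℕ) / fm (j + 1)) := by
  unfold dU
  rw [if_pos hj, if_pos (by omega), prod_Ioc_succ_top (Nat.zero_le j)]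

private theorem dU_split {K : ℝ} {fm : ℕ → ℝ} {m1 j : ℕ} (hj : j ≤ m1) :
    dU K fm m1 m1 = dU K fm m1 j * ∏ i ∈ Ioc j m1, (4 * K * i / fm i) := by
  unfold dU
  rw [if_pos le_rfl, if_pos hj, prod_Ioc_consecutive _ (Nat.zero_le j) hj]

private theorem dU_quarter {K : ℝ} (hK : 1 ≤ K) {fm : ℕ → ℝ} (hfm : ∀ j, 0 < fm j) {m1 : ℕ}
    (hfm1 : ∀ j, j ≤ m1 → 16 * K * j ≤ fm j) (j : ℕ) :
    dU K fm m1 (j + 1) ≤ dU K fm m1 j / 4 := by
  have h0 := dU_nn hK hfm m1 j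
  by_cases hj : j + 1 ≤ m1
  · rw [dU_succ hj]
    have h1 := hfm1 (j + 1) hj
    have h2 : 4 * K * (j + 1 : ℕ) / fm (j + 1) ≤ 1 / 4 := by
      rw [div_le_iff₀ (hfm _)]
      linarith
    calc dU K fm m1 j * (4 * K * (j + 1 : ℕ) / fm (j + 1)) ≤ dU K fm m1 j * (1 / 4) :=
          mul_le_mul_of_nonneg_left h2 h0
      _ = dU K fm m1 j / 4 := by ring
  · rw [dU_zero (by omega)]
    positivity

private theorem dU_anti {K : ℝ} (hK : 1 ≤ K) {fm : ℕ → ℝ} (hfm : ∀ j, 0 < fm j) {m1 : ℕ}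
    (hfm1 : ∀ j, j ≤ m1 → 16 * K * j ≤ fm j) {j j' : ℕ} (h : j ≤ j') :
    dU K fm m1 j' ≤ dU K fm m1 j := by
  induction j', h using Nat.le_induction with
  | base => exact le_rfl
  | succ j' _ ih =>
    have h1 := dU_quarter hK hfm hfm1 j'
    have h2 := dU_nn hK hfm m1 j'
    linarith

section

variable {a r : ℕ → ℕ → ℝ} {j0 t j : ℕ}

private theorem dV_of_le (h : j ≤ j0) : dV a r j0 t j = 1 := by
  unfold dV
  rw [Ico_eq_empty_of_le h, prod_empty]

private theorem dV_succ' (h : j0 ≤ j) :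
    dV a r j0 t (j + 1) = dV a r j0 t j * (a t j / r t (j + 1)) := by
  unfold dV
  rw [prod_Ico_succ_top h]

private theorem dV_succ (hr : ∀ i j, 0 < r i j ∧ r i j ≤ 1) (h : j0 ≤ j) :
    r t (j + 1) * dV a r j0 t (j + 1) = a t j * dV a r j0 t j := by
  rw [dV_succ' h]
  have h1 := (hr t (j + 1)).1.ne'
  field_simp

private theorem dV_one (hr : ∀ i j, 0 < r i j ∧ r i j ≤ 1) (hc1 : ∀ i j, r i (j + 1) ≤ a i j) :
    1 ≤ dV a r j0 t j := by
  unfold dV
  refine Finset.prod_induction (fun l => a t l / r t (l + 1)) (fun x => (1 : ℝ) ≤ x) ?_ le_rfl ?_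
  · intro x y hx hy
    exact one_le_mul_of_one_le_of_one_le hx hy
  · intro l _
    rw [one_le_div (hr t (l + 1)).1]
    exact hc1 t l

private theorem dV_mono (ha : ∀ i j, 0 < a i j ∧ a i j ≤ 1) (hr : ∀ i j, 0 < r i j ∧ r i j ≤ 1)
    (hc3 : ∀ i j, a i j * r (i + 1) (j + 1) ≤ a (i + 1) j * r i (j + 1)) :
    dV a r j0 t j ≤ dV a r j0 (t + 1) j := by
  unfold dV
  refine prod_le_prod (fun l _ => ?_) fun l _ => ?_
  · exact (div_pos (ha t l).1 (hr t (l + 1)).1).le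
  · rw [div_le_div_iff₀ (hr t (l + 1)).1 (hr (t + 1) (l + 1)).1]
    exact hc3 t l

private theorem dV_le (ha : ∀ i j, 0 < a i j ∧ a i j ≤ 1) (hr : ∀ i j, 0 < r i j ∧ r i j ≤ 1)
    {Λ : ℝ} (hl : ∀ i j, a i j ≤ Λ * r i (j + 1)) :
    dV a r j0 t j ≤ Λ ^ (j - j0) := by
  unfold dV
  have h1 : ∏ l ∈ Ico j0 j, a t l / r t (l + 1) ≤ ∏ l ∈ Ico j0 j, Λ := by
    refine prod_le_prod (fun l _ => ?_) fun l _ => ?_
    · exact (div_pos (ha t l).1 (hr t (l + 1)).1).le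
    · rw [div_le_iff₀ (hr t (l + 1)).1]
      exact hl t l
  rw [prod_const, Nat.card_Ico] at h1
  exact h1

end

private theorem dII_key (hn : 0 < n) (a r : ℕ → ℕ → ℝ)
    (ha : ∀ i j, 0 < a i j ∧ a i j ≤ 1) (hr : ∀ i j, 0 < r i j ∧ r i j ≤ 1) {K : ℝ}
    (hK : 1 ≤ K)
    (hc1 : ∀ i j, r i (j + 1) ≤ a i j) (hc2 : ∀ i j, a i j ≤ K * a i (j + 1))
    (fm : ℕ → ℝ) {j0 m1 : ℕ} (hj : j0 < m1) (hfm : ∀ j, 0 < fm j)
    (hfm1 : ∀ j, j ≤ m1 → 16 * K * j ≤ fm j) (T : ℕ)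
    (hT : (T + 1) * ∏ i ∈ Ioc j0 m1, (4 * K * i / fm i) ≤ 8) (t : ℕ) (ht : t ≤ T)
    (j f : ℕ) (hjf : j + f ≤ n) (hfj : j ≤ m1 → fm j ≤ f) :
    (j : ℝ) * (a t (j - 1) * (dU K fm m1 (j - 1) + (t + 1) * dU K fm m1 m1 * dV a r j0 t (j - 1))) +
      f * (r t (j + 1) * (dU K fm m1 (j + 1) + (t + 1) * dU K fm m1 m1 * dV a r j0 t (j + 1))) +
      (n - j * r t j - f * a t j) * (dU K fm m1 j + (t + 1) * dU K fm m1 m1 * dV a r j0 t j) ≤
        n * (dU K fm m1 j + (t + 2) * dU K fm m1 m1 * dV a r j0 t j) := by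
  have hM : 0 < dU K fm m1 m1 := dU_pos hK hfm le_rfl
  have hU0 := dU_nn hK hfm m1 j
  have hV0 : 1 ≤ dV a r j0 t j := dV_one hr hc1
  have hA := (ha t j).1
  have hR := (hr t j).1
  have hRp := (hr t (j + 1)).1
  have hf0 : (0 : ℝ) ≤ f := Nat.cast_nonneg f
  have hj0 : (0 : ℝ) ≤ j := Nat.cast_nonneg j
  have ht0 : (0 : ℝ) ≤ t := Nat.cast_nonneg t
  have hn0 : (0 : ℝ) ≤ n := Nat.cast_nonneg n
  have hP : 0 ≤ ((t : ℝ) + 1) * dU K fm m1 m1 := by positivity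
  -- the term with the larger set
  have e2 : (f : ℝ) * (r t (j + 1) * dU K fm m1 (j + 1)) ≤ f * a t j * dU K fm m1 j / 4 := by
    have h1 := dU_quarter hK hfm hfm1 j
    have h2 : r t (j + 1) * dU K fm m1 (j + 1) ≤ a t j * (dU K fm m1 j / 4) :=
      mul_le_mul (hc1 t j) h1 (dU_nn hK hfm m1 (j + 1)) hA.le
    have h3 := mul_le_mul_of_nonneg_left h2 hf0
    linarith
  -- the term with the smaller set
  have e1 : j ≤ m1 → (j : ℝ) * (a t (j - 1) * dU K fm m1 (j - 1)) ≤ f * a t j * dU K fm m1 j / 4 := by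
    intro hjm
    rcases j with _ | j
    · have : 0 ≤ (f : ℝ) * a t 0 * dU K fm m1 0 / 4 := by positivity
      simpa using this
    · rw [Nat.add_sub_cancel]
      have h1 := dU_succ (K := K) (fm := fm) hjm
      have h2 : dU K fm m1 (j + 1) * fm (j + 1) = dU K fm m1 j * (4 * K * (j + 1 : ℕ)) := by
        rw [h1]
        have := (hfm (j + 1)).ne'
        field_simp
      have h3 := hc2 t j
      have h4 := dU_nn hK hfm m1 j
      have h5 := hfj hjm
      have h6 : a t j * dU K fm m1 j ≤ K * a t (j + 1) * dU K fm m1 j :=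
        mul_le_mul_of_nonneg_right h3 h4
      have h7 := mul_le_mul_of_nonneg_left h6 hj0
      have h8 : fm (j + 1) * (a t (j + 1) * dU K fm m1 (j + 1)) ≤ f * (a t (j + 1) * dU K fm m1 (j + 1)) :=
        mul_le_mul_of_nonneg_right h5 (mul_nonneg hA.le hU0)
      have h9 : ((j + 1 : ℕ) : ℝ) * (K * a t (j + 1) * dU K fm m1 j) =
          fm (j + 1) * (a t (j + 1) * dU K fm m1 (j + 1)) / 4 := by
        linear_combination (-(a t (j + 1)) / 4) * h2
      linarith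
  by_cases hc : j ≤ j0
  · have hjm : j ≤ m1 := by omega
    have hV1 : dV a r j0 t j = 1 := dV_of_le hc
    have hVm : dV a r j0 t (j - 1) = 1 := dV_of_le (by omega)
    have e3 : (j : ℝ) * (a t (j - 1) * dV a r j0 t (j - 1)) ≤ j * K * a t j := by
      rw [hVm, mul_one]
      rcases j with _ | j
      · simp
      · rw [Nat.add_sub_cancel]
        have h3 := mul_le_mul_of_nonneg_left (hc2 t j) hj0
        linarith
    have e4 : r t (j + 1) * dV a r j0 t (j + 1) ≤ a t j := by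
      by_cases hc' : j + 1 ≤ j0
      · rw [dV_of_le hc', mul_one]
        exact hc1 t j
      · have hjj : j0 = j := by omega
        rw [dV_succ hr (by omega), hV1, mul_one]
    have e5 : ((t : ℝ) + 1) * dU K fm m1 m1 * (j * K * a t j) ≤ f * a t j * dU K fm m1 j / 2 := by
      have h1 : ((t : ℝ) + 1) * dU K fm m1 m1 ≤ 8 * dU K fm m1 j := by
        have h2 := dU_split (K := K) (fm := fm) hj.le
        have h3 := dU_nn hK hfm m1 j0
        have h4 : (0 : ℝ) ≤ ∏ i ∈ Ioc j0 m1, (4 * K * i / fm i) := by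
          refine prod_nonneg fun i _ => ?_
          have := hfm i
          have : (0 : ℝ) ≤ i := Nat.cast_nonneg i
          positivity
        have h5 : ((t : ℝ) + 1) * ∏ i ∈ Ioc j0 m1, (4 * K * i / fm i) ≤ 8 := by
          refine le_trans (mul_le_mul_of_nonneg_right ?_ h4) hT
          have : (t : ℝ) ≤ T := by exact_mod_cast ht
          linarith
        have h6 := dU_anti hK hfm hfm1 hc
        have h7 := mul_le_mul_of_nonneg_left h5 h3
        rw [h2]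
        calc ((t : ℝ) + 1) * (dU K fm m1 j0 * ∏ i ∈ Ioc j0 m1, (4 * K * i / fm i)) =
              dU K fm m1 j0 * (((t : ℝ) + 1) * ∏ i ∈ Ioc j0 m1, (4 * K * i / fm i)) := by ring
          _ ≤ dU K fm m1 j0 * 8 := h7
          _ ≤ 8 * dU K fm m1 j := by linarith
      have h2 : (0 : ℝ) ≤ j * K * a t j := by
        have : 0 ≤ K := by linarith
        positivity
      have h3 := mul_le_mul_of_nonneg_right h1 h2
      have h4 := (hfm1 j hjm).trans (hfj hjm)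
      have h5 := mul_le_mul_of_nonneg_right h4 (mul_nonneg hA.le hU0)
      have h6 : 8 * dU K fm m1 j * (j * K * a t j) = 16 * K * j * (a t j * dU K fm m1 j) / 2 := by ring
      linarith
    have e1' := e1 hjm
    have e3' := mul_le_mul_of_nonneg_left e3 hP
    have e4' := mul_le_mul_of_nonneg_left (mul_le_mul_of_nonneg_left e4 hf0) hP
    have e6 : 0 ≤ (j : ℝ) * r t j * dU K fm m1 j := by positivity
    have e7 : 0 ≤ (j : ℝ) * r t j * (((t : ℝ) + 1) * dU K fm m1 m1) := by positivity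
    have e8 : 0 ≤ (n : ℝ) * dU K fm m1 m1 := by positivity
    rw [hV1]
    nlinarith [e1', e2, e3', e4', e5, e6, e7, e8]
  · have hV1 : r t j * dV a r j0 t j = a t (j - 1) * dV a r j0 t (j - 1) := by
      obtain ⟨i, rfl⟩ : ∃ i, j = i + 1 := ⟨j - 1, by omega⟩
      rw [Nat.add_sub_cancel]
      exact dV_succ hr (by omega)
    have hV2 : r t (j + 1) * dV a r j0 t (j + 1) = a t j * dV a r j0 t j := dV_succ hr (by omega)
    have key : (j : ℝ) * (a t (j - 1) * (dU K fm m1 (j - 1) + (t + 1) * dU K fm m1 m1 * dV a r j0 t (j - 1))) +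
        f * (r t (j + 1) * (dU K fm m1 (j + 1) + (t + 1) * dU K fm m1 m1 * dV a r j0 t (j + 1))) +
        (n - j * r t j - f * a t j) * (dU K fm m1 j + (t + 1) * dU K fm m1 m1 * dV a r j0 t j) =
        j * (a t (j - 1) * dU K fm m1 (j - 1)) + f * (r t (j + 1) * dU K fm m1 (j + 1)) +
          (n - j * r t j - f * a t j) * dU K fm m1 j + n * ((t + 1) * dU K fm m1 m1 * dV a r j0 t j) := by
      linear_combination (-(j : ℝ) * ((t + 1) * dU K fm m1 m1)) * hV1 +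
        ((f : ℝ) * ((t + 1) * dU K fm m1 m1)) * hV2
    rw [key]
    have hMV : 0 ≤ (n : ℝ) * (dU K fm m1 m1 * dV a r j0 t j) := by positivity
    by_cases hjm : j ≤ m1
    · have e1' := e1 hjm
      have e6 : 0 ≤ (j : ℝ) * r t j * dU K fm m1 j := by positivity
      have e7 : 0 ≤ (f : ℝ) * a t j * dU K fm m1 j := by positivity
      linarith
    · have h1 : dU K fm m1 j = 0 := dU_zero (by omega)
      have h2 : dU K fm m1 (j + 1) = 0 := dU_zero (by omega)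
      have h3 : dU K fm m1 (j - 1) ≤ dU K fm m1 m1 := dU_anti hK hfm hfm1 (by omega)
      have h4 := dU_nn hK hfm m1 (j - 1)
      have hAm := ha t (j - 1)
      have h5 : a t (j - 1) * dU K fm m1 (j - 1) ≤ 1 * dU K fm m1 m1 :=
        mul_le_mul hAm.2 h3 h4 zero_le_one
      have hjn : (j : ℝ) ≤ n := by exact_mod_cast (by omega : j ≤ n)
      have h6 : (j : ℝ) * (a t (j - 1) * dU K fm m1 (j - 1)) ≤ n * (1 * dU K fm m1 m1) :=
        mul_le_mul hjn h5 (mul_nonneg hAm.1.le h4) hn0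
      have h7 : (n : ℝ) * (dU K fm m1 m1 * 1) ≤ n * (dU K fm m1 m1 * dV a r j0 t j) :=
        mul_le_mul_of_nonneg_left (mul_le_mul_of_nonneg_left hV0 hM.le) hn0
      rw [h1, h2]
      linarith

theorem dens_le_II (G : SimpleGraph (Fin n)) (hn : 0 < n) (a r : ℕ → ℕ → ℝ)
    (ha : ∀ i j, 0 < a i j ∧ a i j ≤ 1) (hr : ∀ i j, 0 < r i j ∧ r i j ≤ 1) {Λ K : ℝ}
    (hΛ : 1 ≤ Λ) (hK : 1 ≤ K) (hl : ∀ i j, a i j ≤ Λ * r i (j + 1))
    (hc1 : ∀ i j, r i (j + 1) ≤ a i j) (hc2 : ∀ i j, a i j ≤ K * a i (j + 1))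
    (hc3 : ∀ i j, a i j * r (i + 1) (j + 1) ≤ a (i + 1) j * r i (j + 1))
    (fm : ℕ → ℝ) {j0 m1 : ℕ} (hj : j0 < m1) (hfm : ∀ j, 0 < fm j)
    (hfm1 : ∀ j, j ≤ m1 → 16 * K * j ≤ fm j)
    (hf : FreeOK G m1 fm) {S₀ : Finset (Fin n)} (h0 : Stb G S₀) (h1 : S₀.card ≤ j0) (T : ℕ)
    (hT : (T + 1) * ∏ i ∈ Ioc j0 m1, (4 * K * i / fm i) ≤ 8) (t : ℕ) (ht : t ≤ T)
    (Y : Finset (Fin n)) (hY : Stb G Y) (hY1 : m1 < Y.card) :
    dens G a r S₀ t Y ≤
      (t + 1) * Λ ^ (Y.card - j0) * ∏ i ∈ Ioc S₀.card m1, (4 * K * i / fm i) := by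
  have hM : 0 < dU K fm m1 m1 := dU_pos hK hfm le_rfl
  have hj1 : S₀.card ≤ m1 := by omega
  have hU1 : 0 < dU K fm m1 S₀.card := dU_pos hK hfm hj1
  have hc : 0 < (dU K fm m1 S₀.card)⁻¹ := inv_pos.2 hU1
  have claim : ∀ t : ℕ, t ≤ T → ∀ S : Finset (Fin n), Stb G S → dens G a r S₀ t S ≤
      (dU K fm m1 S₀.card)⁻¹ * (dU K fm m1 S.card + (t + 1) * dU K fm m1 m1 * dV a r j0 t S.card) := by
    intro t
    induction t with
    | zero =>
      intro _ S hS
      have hV : 1 ≤ dV a r j0 0 S.card := dV_one hr hc1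
      have hU := dU_nn hK hfm m1 S.card
      show (if S = S₀ then (1 : ℝ) else 0) ≤ _
      have h2 : 0 ≤ ((0 : ℕ) + 1 : ℝ) * dU K fm m1 m1 * dV a r j0 0 S.card := by positivity
      split_ifs with hSS
      · subst hSS
        rw [← div_eq_inv_mul, one_le_div hU1]
        linarith
      · exact mul_nonneg hc.le (add_nonneg hU h2)
    | succ t ih =>
      intro ht S hS
      have ht' : t ≤ T := by omega
      have hpush := push_le G hn (a t) (r t) (fun j => ⟨(ha t j).1.le, (ha t j).2⟩)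
        (fun j => ⟨(hr t j).1.le, (hr t j).2⟩) fm m1 hf
        (fun j => (dU K fm m1 S₀.card)⁻¹ * (dU K fm m1 j + (t + 1) * dU K fm m1 m1 * dV a r j0 t j))
        (fun j => (dU K fm m1 S₀.card)⁻¹ * (dU K fm m1 j + (t + 2) * dU K fm m1 m1 * dV a r j0 t j))
        (fun j f hjf hfj => by
          have h2 := mul_le_mul_of_nonneg_left
            (dII_key hn a r ha hr hK hc1 hc2 fm hj hfm hfm1 T hT t ht' j f hjf hfj) hc.le
          beta_reduce
          linarith)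
        (dens G a r S₀ t) (ih ht') S hS
      refine hpush.trans ?_
      beta_reduce
      have h3 : dV a r j0 t S.card ≤ dV a r j0 (t + 1) S.card := dV_mono ha hr hc3
      refine mul_le_mul_of_nonneg_left ?_ hc.le
      have h4 : ((t + 1 : ℕ) : ℝ) + 1 = t + 2 := by
        push_cast
        ring
      rw [h4]
      have h5 : (0 : ℝ) ≤ (t + 2) * dU K fm m1 m1 := by positivity
      have h6 := mul_le_mul_of_nonneg_left h3 h5
      linarith
  refine (claim t ht Y hY).trans ?_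
  rw [dU_zero hY1, zero_add, dU_split hj1]
  have hV : dV a r j0 t Y.card ≤ Λ ^ (Y.card - j0) := dV_le ha hr hl
  have hprod : (0 : ℝ) ≤ ∏ i ∈ Ioc S₀.card m1, (4 * K * i / fm i) := by
    refine prod_nonneg fun i _ => ?_
    have := hfm i
    have : (0 : ℝ) ≤ i := Nat.cast_nonneg i
    have : 0 ≤ K := by linarith
    positivity
  have h5 : (0 : ℝ) ≤ ((t : ℝ) + 1) * ∏ i ∈ Ioc S₀.card m1, (4 * K * i / fm i) := by positivity
  have h6 := mul_le_mul_of_nonneg_left hV h5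
  calc (dU K fm m1 S₀.card)⁻¹ * (((t : ℝ) + 1) *
        (dU K fm m1 S₀.card * ∏ i ∈ Ioc S₀.card m1, (4 * K * i / fm i)) * dV a r j0 t Y.card) =
      ((dU K fm m1 S₀.card)⁻¹ * dU K fm m1 S₀.card) *
        (((t : ℝ) + 1) * (∏ i ∈ Ioc S₀.card m1, (4 * K * i / fm i)) * dV a r j0 t Y.card) := by ring
    _ = ((t : ℝ) + 1) * (∏ i ∈ Ioc S₀.card m1, (4 * K * i / fm i)) * dV a r j0 t Y.card := by
      rw [inv_mul_cancel₀ hU1.ne', one_mul]
    _ ≤ ((t : ℝ) + 1) * (∏ i ∈ Ioc S₀.card m1, (4 * K * i / fm i)) * Λ ^ (Y.card - j0) := h6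
    _ = _ := by ring

end MCE
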