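import Pool.Agent.MCE.Defs

/-!
# MCE-HitVis: the hitting probability is at most the expected number of visits to the gates
-/

open scoped Classical
open Finset

namespace MCE

variable {n : ℕ}

private theorem step_le (G : SimpleGraph (Fin n)) (a r : ℕ → ℝ)
    (ha : ∀ j, 0 ≤ a j ∧ a j ≤ 1) (hr : ∀ j, 0 ≤ r j ∧ r j ≤ 1) (g h : Finset (Fin n) → ℝ)
    (S : Finset (Fin n)) (hS : g S ≤ h S) (he : ∀ v ∈ S, g (S.erase v) ≤ h (S.erase v))
    (hi : ∀ v, v ∉ S → Stb G (insert v S) → g (insert v S) ≤ h (insert v S)) :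
    step G a r g S ≤ step G a r h S := by
  unfold step
  apply div_le_div_of_nonneg_right _ (Nat.cast_nonneg n)
  apply Finset.sum_le_sum
  intro v _
  by_cases hv : v ∈ S
  · rw [if_pos hv, if_pos hv]
    have h1 := mul_le_mul_of_nonneg_left (he v hv) (hr S.card).1
    have h2 := mul_le_mul_of_nonneg_left hS (sub_nonneg.mpr (hr S.card).2)
    exact add_le_add h1 h2
  · rw [if_neg hv, if_neg hv]
    by_cases hs : Stb G (insert v S)
    · rw [if_pos hs, if_pos hs]
      have h1 := mul_le_mul_of_nonneg_left (hi v hv hs) (ha S.card).1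
      have h2 := mul_le_mul_of_nonneg_left hS (sub_nonneg.mpr (ha S.card).2)
      exact add_le_add h1 h2
    · rw [if_neg hs, if_neg hs]
      exact hS

private theorem step_nonneg (G : SimpleGraph (Fin n)) (a r : ℕ → ℝ)
    (ha : ∀ j, 0 ≤ a j ∧ a j ≤ 1) (hr : ∀ j, 0 ≤ r j ∧ r j ≤ 1) (h : Finset (Fin n) → ℝ)
    (hh : ∀ S, 0 ≤ h S) (S : Finset (Fin n)) : 0 ≤ step G a r h S := by
  have h1 := step_le G a r ha hr (fun _ => 0) h S (hh _) (fun v _ => hh _) (fun v _ _ => hh _)
  have h2 : step G a r (fun _ => 0) S = 0 := by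
    unfold step
    simp
  rw [h2] at h1
  exact h1

private theorem step_le_one (G : SimpleGraph (Fin n)) (a r : ℕ → ℝ)
    (ha : ∀ j, 0 ≤ a j ∧ a j ≤ 1) (hr : ∀ j, 0 ≤ r j ∧ r j ≤ 1) (h : Finset (Fin n) → ℝ)
    (hh : ∀ S, h S ≤ 1) (S : Finset (Fin n)) : step G a r h S ≤ 1 := by
  have h1 := step_le G a r ha hr h (fun _ => 1) S (hh _) (fun v _ => hh _) (fun v _ _ => hh _)
  have h2 : step G a r (fun _ => 1) S ≤ 1 := by
    unfold step
    have : ∀ v : Fin n, (if v ∈ S then r S.card * (1 : ℝ) + (1 - r S.card) * 1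
      else if Stb G (insert v S) then a S.card * (1 : ℝ) + (1 - a S.card) * 1
      else 1) = 1 := by
      intro v
      split_ifs <;> ring
    rw [Finset.sum_congr rfl (fun v _ => this v)]
    simp only [Finset.sum_const, Finset.card_univ, Fintype.card_fin, nsmul_eq_mul, mul_one]
    exact div_self_le_one _
  exact h1.trans h2

private theorem hit_le_one (G : SimpleGraph (Fin n)) (a r : ℕ → ℕ → ℝ)
    (ha : ∀ i j, 0 ≤ a i j ∧ a i j ≤ 1) (hr : ∀ i j, 0 ≤ r i j ∧ r i j ≤ 1) (mx : ℕ) (t : ℕ) :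
    ∀ (i : ℕ) (S : Finset (Fin n)), hit G a r mx t i S ≤ 1 := by
  induction t with
  | zero =>
    intro i S
    show (if mx ≤ S.card then (1 : ℝ) else 0) ≤ 1
    split_ifs <;> norm_num
  | succ t ih =>
    intro i S
    show (if mx ≤ S.card then (1 : ℝ) else step G (a i) (r i) (hit G a r mx t (i + 1)) S) ≤ 1
    split_ifs
    · exact le_refl _
    · exact step_le_one G _ _ (ha i) (hr i) _ (ih (i + 1)) S

private theorem vis_nonneg (G : SimpleGraph (Fin n)) (a r : ℕ → ℕ → ℝ)
    (ha : ∀ i j, 0 ≤ a i j ∧ a i j ≤ 1) (hr : ∀ i j, 0 ≤ r i j ∧ r i j ≤ 1)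
    (P : Finset (Fin n) → Prop) (t : ℕ) :
    ∀ (i : ℕ) (S : Finset (Fin n)), 0 ≤ vis G a r P t i S := by
  induction t with
  | zero =>
    intro i S
    show 0 ≤ (if P S then (1 : ℝ) else 0)
    split_ifs <;> norm_num
  | succ t ih =>
    intro i S
    show 0 ≤ (if P S then (1 : ℝ) else 0) + step G (a i) (r i) (vis G a r P t (i + 1)) S
    have h1 := step_nonneg G _ _ (ha i) (hr i) _ (ih (i + 1)) S
    split_ifs <;> linarith

private theorem vis_succ (G : SimpleGraph (Fin n)) (a r : ℕ → ℕ → ℝ)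
    (P : Finset (Fin n) → Prop) (t i : ℕ) (S : Finset (Fin n)) :
    vis G a r P (t + 1) i S =
      (if P S then (1 : ℝ) else 0) + step G (a i) (r i) (vis G a r P t (i + 1)) S := rfl

theorem hit_le_vis (G : SimpleGraph (Fin n)) (a r : ℕ → ℕ → ℝ)
    (ha : ∀ i j, 0 ≤ a i j ∧ a i j ≤ 1) (hr : ∀ i j, 0 ≤ r i j ∧ r i j ≤ 1) {m2 mx : ℕ}
    (hm : m2 < mx) (t i : ℕ) (S : Finset (Fin n)) (hS : Stb G S) (hS1 : S.card ≤ mx) :
    hit G a r mx t i S ≤ vis G a r (fun Y => Y ∈ gates G m2 mx) t i S +
      (if CG G m2 mx S ∧ m2 < S.card then 1 else 0) := by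
  induction t generalizing i S with
  | zero =>
    show (if mx ≤ S.card then (1 : ℝ) else 0) ≤ _
    have h0 := vis_nonneg G a r ha hr (fun Y => Y ∈ gates G m2 mx) 0 i S
    by_cases h1 : mx ≤ S.card
    · have h2 : CG G m2 mx S ∧ m2 < S.card :=
        ⟨⟨S, hS, le_antisymm hS1 h1, Relation.ReflTransGen.refl⟩, lt_of_lt_of_le hm h1⟩
      rw [if_pos h1, if_pos h2]
      linarith
    · rw [if_neg h1]
      split_ifs <;> linarith
  | succ t ih =>
    by_cases hC : CG G m2 mx S
    · by_cases h2 : m2 < S.card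
      · rw [if_pos ⟨hC, h2⟩]
        have h0 := vis_nonneg G a r ha hr (fun Y => Y ∈ gates G m2 mx) (t + 1) i S
        have h1 := hit_le_one G a r ha hr mx (t + 1) i S
        linarith
      · have hcard : S.card = m2 := by
          obtain ⟨Z, hZ, hZc, hR⟩ := hC
          rcases Relation.ReflTransGen.cases_tail hR with h | ⟨c, _, hc⟩
          · exfalso
            rw [h, hZc] at h2
            exact h2 hm
          · exact le_antisymm (not_lt.mp h2) hc.2.2.2.1
        have hg : S ∈ gates G m2 mx := by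
          unfold gates
          rw [Finset.mem_filter]
          exact ⟨Finset.mem_univ _, hcard, hC⟩
        have h1 := hit_le_one G a r ha hr mx (t + 1) i S
        have h3 : vis G a r (fun Y => Y ∈ gates G m2 mx) (t + 1) i S =
            1 + step G (a i) (r i) (vis G a r (fun Y => Y ∈ gates G m2 mx) t (i + 1)) S := by
          rw [vis_succ, if_pos hg]
        have h4 := step_nonneg G _ _ (ha i) (hr i) _
          (vis_nonneg G a r ha hr (fun Y => Y ∈ gates G m2 mx) t (i + 1)) S
        rw [h3, if_neg (fun hh => h2 hh.2)]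
        linarith
    · have hlt : ¬ mx ≤ S.card := fun h =>
        hC ⟨S, hS, le_antisymm hS1 h, Relation.ReflTransGen.refl⟩
      rw [if_neg (fun hh => hC hh.1), add_zero]
      have h1 : hit G a r mx (t + 1) i S = step G (a i) (r i) (hit G a r mx t (i + 1)) S := by
        show (if mx ≤ S.card then (1 : ℝ) else _) = _
        rw [if_neg hlt]
      have h2 : step G (a i) (r i) (vis G a r (fun Y => Y ∈ gates G m2 mx) t (i + 1)) S ≤
          vis G a r (fun Y => Y ∈ gates G m2 mx) (t + 1) i S := by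
        rw [vis_succ]
        split_ifs <;> linarith
      rw [h1]
      refine le_trans ?_ h2
      apply step_le G _ _ (ha i) (hr i)
      · have h3 := ih (i + 1) S hS hS1
        rw [if_neg (fun hh => hC hh.1), add_zero] at h3
        exact h3
      · intro v hv
        have hst : Stb G (S.erase v) := fun u hu w hw =>
          hS u (Finset.mem_of_mem_erase hu) w (Finset.mem_of_mem_erase hw)
        have hcd : (S.erase v).card ≤ S.card := Finset.card_le_card (Finset.erase_subset v S)
        have h3 := ih (i + 1) (S.erase v) hst (hcd.trans hS1)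
        rw [if_neg, add_zero] at h3
        · exact h3
        · rintro ⟨⟨Z, hZ, hZc, hR⟩, hlt2⟩
          apply hC
          refine ⟨Z, hZ, hZc, hR.tail ⟨hst, hS, hlt2.le, hlt2.le.trans hcd, Or.inl
            ⟨v, Finset.notMem_erase v S, (Finset.insert_erase hv).symm⟩⟩⟩
      · intro v hv hst
        have hcd : (insert v S).card = S.card + 1 := Finset.card_insert_of_notMem hv
        have h3 := ih (i + 1) (insert v S) hst (by omega)
        rw [if_neg, add_zero] at h3
        · exact h3
        · rintro ⟨⟨Z, hZ, hZc, hR⟩, hlt2⟩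
          apply hC
          refine ⟨Z, hZ, hZc, hR.tail ⟨hst, hS, hlt2.le, by omega, Or.inr
            ⟨v, Finset.mem_insert_self v S, (Finset.erase_insert hv).symm⟩⟩⟩

end MCE
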