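import Pool.Agent.MCE.Defs

/-!
# MCE-Push: the chain and its adjoint (by the involution which flips one vertex)
-/

open scoped Classical
open Finset

namespace MCE

variable {n : ℕ}

theorem dens_supp (G : SimpleGraph (Fin n)) (a r : ℕ → ℕ → ℝ) {S₀ : Finset (Fin n)}
    (h0 : Stb G S₀) (t : ℕ) (S : Finset (Fin n)) (hS : ¬ Stb G S) : dens G a r S₀ t S = 0 := by
  cases t with
  | zero =>
    show (if S = S₀ then (1 : ℝ) else 0) = 0
    rw [if_neg]
    rintro rfl
    exact hS h0
  | succ t =>
    show push G (a t) (r t) (dens G a r S₀ t) S = 0
    unfold push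
    rw [if_neg hS]

private def flip (v : Fin n) (S : Finset (Fin n)) : Finset (Fin n) :=
  if v ∈ S then S.erase v else insert v S

private theorem flip_flip (v : Fin n) (S : Finset (Fin n)) : flip v (flip v S) = S := by
  unfold flip
  by_cases h : v ∈ S
  · rw [if_pos h, if_neg (Finset.notMem_erase v S), Finset.insert_erase h]
  · rw [if_neg h, if_pos (Finset.mem_insert_self v S), Finset.erase_insert h]

private theorem sum_flip (v : Fin n) (f : Finset (Fin n) → ℝ) :
    ∑ S, f (flip v S) = ∑ S, f S :=
  Equiv.sum_comp (Function.Involutive.toPerm (flip v) (flip_flip v)) f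

private theorem stb_mono {G : SimpleGraph (Fin n)} {S T : Finset (Fin n)} (h : Stb G T)
    (hST : S ⊆ T) : Stb G S := fun u hu w hw => h u (hST hu) w (hST hw)

private theorem key (G : SimpleGraph (Fin n)) (a r : ℕ → ℝ) (μ h : Finset (Fin n) → ℝ)
    (hμ : ∀ S, ¬ Stb G S → μ S = 0) (v : Fin n) :
    ∑ S : Finset (Fin n), (if Stb G S then
      (if v ∈ S then a (S.card - 1) * μ (S.erase v) + (1 - r S.card) * μ S
      else if Stb G (insert v S) then r (S.card + 1) * μ (insert v S) + (1 - a S.card) * μ S
      else μ S) else 0) * h S =
    ∑ S : Finset (Fin n), μ S * (if v ∈ S then r S.card * h (S.erase v) + (1 - r S.card) * h S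
    else if Stb G (insert v S) then a S.card * h (insert v S) + (1 - a S.card) * h S
    else h S) := by
  have hE : ∑ S : Finset (Fin n), (if v ∉ S ∧ Stb G (insert v S) then
        μ S * (a S.card * h (insert v S)) else 0) =
      ∑ S : Finset (Fin n), (if v ∈ S ∧ Stb G S then
        a (S.card - 1) * μ (S.erase v) * h S else 0) := by
    rw [← sum_flip v]
    apply Finset.sum_congr rfl
    intro S _
    unfold flip
    by_cases hv : v ∈ S
    · rw [if_pos hv]
      by_cases hs : Stb G S
      · rw [if_pos ⟨Finset.notMem_erase v S, by rwa [Finset.insert_erase hv]⟩, if_pos ⟨hv, hs⟩,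
          Finset.insert_erase hv, Finset.card_erase_of_mem hv]
        ring
      · rw [if_neg (fun hh => hs (by rw [← Finset.insert_erase hv]; exact hh.2)),
          if_neg (fun hh => hs hh.2)]
    · rw [if_neg hv, if_neg (fun hh => hh.1 (Finset.mem_insert_self v S)),
        if_neg (fun hh => hv hh.1)]
  have hF : ∑ S : Finset (Fin n), (if v ∈ S ∧ Stb G S then
        μ S * (r S.card * h (S.erase v)) else 0) =
      ∑ S : Finset (Fin n), (if v ∉ S ∧ Stb G (insert v S) then
        r (S.card + 1) * μ (insert v S) * h S else 0) := by
    rw [← sum_flip v]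
    apply Finset.sum_congr rfl
    intro S _
    unfold flip
    by_cases hv : v ∈ S
    · rw [if_pos hv, if_neg (fun hh => Finset.notMem_erase v S hh.1), if_neg (fun hh => hh.1 hv)]
    · rw [if_neg hv]
      by_cases hs : Stb G (insert v S)
      · rw [if_pos ⟨Finset.mem_insert_self v S, hs⟩, if_pos ⟨hv, hs⟩, Finset.erase_insert hv,
          Finset.card_insert_of_notMem hv]
        ring
      · rw [if_neg (fun hh => hs hh.2), if_neg (fun hh => hs hh.2)]
  have h1 : ∀ S : Finset (Fin n), (if Stb G S then
      (if v ∈ S then a (S.card - 1) * μ (S.erase v) + (1 - r S.card) * μ S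
      else if Stb G (insert v S) then r (S.card + 1) * μ (insert v S) + (1 - a S.card) * μ S
      else μ S) else 0) * h S =
      μ S * (if v ∈ S then (1 - r S.card) * h S else if Stb G (insert v S) then
        (1 - a S.card) * h S else h S) +
      ((if v ∈ S ∧ Stb G S then a (S.card - 1) * μ (S.erase v) * h S else 0) +
      (if v ∉ S ∧ Stb G (insert v S) then r (S.card + 1) * μ (insert v S) * h S else 0)) := by
    intro S
    by_cases hs : Stb G S
    · by_cases hv : v ∈ S
      · simp only [hs, hv, if_true, not_true_eq_false, false_and, if_false, and_self]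
        ring
      · by_cases hi : Stb G (insert v S)
        · simp only [hs, hv, hi, if_true, not_false_eq_true, true_and, if_false, false_and]
          ring
        · simp only [hs, hv, hi, if_true, not_false_eq_true, true_and, if_false, false_and]
          ring
    · have hi : ¬ Stb G (insert v S) := fun hh => hs (stb_mono hh (Finset.subset_insert v S))
      simp only [hs, hi, if_false, and_false, hμ S hs]
      ring
  have h2 : ∀ S : Finset (Fin n), μ S * (if v ∈ S then r S.card * h (S.erase v) +
      (1 - r S.card) * h S
    else if Stb G (insert v S) then a S.card * h (insert v S) + (1 - a S.card) * h S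
    else h S) =
      μ S * (if v ∈ S then (1 - r S.card) * h S else if Stb G (insert v S) then
        (1 - a S.card) * h S else h S) +
      ((if v ∉ S ∧ Stb G (insert v S) then μ S * (a S.card * h (insert v S)) else 0) +
      (if v ∈ S ∧ Stb G S then μ S * (r S.card * h (S.erase v)) else 0)) := by
    intro S
    by_cases hs : Stb G S
    · by_cases hv : v ∈ S
      · simp only [hs, hv, if_true, not_true_eq_false, false_and, if_false, and_self]
        ring
      · by_cases hi : Stb G (insert v S)
        · simp only [hv, hi, if_true, not_false_eq_true, true_and, if_false, false_and]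
          ring
        · simp only [hv, hi, not_false_eq_true, true_and, if_false, false_and]
          ring
    · have hi : ¬ Stb G (insert v S) := fun hh => hs (stb_mono hh (Finset.subset_insert v S))
      simp only [hs, hi, if_false, and_false, hμ S hs]
      ring
  rw [Finset.sum_congr rfl (fun S _ => h1 S), Finset.sum_congr rfl (fun S _ => h2 S),
    Finset.sum_add_distrib, Finset.sum_add_distrib, Finset.sum_add_distrib,
    Finset.sum_add_distrib, hE, hF]

theorem sum_push (G : SimpleGraph (Fin n)) (a r : ℕ → ℝ) (μ h : Finset (Fin n) → ℝ)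
    (hμ : ∀ S, ¬ Stb G S → μ S = 0) :
    ∑ S, push G a r μ S * h S = ∑ S, μ S * step G a r h S := by
  have h1 : ∀ S, push G a r μ S * h S = (∑ v : Fin n, (if Stb G S then
      (if v ∈ S then a (S.card - 1) * μ (S.erase v) + (1 - r S.card) * μ S
      else if Stb G (insert v S) then r (S.card + 1) * μ (insert v S) + (1 - a S.card) * μ S
      else μ S) else 0) * h S) / n := by
    intro S
    unfold push
    by_cases hs : Stb G S
    · rw [if_pos hs, div_mul_eq_mul_div, Finset.sum_mul]
      congr 1
      apply Finset.sum_congr rfl
      intro v _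
      rw [if_pos hs]
    · rw [if_neg hs, zero_mul, Finset.sum_eq_zero, zero_div]
      intro v _
      rw [if_neg hs, zero_mul]
  have h2 : ∀ S, μ S * step G a r h S = (∑ v : Fin n, μ S * (if v ∈ S then
      r S.card * h (S.erase v) + (1 - r S.card) * h S
    else if Stb G (insert v S) then a S.card * h (insert v S) + (1 - a S.card) * h S
    else h S)) / n := by
    intro S
    unfold step
    rw [← mul_div_assoc, Finset.mul_sum]
  rw [Finset.sum_congr rfl (fun S _ => h1 S), Finset.sum_congr rfl (fun S _ => h2 S),
    ← Finset.sum_div, ← Finset.sum_div, Finset.sum_comm, Finset.sum_comm (s := univ)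
      (f := fun S v => μ S * _)]
  congr 1
  exact Finset.sum_congr rfl (fun v _ => key G a r μ h hμ v)

end MCE
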