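import Pool.Agent.MCE.Defs
import Pool.Agent.MCE.Push

/-!
# MCE-VisMu: the expected number of visits
-/

open scoped Classical
open Finset

namespace MCE

variable {n : ℕ}

private theorem vis_dens (G : SimpleGraph (Fin n)) (a r : ℕ → ℕ → ℝ) {S₀ : Finset (Fin n)}
    (h0 : Stb G S₀) (P : Finset (Fin n) → Prop) (t : ℕ) : ∀ i : ℕ,
    ∑ S, dens G a r S₀ i S * vis G a r P t i S =
      ∑ l ∈ range (t + 1), ∑ S ∈ univ.filter P, dens G a r S₀ (i + l) S := by
  induction t with
  | zero =>
    intro i
    rw [Finset.sum_range_one, Finset.sum_filter]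
    refine Finset.sum_congr rfl fun S _ => ?_
    show dens G a r S₀ i S * (if P S then (1 : ℝ) else 0) = _
    by_cases h : P S
    · rw [if_pos h, if_pos h, mul_one]; rfl
    · rw [if_neg h, if_neg h, mul_zero]
  | succ t ih =>
    intro i
    have h1 : ∀ S, dens G a r S₀ i S * vis G a r P (t + 1) i S =
        (if P S then dens G a r S₀ i S else 0) +
          dens G a r S₀ i S * step G (a i) (r i) (vis G a r P t (i + 1)) S := by
      intro S
      show dens G a r S₀ i S * ((if P S then (1 : ℝ) else 0) +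
        step G (a i) (r i) (vis G a r P t (i + 1)) S) = _
      rw [mul_add]
      congr 1
      by_cases h : P S
      · rw [if_pos h, if_pos h, mul_one]
      · rw [if_neg h, if_neg h, mul_zero]
    rw [Finset.sum_congr rfl (fun S _ => h1 S), Finset.sum_add_distrib,
      ← sum_push G (a i) (r i) (dens G a r S₀ i) _ (dens_supp G a r h0 i),
      Finset.sum_range_succ', add_comm]
    congr 1
    · have h2 := ih (i + 1)
      show ∑ S, dens G a r S₀ (i + 1) S * vis G a r P t (i + 1) S = _
      rw [h2]
      refine Finset.sum_congr rfl fun l _ => ?_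
      rw [show i + 1 + l = i + (l + 1) by omega]
    · rw [Finset.sum_filter]; rfl

theorem vis_eq (G : SimpleGraph (Fin n)) (a r : ℕ → ℕ → ℝ) {S₀ : Finset (Fin n)}
    (h0 : Stb G S₀) (P : Finset (Fin n) → Prop) (T : ℕ) :
    vis G a r P T 0 S₀ = ∑ l ∈ range (T + 1), ∑ S ∈ univ.filter P, dens G a r S₀ l S := by
  have h1 := vis_dens G a r h0 P T 0
  have h2 : ∑ S, dens G a r S₀ 0 S * vis G a r P T 0 S = vis G a r P T 0 S₀ := by
    rw [Finset.sum_eq_single S₀]
    · show (if S₀ = S₀ then (1 : ℝ) else 0) * _ = _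
      rw [if_pos rfl, one_mul]
    · intro S _ hS
      show (if S = S₀ then (1 : ℝ) else 0) * _ = _
      rw [if_neg hS, zero_mul]
    · intro h
      exact absurd (Finset.mem_univ _) h
  rw [← h2, h1]
  refine Finset.sum_congr rfl fun l _ => ?_
  rw [Nat.zero_add]

end MCE
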