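import Pool.Agent.MCE.Defs
import Pool.Agent.MCE.HitVis
import Pool.Agent.MCE.VisMu
import Pool.Agent.MCE.DensI
import Pool.Agent.MCE.DensII

/-!
# MCE-Det: the deterministic part

Combination of the density bounds with `hit_le_vis` and `vis_eq`.
-/

open scoped Classical
open Finset

namespace MCE

variable {n : ℕ}

theorem hit_adm (G : SimpleGraph (Fin n)) (hn : 0 < n) {Λ K : ℝ} (hΛ : 1 ≤ Λ) (hK : 1 ≤ K)
    (a r : ℕ → ℕ → ℝ) (hadm : Adm Λ K a r) (fm : ℕ → ℝ) {j0 m1 m2 mx : ℕ} (hj : j0 < m1)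
    (hm : m1 < m2) (hmx : m2 < mx) (hfm : ∀ j, 0 < fm j)
    (hfm1 : ∀ j, j ≤ m1 → 16 * K * j ≤ fm j) (hf : FreeOK G m1 fm) {S₀ : Finset (Fin n)}
    (h0 : Stb G S₀) (h1 : S₀.card ≤ j0) (T : ℕ)
    (hT : (T + 1) * ∏ i ∈ Ioc j0 m1, (4 * K * i / fm i) ≤ 8) :
    hit G a r mx T 0 S₀ ≤ (T + 1) ^ 2 * (gates G m2 mx).card *
      (Λ ^ (m2 - j0) * ∏ i ∈ Ico (S₀.card + 1) m1, (4 * K * i / fm i)) := by
  have hK0 : 0 < K := by linarith
  have hΛ0 : 0 < Λ := by linarith
  have hprod0 : 0 ≤ ∏ i ∈ Ico (S₀.card + 1) m1, (4 * K * i / fm i) :=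
    Finset.prod_nonneg fun i _ => by
      have := (hfm i).le
      positivity
  have hD0 : 0 ≤ Λ ^ (m2 - j0) * ∏ i ∈ Ico (S₀.card + 1) m1, (4 * K * i / fm i) :=
    mul_nonneg (by positivity) hprod0
  have hdens : ∀ Y, Stb G Y → Y.card = m2 → ∀ t, t ≤ T → dens G a r S₀ t Y ≤
      (T + 1) * (Λ ^ (m2 - j0) * ∏ i ∈ Ico (S₀.card + 1) m1, (4 * K * i / fm i)) := by
    intro Y hY hYc t ht
    have htT : (t : ℝ) ≤ T := by exact_mod_cast ht
    have ht0 : (0 : ℝ) ≤ t := Nat.cast_nonneg t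
    rcases hadm.2 with hc | hc
    · have ea : a = fun _ => a 0 := by
        funext i
        funext j
        exact (hc i j).1
      have er : r = fun _ => r 0 := by
        funext i
        funext j
        exact (hc i j).2
      have h2 := dens_le_I G hn (a 0) (r 0) (fun j => ⟨(hadm.1 0 j).1, (hadm.1 0 j).2.1⟩)
        (fun j => ⟨(hadm.1 0 j).2.2.1, (hadm.1 0 j).2.2.2.1⟩) hΛ (fun j => (hadm.1 0 j).2.2.2.2) fm hfm m1 hf h0
        (lt_of_le_of_lt h1 hj) t Y hY (by omega)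
      rw [← ea, ← er, hYc] at h2
      refine h2.trans ?_
      have h3 : Λ ^ (m2 - m1) ≤ Λ ^ (m2 - j0) := pow_le_pow_right₀ hΛ (by omega)
      have h4 : ∏ i ∈ Ico (S₀.card + 1) m1, ((i : ℝ) / fm i) ≤
          ∏ i ∈ Ico (S₀.card + 1) m1, (4 * K * i / fm i) := by
        refine Finset.prod_le_prod (fun i _ => div_nonneg (Nat.cast_nonneg i) (hfm i).le) fun i _ => ?_
        refine div_le_div_of_nonneg_right ?_ (hfm i).le
        have h5 : (0 : ℝ) ≤ i := Nat.cast_nonneg i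
        nlinarith
      have h5 : 0 ≤ ∏ i ∈ Ico (S₀.card + 1) m1, ((i : ℝ) / fm i) :=
        Finset.prod_nonneg fun i _ => div_nonneg (Nat.cast_nonneg i) (hfm i).le
      rw [mul_assoc]
      refine mul_le_mul (by linarith) (mul_le_mul h3 h4 h5 (by positivity)) ?_ (by linarith)
      exact mul_nonneg (by positivity) h5
    · have h2 := dens_le_II G hn a r (fun i j => ⟨(hadm.1 i j).1, (hadm.1 i j).2.1⟩)
        (fun i j => ⟨(hadm.1 i j).2.2.1, (hadm.1 i j).2.2.2.1⟩) hΛ hK (fun i j => (hadm.1 i j).2.2.2.2)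
        (fun i j => (hc i j).1) (fun i j => (hc i j).2.1) (fun i j => (hc i j).2.2) fm hj hfm hfm1 hf h0 h1
        T hT t ht Y hY (by omega)
      rw [hYc] at h2
      refine h2.trans ?_
      have h3 : Ioc S₀.card m1 = Ico (S₀.card + 1) (m1 + 1) := by
        ext i
        simp only [Finset.mem_Ioc, Finset.mem_Ico]
        omega
      have h4 : ∏ i ∈ Ioc S₀.card m1, (4 * K * i / fm i) ≤
          ∏ i ∈ Ico (S₀.card + 1) m1, (4 * K * i / fm i) := by
        rw [h3, Finset.prod_Ico_succ_top (by omega)]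
        refine mul_le_of_le_one_right hprod0 ?_
        rw [div_le_one (hfm m1)]
        have h5 := hfm1 m1 le_rfl
        have h6 : (0 : ℝ) ≤ K * m1 := by positivity
        linarith
      have h5 : 0 ≤ ∏ i ∈ Ioc S₀.card m1, (4 * K * i / fm i) :=
        Finset.prod_nonneg fun i _ => by
          have := (hfm i).le
          positivity
      rw [mul_assoc]
      refine mul_le_mul (by linarith) (mul_le_mul_of_nonneg_left h4 (by positivity)) ?_ (by linarith)
      exact mul_nonneg (by positivity) h5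
  have hgate : ∀ Y ∈ gates G m2 mx, Stb G Y ∧ Y.card = m2 := by
    intro Y hY
    unfold gates at hY
    rw [Finset.mem_filter] at hY
    obtain ⟨-, hYc, Z, hZ, hZc, hR⟩ := hY
    refine ⟨?_, hYc⟩
    rcases Relation.ReflTransGen.cases_tail hR with h | ⟨c, _, hc⟩
    · rw [h]
      exact hZ
    · exact hc.2.1
  have hhit := hit_le_vis G a r (fun i j => ⟨(hadm.1 i j).1.le, (hadm.1 i j).2.1⟩)
    (fun i j => ⟨(hadm.1 i j).2.2.1.le, (hadm.1 i j).2.2.2.1⟩) hmx T 0 S₀ h0 (by omega)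
  rw [if_neg (fun h => by have := h.2; omega), add_zero, vis_eq G a r h0] at hhit
  refine hhit.trans ?_
  have hfil : ∀ inst : DecidablePred fun Y => Y ∈ gates G m2 mx,
      @Finset.filter _ (fun Y => Y ∈ gates G m2 mx) inst univ = gates G m2 mx := by
    intro inst
    ext Y
    simp
  rw [hfil]
  calc ∑ l ∈ range (T + 1), ∑ S ∈ gates G m2 mx, dens G a r S₀ l S
      ≤ ∑ l ∈ range (T + 1), ∑ _S ∈ gates G m2 mx,
          ((T + 1) * (Λ ^ (m2 - j0) * ∏ i ∈ Ico (S₀.card + 1) m1, (4 * K * i / fm i)) : ℝ) := by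
        refine Finset.sum_le_sum fun l hl => Finset.sum_le_sum fun S hS => ?_
        have h2 := Finset.mem_range.1 hl
        exact hdens S (hgate S hS).1 (hgate S hS).2 l (by omega)
    _ = (T + 1) ^ 2 * (gates G m2 mx).card *
          (Λ ^ (m2 - j0) * ∏ i ∈ Ico (S₀.card + 1) m1, (4 * K * i / fm i)) := by
        rw [Finset.sum_const, Finset.sum_const, Finset.card_range, nsmul_eq_mul, nsmul_eq_mul]
        push_cast
        ring

end MCE
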