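import Pool.Agent.MCE.Defs

/-!
# MCE-GenF: generating function of the sets which meet all blocks

Induction on `W`: a set is the union of its part in the block `Bl w` and its part outside of this block.
-/

open scoped Classical
open Finset

namespace MCE

private theorem gf_all {α : Type} (E : Finset α) (z : ℝ) :
    ∑ A ∈ E.powerset, z ^ A.card = (1 + z) ^ E.card := by
  rw [add_comm 1 z, ← Finset.sum_pow_mul_eq_add_pow]
  refine Finset.sum_congr rfl fun A _ => ?_
  rw [one_pow, mul_one]

private theorem gf_ne {α : Type} (E : Finset α) (z : ℝ) :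
    ∑ A ∈ E.powerset.filter (fun A => A.Nonempty), z ^ A.card = (1 + z) ^ E.card - 1 := by
  have h1 : E.powerset.filter (fun A => A.Nonempty) = E.powerset.erase ∅ := by
    ext A
    rw [Finset.mem_filter, Finset.mem_erase, Finset.nonempty_iff_ne_empty]
    exact and_comm
  rw [h1, Finset.sum_erase_eq_sub (Finset.empty_mem_powerset E), gf_all, Finset.card_empty,
    pow_zero]

theorem gen_sum {α β : Type} [DecidableEq α] [DecidableEq β] (E : Finset α) (W : Finset β)
    (Bl : β → Finset α) (j : ℕ) (hsub : ∀ v ∈ W, Bl v ⊆ E) (hcard : ∀ v ∈ W, (Bl v).card = j)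
    (hdisj : ∀ v ∈ W, ∀ w ∈ W, v ≠ w → Disjoint (Bl v) (Bl w)) (z : ℝ) :
    ∑ A ∈ E.powerset.filter (fun A => ∀ v ∈ W, (A ∩ Bl v).Nonempty), z ^ A.card =
      ((1 + z) ^ j - 1) ^ W.card * (1 + z) ^ (E.card - j * W.card) := by
  induction W using Finset.induction_on generalizing E with
  | empty =>
    rw [Finset.filter_true_of_mem (fun A _ v hv => absurd hv (Finset.notMem_empty v)), gf_all,
      Finset.card_empty, pow_zero, one_mul, mul_zero, Nat.sub_zero]
  | insert w W hw ih =>
    have hwE : Bl w ⊆ E := hsub w (Finset.mem_insert_self w W)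
    have hwj : (Bl w).card = j := hcard w (Finset.mem_insert_self w W)
    have hne : ∀ v ∈ W, v ≠ w := fun v hv h => hw (h ▸ hv)
    have hd : ∀ v ∈ W, Disjoint (Bl v) (Bl w) := fun v hv =>
      hdisj v (Finset.mem_insert_of_mem hv) w (Finset.mem_insert_self w W) (hne v hv)
    have hih := ih (E \ Bl w)
      (fun v hv => Finset.subset_sdiff.2 ⟨hsub v (Finset.mem_insert_of_mem hv), hd v hv⟩)
      (fun v hv => hcard v (Finset.mem_insert_of_mem hv))
      (fun v hv u hu => hdisj v (Finset.mem_insert_of_mem hv) u (Finset.mem_insert_of_mem hu))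
    have hcE : (E \ Bl w).card = E.card - j := by
      rw [Finset.card_sdiff_of_subset hwE, hwj]
    have hsplit : ∑ A ∈ E.powerset.filter (fun A => ∀ v ∈ insert w W, (A ∩ Bl v).Nonempty),
        z ^ A.card = ∑ q ∈ ((Bl w).powerset.filter (fun A => A.Nonempty)) ×ˢ
          ((E \ Bl w).powerset.filter (fun A => ∀ v ∈ W, (A ∩ Bl v).Nonempty)),
          z ^ q.1.card * z ^ q.2.card := by
      refine Finset.sum_nbij' (fun A => (A ∩ Bl w, A \ Bl w)) (fun q => q.1 ∪ q.2) ?_ ?_ ?_ ?_ ?_
      · intro A hA
        rw [Finset.mem_filter, Finset.mem_powerset] at hA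
        rw [Finset.mem_product, Finset.mem_filter, Finset.mem_filter, Finset.mem_powerset,
          Finset.mem_powerset]
        refine ⟨⟨Finset.inter_subset_right, hA.2 w (Finset.mem_insert_self w W)⟩,
          Finset.sdiff_subset_sdiff hA.1 (Finset.Subset.refl _), fun v hv => ?_⟩
        obtain ⟨x, hx⟩ := hA.2 v (Finset.mem_insert_of_mem hv)
        rw [Finset.mem_inter] at hx
        refine ⟨x, Finset.mem_inter.2 ⟨Finset.mem_sdiff.2 ⟨hx.1, ?_⟩, hx.2⟩⟩
        exact Finset.disjoint_left.1 (hd v hv) hx.2
      · intro q hq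
        rw [Finset.mem_product, Finset.mem_filter, Finset.mem_filter, Finset.mem_powerset,
          Finset.mem_powerset] at hq
        obtain ⟨⟨h1, h2⟩, h3, h4⟩ := hq
        rw [Finset.mem_filter, Finset.mem_powerset]
        refine ⟨Finset.union_subset (h1.trans hwE) (h3.trans Finset.sdiff_subset), ?_⟩
        intro v hv
        rcases Finset.mem_insert.1 hv with rfl | hv
        · obtain ⟨x, hx⟩ := h2
          exact ⟨x, Finset.mem_inter.2 ⟨Finset.mem_union_left _ hx, h1 hx⟩⟩
        · obtain ⟨x, hx⟩ := h4 v hv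
          rw [Finset.mem_inter] at hx
          exact ⟨x, Finset.mem_inter.2 ⟨Finset.mem_union_right _ hx.1, hx.2⟩⟩
      · intro A _
        exact sup_inf_sdiff A (Bl w)
      · intro q hq
        rw [Finset.mem_product, Finset.mem_filter, Finset.mem_filter, Finset.mem_powerset,
          Finset.mem_powerset] at hq
        obtain ⟨⟨h1, -⟩, h3, -⟩ := hq
        have h5 : Disjoint q.2 (Bl w) := Finset.disjoint_of_subset_left h3 Finset.sdiff_disjoint
        refine Prod.ext ?_ ?_
        · show (q.1 ∪ q.2) ∩ Bl w = q.1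
          rw [Finset.union_inter_distrib_right, Finset.inter_eq_left.2 h1,
            Finset.disjoint_iff_inter_eq_empty.1 h5, Finset.union_empty]
        · show (q.1 ∪ q.2) \ Bl w = q.2
          rw [Finset.union_sdiff_distrib, Finset.sdiff_eq_empty_iff_subset.2 h1,
            Finset.empty_union, Finset.sdiff_eq_self_of_disjoint h5]
      · intro A _
        rw [← pow_add, Finset.card_inter_add_card_sdiff]
    rw [hsplit, Finset.sum_product]
    simp only [← Finset.mul_sum]
    rw [← Finset.sum_mul, hih, gf_ne, hwj, hcE, Finset.card_insert_of_notMem hw, pow_succ,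
      Nat.mul_succ, Nat.sub_sub, Nat.add_comm j (j * W.card)]
    ring

end MCE
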