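import Pool.Agent.MCE.Defs
import Pool.Agent.MCE.GenF

/-!
# MCE-HitC: the number of sets of given size which meet all blocks

Comparison with the generating function `gen_sum` at `z = M / (N - M)`, the largest term of the binomial expansion of `(1 + z) ^ N` is the one with index `M`.
-/

open scoped Classical
open Finset

namespace MCE

private theorem hc_rec {N M : ℕ} (hM : M < N) {z : ℝ} (hz : z * ((N : ℝ) - M) = M) {i : ℕ} (hi : i < N) :
    ((N.choose (i + 1) : ℝ) * z ^ (i + 1)) * ((i + 1 : ℝ) * ((N : ℝ) - M)) =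
      ((N.choose i : ℝ) * z ^ i) * (((N : ℝ) - i) * M) := by
  have _ := hM
  have h1 : (N.choose (i + 1) : ℝ) * (i + 1) = (N.choose i : ℝ) * ((N : ℝ) - i) := by
    have h2 := Nat.choose_succ_right_eq N i
    have h3 : ((N - i : ℕ) : ℝ) = (N : ℝ) - i := Nat.cast_sub hi.le
    rw [← h3]
    exact_mod_cast h2
  calc ((N.choose (i + 1) : ℝ) * z ^ (i + 1)) * ((i + 1 : ℝ) * ((N : ℝ) - M))
      = ((N.choose (i + 1) : ℝ) * (i + 1)) * z ^ i * (z * ((N : ℝ) - M)) := by ring
    _ = _ := by rw [h1, hz]; ring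

private theorem hc_max {N M : ℕ} (hM : M < N) {z : ℝ} (hz0 : 0 ≤ z) (hz : z * ((N : ℝ) - M) = M)
    {i : ℕ} (hi : i ≤ N) : (N.choose i : ℝ) * z ^ i ≤ (N.choose M : ℝ) * z ^ M := by
  have hNM : (0 : ℝ) < (N : ℝ) - M := by
    have : (M : ℝ) < N := by exact_mod_cast hM
    linarith
  have hpos : ∀ k : ℕ, 0 ≤ (N.choose k : ℝ) * z ^ k := fun k => by positivity
  rcases le_total i M with h | h
  · have key : ∀ k, k ≤ M → (N.choose (M - k) : ℝ) * z ^ (M - k) ≤ (N.choose M : ℝ) * z ^ M := by
      intro k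
      induction k with
      | zero => intro _; exact le_refl _
      | succ k ih =>
        intro hk
        refine le_trans ?_ (ih (by omega))
        obtain ⟨l, hl⟩ : ∃ l, M - k = l + 1 := ⟨M - k - 1, by omega⟩
        have hl' : M - (k + 1) = l := by omega
        rw [hl, hl']
        have hlN : l < N := by omega
        have h2 := hc_rec hM hz hlN
        have hlM : (l : ℝ) + 1 ≤ M := by exact_mod_cast (by omega : l + 1 ≤ M)
        have h3 : ((l : ℝ) + 1) * ((N : ℝ) - M) ≤ ((N : ℝ) - l) * M := by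
          have hN0 : (0 : ℝ) ≤ N := Nat.cast_nonneg _
          have hM0 : (0 : ℝ) ≤ M := Nat.cast_nonneg _
          nlinarith [mul_nonneg hN0 (sub_nonneg.2 hlM)]
        have h4 : 0 < ((l : ℝ) + 1) * ((N : ℝ) - M) := by positivity
        refine le_of_mul_le_mul_right ?_ h4
        rw [h2]
        exact mul_le_mul_of_nonneg_left h3 (hpos l)
    have := key (M - i) (by omega)
    rwa [Nat.sub_sub_self h] at this
  · have key : ∀ k, M + k ≤ N → (N.choose (M + k) : ℝ) * z ^ (M + k) ≤ (N.choose M : ℝ) * z ^ M := by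
      intro k
      induction k with
      | zero => intro _; exact le_refl _
      | succ k ih =>
        intro hk
        refine le_trans ?_ (ih (by omega))
        have hlN : M + k < N := by omega
        have h2 := hc_rec hM hz hlN
        have h3 : ((N : ℝ) - (M + k : ℕ)) * M ≤ (((M + k : ℕ) : ℝ) + 1) * ((N : ℝ) - M) := by
          push_cast
          have hN0 : (0 : ℝ) ≤ N := Nat.cast_nonneg _
          have hk0 : (0 : ℝ) ≤ k := Nat.cast_nonneg _
          have hM0 : (0 : ℝ) ≤ M := Nat.cast_nonneg _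
          nlinarith [mul_nonneg hN0 hk0]
        have h4 : 0 < (((M + k : ℕ) : ℝ) + 1) * ((N : ℝ) - M) := by positivity
        refine le_of_mul_le_mul_right ?_ h4
        rw [← add_assoc, h2]
        exact mul_le_mul_of_nonneg_left h3 (hpos _)
    have := key (i - M) (by omega)
    rwa [Nat.add_sub_cancel' h] at this

private theorem hc_pow {N M : ℕ} (hM : M < N) {z : ℝ} (hz0 : 0 ≤ z) (hz : z * ((N : ℝ) - M) = M) :
    (1 + z) ^ N ≤ (N + 1) * (N.choose M) * z ^ M := by
  rw [add_comm 1 z, add_pow]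
  have h1 : ∑ m ∈ range (N + 1), z ^ m * 1 ^ (N - m) * (N.choose m : ℝ) ≤
      ∑ _m ∈ range (N + 1), (N.choose M : ℝ) * z ^ M := by
    refine Finset.sum_le_sum fun i hi => ?_
    have h2 := hc_max hM hz0 hz (Nat.lt_succ_iff.1 (Finset.mem_range.1 hi))
    rw [one_pow, mul_one, mul_comm]
    exact h2
  refine h1.trans (le_of_eq ?_)
  rw [Finset.sum_const, Finset.card_range, nsmul_eq_mul]
  push_cast
  ring

theorem hit_count {α β : Type} [DecidableEq α] [DecidableEq β] (E : Finset α) (W : Finset β)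
    (Bl : β → Finset α) (j : ℕ) (hsub : ∀ v ∈ W, Bl v ⊆ E) (hcard : ∀ v ∈ W, (Bl v).card = j)
    (hdisj : ∀ v ∈ W, ∀ w ∈ W, v ≠ w → Disjoint (Bl v) (Bl w)) (M : ℕ) (hM : M < E.card) :
    (((E.powersetCard M).filter (fun A => ∀ v ∈ W, (A ∩ Bl v).Nonempty)).card : ℝ) ≤
      (E.card + 1) * (E.card.choose M) * (1 - (1 - (M : ℝ) / E.card) ^ j) ^ W.card := by
  have hN : (0 : ℝ) < E.card := by exact_mod_cast (Nat.zero_le M).trans_lt hM
  have hMN : (M : ℝ) < E.card := by exact_mod_cast hM
  rcases Nat.eq_zero_or_pos M with rfl | hM0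
  · rw [Finset.powersetCard_zero, Nat.choose_zero_right, Nat.cast_one, Nat.cast_zero, zero_div,
      sub_zero, one_pow, sub_self, mul_one]
    rcases W.eq_empty_or_nonempty with rfl | ⟨v, hv⟩
    · rw [Finset.card_empty, pow_zero, mul_one]
      have h1 : (({∅} : Finset (Finset α)).filter
          (fun A => ∀ v ∈ (∅ : Finset β), (A ∩ Bl v).Nonempty)).card ≤ 1 :=
        (Finset.card_filter_le _ _).trans (by rw [Finset.card_singleton])
      have h2 : ((({∅} : Finset (Finset α)).filter
          (fun A => ∀ v ∈ (∅ : Finset β), (A ∩ Bl v).Nonempty)).card : ℝ) ≤ 1 := by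
        exact_mod_cast h1
      linarith
    · have h1 : ({∅} : Finset (Finset α)).filter (fun A => ∀ v ∈ W, (A ∩ Bl v).Nonempty) = ∅ := by
        refine Finset.filter_eq_empty_iff.2 fun A hA h => ?_
        rw [Finset.mem_singleton] at hA
        have := h v hv
        rw [hA, Finset.empty_inter] at this
        exact Finset.not_nonempty_empty this
      rw [h1, Finset.card_empty, Nat.cast_zero]
      positivity
  · have hM0' : (0 : ℝ) < M := by exact_mod_cast hM0
    have hNM : (0 : ℝ) < (E.card : ℝ) - M := by linarith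
    obtain ⟨z, hzdef⟩ : ∃ z : ℝ, z = (M : ℝ) / ((E.card : ℝ) - M) := ⟨_, rfl⟩
    have hz0 : 0 < z := by rw [hzdef]; positivity
    have hz : z * ((E.card : ℝ) - M) = M := by rw [hzdef]; exact div_mul_cancel₀ _ hNM.ne'
    obtain ⟨y, hydef⟩ : ∃ y : ℝ, y = 1 - (M : ℝ) / E.card := ⟨_, rfl⟩
    rw [← hydef]
    have hy0 : 0 ≤ y := by
      rw [hydef, sub_nonneg, div_le_one hN]
      exact hMN.le
    have hy1 : y ≤ 1 := by
      rw [hydef]
      have : 0 ≤ (M : ℝ) / E.card := by positivity
      linarith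
    have hyz : (1 + z) * y = 1 := by
      rw [hydef, hzdef]
      field_simp
      ring
    have hjw : j * W.card ≤ E.card := by
      have h1 : (W.biUnion Bl).card = ∑ v ∈ W, (Bl v).card :=
        Finset.card_biUnion fun v hv w hw hvw => hdisj v hv w hw hvw
      rw [Finset.sum_congr rfl hcard, Finset.sum_const, smul_eq_mul, mul_comm] at h1
      rw [← h1]
      exact Finset.card_le_card (Finset.biUnion_subset.2 hsub)
    have hgen := gen_sum E W Bl j hsub hcard hdisj z
    have hle : (((E.powersetCard M).filter (fun A => ∀ v ∈ W, (A ∩ Bl v).Nonempty)).card : ℝ) *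
        z ^ M ≤ ∑ A ∈ E.powerset.filter (fun A => ∀ v ∈ W, (A ∩ Bl v).Nonempty), z ^ A.card := by
      have h1 : (((E.powersetCard M).filter (fun A => ∀ v ∈ W, (A ∩ Bl v).Nonempty)).card : ℝ) *
          z ^ M = ∑ A ∈ (E.powersetCard M).filter (fun A => ∀ v ∈ W, (A ∩ Bl v).Nonempty),
            z ^ A.card := by
        rw [← nsmul_eq_mul, ← Finset.sum_const]
        refine Finset.sum_congr rfl fun A hA => ?_
        rw [(Finset.mem_powersetCard.1 (Finset.mem_filter.1 hA).1).2]
      rw [h1]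
      refine Finset.sum_le_sum_of_subset_of_nonneg ?_ fun A _ _ => by positivity
      intro A hA
      rw [Finset.mem_filter] at hA ⊢
      exact ⟨Finset.mem_powerset.2 (Finset.mem_powersetCard.1 hA.1).1, hA.2⟩
    rw [hgen] at hle
    have h5 : ((1 + z) ^ j - 1) ^ W.card * (1 + z) ^ (E.card - j * W.card) =
        (1 - y ^ j) ^ W.card * (1 + z) ^ E.card := by
      have h6 : (1 + z) ^ j - 1 = (1 + z) ^ j * (1 - y ^ j) := by
        rw [mul_sub, mul_one, ← mul_pow, hyz, one_pow]
      rw [h6, mul_pow, ← pow_mul]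
      have h7 : (1 + z) ^ E.card = (1 + z) ^ (j * W.card) * (1 + z) ^ (E.card - j * W.card) := by
        rw [← pow_add, Nat.add_sub_cancel' hjw]
      rw [h7]
      ring
    rw [h5] at hle
    have h8 := hc_pow hM hz0.le hz
    have h9 : 0 ≤ (1 - y ^ j) ^ W.card := pow_nonneg (sub_nonneg.2 (pow_le_one₀ hy0 hy1)) _
    have h10 : (0 : ℝ) < z ^ M := by positivity
    refine le_of_mul_le_mul_right (hle.trans ?_) h10
    calc (1 - y ^ j) ^ W.card * (1 + z) ^ E.card
        ≤ (1 - y ^ j) ^ W.card * ((E.card + 1) * (E.card.choose M) * z ^ M) :=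
          mul_le_mul_of_nonneg_left h8 h9
      _ = (E.card + 1) * (E.card.choose M) * (1 - y ^ j) ^ W.card * z ^ M := by ring

end MCE
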