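import Pool.Agent.MCE.Defs
import Pool.Agent.MCE.Avoid
import Pool.Agent.MCE.HitC

/-!
# MCE-FreeG: graphs in which all vertices outside S and F have a neighbour in S

Proof. `LKA.cnt_edge` and `hit_count` with the blocks `Bl v = {uv : u ∈ S}`, `v` outside `S ∪ F`.
-/

open scoped Classical
open Finset

namespace MCE

/-- the pairs `uv`, `u ∈ S` -/
private noncomputable def fr_bl {n : ℕ} (S : Finset (Fin n)) (v : Fin n) : Finset (Sym2 (Fin n)) :=
  S.image (fun u => s(u, v))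

private theorem fr_mem {n : ℕ} {S : Finset (Fin n)} {v : Fin n} {e : Sym2 (Fin n)} :
    e ∈ fr_bl S v ↔ ∃ u ∈ S, s(u, v) = e := Finset.mem_image

private theorem fr_card {n : ℕ} (S : Finset (Fin n)) {v : Fin n} (hv : v ∉ S) : (fr_bl S v).card = S.card := by
  unfold fr_bl
  refine Finset.card_image_of_injOn ?_
  intro a ha b _ h
  have h1 : s(a, v) = s(b, v) := h
  rcases Sym2.eq_iff.1 h1 with ⟨h2, _⟩ | ⟨h2, _⟩
  · exact h2
  · exact absurd (h2 ▸ Finset.mem_coe.1 ha) hv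

private theorem fr_disj {n : ℕ} (S : Finset (Fin n)) {v w : Fin n} (hw : w ∉ S) (hvw : v ≠ w) :
    Disjoint (fr_bl S v) (fr_bl S w) := by
  rw [Finset.disjoint_left]
  intro e he he'
  obtain ⟨a, ha, rfl⟩ := fr_mem.1 he
  obtain ⟨b, _, h⟩ := fr_mem.1 he'
  rcases Sym2.eq_iff.1 h with ⟨_, h2⟩ | ⟨_, h2⟩
  · exact hvw h2.symm
  · exact hw (h2 ▸ ha)

private theorem fr_sub {n : ℕ} (S : Finset (Fin n)) {v : Fin n} (hv : v ∉ S) :
    fr_bl S v ⊆ (⊤ : SimpleGraph (Fin n)).edgeFinset := by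
  intro e he
  obtain ⟨a, ha, rfl⟩ := fr_mem.1 he
  rw [SimpleGraph.mem_edgeFinset, SimpleGraph.mem_edgeSet, SimpleGraph.top_adj]
  rintro rfl
  exact hv ha

/-- the set of pairs meets all blocks -/
private def fr_P {n : ℕ} (S F : Finset (Fin n)) (s : Finset (Sym2 (Fin n))) : Prop :=
  ∀ v ∈ (S ∪ F)ᶜ, (s ∩ fr_bl S v).Nonempty

private theorem fr_fc {α : Type} {s : Finset α} {p q : α → Prop} (hp : DecidablePred p) (hq : DecidablePred q)
    (h : ∀ a, p a ↔ q a) : (s.filter p).card = (s.filter q).card := by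
  refine congrArg Finset.card (Finset.ext fun a => ?_)
  rw [Finset.mem_filter, Finset.mem_filter, h]

theorem free_graph {n : ℕ} (M : ℕ) (hM : M < n.choose 2) (S F : Finset (Fin n)) :
    (((Gs n M).filter (fun G => ∀ v, v ∉ S → v ∉ F → ∃ u ∈ S, G.Adj u v)).card : ℝ) ≤
      ((n.choose 2 : ℕ) + 1) * (1 - (1 - dn n M) ^ S.card) ^ (n - S.card - F.card) *
        (Gs n M).card := by
  have hE : (⊤ : SimpleGraph (Fin n)).edgeFinset.card = n.choose 2 := by
    rw [SimpleGraph.card_edgeFinset_top_eq_card_choose_two, Fintype.card_fin]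
  have hW : ∀ v ∈ (S ∪ F)ᶜ, v ∉ S := fun v hv h => (Finset.mem_compl.1 hv) (Finset.mem_union_left _ h)
  have h1 := LKA.cnt_edge n M (fr_P S F)
  have h2 : ((Gs n M).filter (fun G => ∀ v, v ∉ S → v ∉ F → ∃ u ∈ S, G.Adj u v)).card =
      LKA.cnt n M (fun G => fr_P S F G.edgeFinset) := by
    unfold LKA.cnt Gs
    rw [Finset.filter_filter]
    refine congrArg Finset.card (Finset.ext fun G => ?_)
    rw [Finset.mem_filter, Finset.mem_filter]
    refine and_congr_right fun _ => and_congr_right fun _ => ?_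
    constructor
    · intro h v hv
      have hv' := Finset.mem_compl.1 hv
      obtain ⟨u, hu, hadj⟩ := h v (fun h => hv' (Finset.mem_union_left _ h)) (fun h => hv' (Finset.mem_union_right _ h))
      exact ⟨s(u, v), Finset.mem_inter.2 ⟨by rw [SimpleGraph.mem_edgeFinset, SimpleGraph.mem_edgeSet]; exact hadj,
        fr_mem.2 ⟨u, hu, rfl⟩⟩⟩
    · intro h v hvS hvF
      obtain ⟨e, he⟩ := h v (Finset.mem_compl.2 fun h => (Finset.mem_union.1 h).elim hvS hvF)
      obtain ⟨he1, he2⟩ := Finset.mem_inter.1 he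
      obtain ⟨u, hu, rfl⟩ := fr_mem.1 he2
      rw [SimpleGraph.mem_edgeFinset, SimpleGraph.mem_edgeSet] at he1
      exact ⟨u, hu, he1⟩
  have h3 := hit_count (⊤ : SimpleGraph (Fin n)).edgeFinset ((S ∪ F)ᶜ) (fr_bl S) S.card (fun v hv => fr_sub S (hW v hv))
    (fun v hv => fr_card S (hW v hv)) (fun v _ w hw hvw => fr_disj S (hW w hw) hvw) M (by rw [hE]; exact hM)
  rw [h2, h1, card_Gs]
  rw [hE] at h3
  have hdn : (M : ℝ) / (n.choose 2 : ℕ) = dn n M := rfl
  rw [hdn] at h3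
  have hN : (0 : ℝ) < (n.choose 2 : ℕ) := by exact_mod_cast (Nat.zero_le M).trans_lt hM
  have hd0 : 0 ≤ dn n M := div_nonneg (Nat.cast_nonneg _) (Nat.cast_nonneg _)
  have hd1 : dn n M ≤ 1 := by
    unfold dn
    rw [div_le_one hN]
    exact_mod_cast hM.le
  have hb0 : 0 ≤ (1 - dn n M) ^ S.card := pow_nonneg (sub_nonneg.2 hd1) _
  have hb1 : (1 - dn n M) ^ S.card ≤ 1 := pow_le_one₀ (sub_nonneg.2 hd1) (by linarith)
  have hc : n - S.card - F.card ≤ ((S ∪ F)ᶜ).card := by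
    rw [Finset.card_compl, Fintype.card_fin]
    have := Finset.card_union_le S F
    omega
  have h4 : (1 - (1 - dn n M) ^ S.card) ^ ((S ∪ F)ᶜ).card ≤ (1 - (1 - dn n M) ^ S.card) ^ (n - S.card - F.card) :=
    pow_le_pow_of_le_one (by linarith) (by linarith) hc
  have h5 : (0 : ℝ) ≤ (((n.choose 2 : ℕ) : ℝ) + 1) * ((n.choose 2).choose M : ℕ) := by positivity
  have h6 := h3.trans (mul_le_mul_of_nonneg_left h4 h5)
  have h7 : (((n.choose 2 : ℕ) : ℝ) + 1) * ((n.choose 2).choose M : ℕ) * (1 - (1 - dn n M) ^ S.card) ^ (n - S.card - F.card) =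
      (((n.choose 2 : ℕ) : ℝ) + 1) * (1 - (1 - dn n M) ^ S.card) ^ (n - S.card - F.card) * ((n.choose 2).choose M : ℕ) := by
    ring
  rw [h7] at h6
  refine le_trans (le_of_eq ?_) h6
  exact_mod_cast fr_fc _ _ fun s => Iff.rfl

end MCE
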