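import Pool.Agent.MCE.Defs
import Pool.Agent.MCE.FreeG

/-!
# MCE-FreeU: union bound for the free vertices

Union bound over the sets `S` and `F` with `free_graph`.
-/

open scoped Classical
open Finset

namespace MCE

private theorem fu_exists {n : ℕ} {m1 : ℕ} {fm : ℕ → ℝ} (hfn : ∀ j, fm j ≤ n)
    {G : SimpleGraph (Fin n)} (h : ¬ FreeOK G m1 fm) :
    ∃ S F : Finset (Fin n), S.card ≤ m1 ∧ F.card = ⌊fm S.card⌋₊ ∧
      ∀ v, v ∉ S → v ∉ F → ∃ u ∈ S, G.Adj u v := by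
  unfold FreeOK at h
  push Not at h
  obtain ⟨S, hS, h1⟩ := h
  have h2 : (free G S).card ≤ ⌊fm S.card⌋₊ := Nat.le_floor h1.le
  have h3 : ⌊fm S.card⌋₊ ≤ Fintype.card (Fin n) := by
    rw [Fintype.card_fin]
    exact Nat.floor_le_of_le (hfn _)
  obtain ⟨F, hF, hFc⟩ := Finset.exists_superset_card_eq h2 h3
  refine ⟨S, F, hS, hFc, fun v hv hvF => ?_⟩
  by_contra h4
  push Not at h4
  exact hvF (hF (Finset.mem_filter.2 ⟨Finset.mem_univ _, hv, h4⟩))

theorem free_union {n : ℕ} (M : ℕ) (hM : M < n.choose 2) (m1 : ℕ) (fm : ℕ → ℝ)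
    (hfm : ∀ j, 0 ≤ fm j) (hfn : ∀ j, fm j ≤ n) :
    (((Gs n M).filter (fun G => ¬ FreeOK G m1 fm)).card : ℝ) ≤
      (∑ j ∈ range (m1 + 1), (n.choose j : ℝ) * (n.choose ⌊fm j⌋₊ : ℝ) *
        (((n.choose 2 : ℕ) + 1) * (1 - (1 - dn n M) ^ j) ^ (n - j - ⌊fm j⌋₊))) *
        (Gs n M).card := by
  have _ := hfm
  set E : Finset (Fin n) → Finset (Fin n) → Finset (SimpleGraph (Fin n)) := fun S F =>
    (Gs n M).filter (fun G => ∀ v, v ∉ S → v ∉ F → ∃ u ∈ S, G.Adj u v) with hE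
  have h1 : (Gs n M).filter (fun G => ¬ FreeOK G m1 fm) ⊆
      (range (m1 + 1)).biUnion fun j => (powersetCard j (univ : Finset (Fin n))).biUnion fun S =>
        (powersetCard ⌊fm j⌋₊ (univ : Finset (Fin n))).biUnion fun F => E S F := by
    intro G hG
    obtain ⟨hG1, hG2⟩ := Finset.mem_filter.1 hG
    obtain ⟨S, F, hS, hF, h2⟩ := fu_exists hfn hG2
    rw [Finset.mem_biUnion]
    refine ⟨S.card, Finset.mem_range.2 (by omega), ?_⟩
    rw [Finset.mem_biUnion]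
    refine ⟨S, Finset.mem_powersetCard.2 ⟨Finset.subset_univ _, rfl⟩, ?_⟩
    rw [Finset.mem_biUnion]
    exact ⟨F, Finset.mem_powersetCard.2 ⟨Finset.subset_univ _, hF⟩, Finset.mem_filter.2 ⟨hG1, h2⟩⟩
  have h2 : (((Gs n M).filter (fun G => ¬ FreeOK G m1 fm)).card : ℝ) ≤
      ∑ j ∈ range (m1 + 1), ∑ S ∈ powersetCard j (univ : Finset (Fin n)),
        ∑ F ∈ powersetCard ⌊fm j⌋₊ (univ : Finset (Fin n)), ((E S F).card : ℝ) := by
    have h3 : ((Gs n M).filter (fun G => ¬ FreeOK G m1 fm)).card ≤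
        ∑ j ∈ range (m1 + 1), ∑ S ∈ powersetCard j (univ : Finset (Fin n)),
          ∑ F ∈ powersetCard ⌊fm j⌋₊ (univ : Finset (Fin n)), (E S F).card := by
      refine (Finset.card_le_card h1).trans (Finset.card_biUnion_le.trans ?_)
      refine Finset.sum_le_sum fun j _ => Finset.card_biUnion_le.trans ?_
      exact Finset.sum_le_sum fun S _ => Finset.card_biUnion_le
    exact_mod_cast h3
  refine h2.trans ?_
  rw [Finset.sum_mul]
  refine Finset.sum_le_sum fun j _ => ?_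
  have h4 : ∀ S ∈ powersetCard j (univ : Finset (Fin n)),
      ∀ F ∈ powersetCard ⌊fm j⌋₊ (univ : Finset (Fin n)), ((E S F).card : ℝ) ≤
        ((n.choose 2 : ℕ) + 1) * (1 - (1 - dn n M) ^ j) ^ (n - j - ⌊fm j⌋₊) * (Gs n M).card := by
    intro S hS F hF
    have h5 := free_graph M hM S F
    rw [(Finset.mem_powersetCard.1 hS).2, (Finset.mem_powersetCard.1 hF).2] at h5
    exact h5
  refine (Finset.sum_le_sum fun S hS => Finset.sum_le_sum fun F hF => h4 S hS F hF).trans ?_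
  rw [Finset.sum_const, Finset.sum_const, Finset.card_powersetCard, Finset.card_powersetCard,
    Finset.card_univ, Fintype.card_fin, nsmul_eq_mul, nsmul_eq_mul]
  apply le_of_eq
  ring

end MCE
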