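import Pool.Agent.MCE.Defs

/-!
# MCE-Mom: the first moment of the fresh steps

Proof. Induction on `i`; the sums over the graph and over the next set are exchanged.
-/

open scoped Classical
open Finset

namespace MCE

private theorem mo_V {n : ℕ} (G : SimpleGraph (Fin n)) (m2 q : ℕ) (g : Finset (Fin n) → ℝ) (hg : ∀ U, 0 ≤ g U)
    (i : ℕ) : ∀ U, 0 ≤ V G m2 q g i U := by
  induction i with
  | zero => exact hg
  | succ i ih => exact fun U => Finset.sum_nonneg fun T _ => ih _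

private theorem mo_cnt {n : ℕ} (m2 q ub : ℕ) (U : Finset (Fin n)) (hU : U.card ≤ ub) :
    ((univ.filter (fun T : Finset (Fin n) => m2 ≤ T.card ∧ (T \ U).card = q)).card : ℝ) ≤ (n.choose q : ℝ) * 2 ^ ub := by
  have h1 : (univ.filter (fun T : Finset (Fin n) => m2 ≤ T.card ∧ (T \ U).card = q)).card ≤
      ((univ : Finset (Fin n)).powersetCard q ×ˢ U.powerset).card := by
    refine Finset.card_le_card_of_injOn (fun T => (T \ U, T ∩ U)) ?_ ?_
    · intro T hT
      have hT' := (Finset.mem_filter.1 (Finset.mem_coe.1 hT)).2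
      refine Finset.mem_coe.2 (Finset.mem_product.2 ⟨Finset.mem_powersetCard.2 ⟨Finset.subset_univ _, hT'.2⟩,
        Finset.mem_powerset.2 Finset.inter_subset_right⟩)
    · intro T _ T' _ h
      have h2 : T \ U = T' \ U := congrArg Prod.fst h
      have h3 : T ∩ U = T' ∩ U := congrArg Prod.snd h
      rw [← Finset.sdiff_union_inter T U, ← Finset.sdiff_union_inter T' U, h2, h3]
  rw [Finset.card_product, Finset.card_powersetCard, Finset.card_powerset, Finset.card_univ, Fintype.card_fin] at h1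
  have h2 : (2 : ℕ) ^ U.card ≤ 2 ^ ub := Nat.pow_le_pow_right (by norm_num) hU
  exact_mod_cast h1.trans (Nat.mul_le_mul_left _ h2)

/-- the new pairs -/
private noncomputable def mo_new {n : ℕ} (U T : Finset (Fin n)) : Finset (Sym2 (Fin n)) :=
  ((T \ U) ×ˢ (T ∩ U)).image (fun p => s(p.1, p.2))

private theorem mo_mem {n : ℕ} {U T : Finset (Fin n)} {e : Sym2 (Fin n)} (he : e ∈ mo_new U T) :
    ∃ a b, a ∈ T ∧ a ∉ U ∧ b ∈ T ∧ b ∈ U ∧ e = s(a, b) := by
  obtain ⟨⟨a, b⟩, hp, rfl⟩ := Finset.mem_image.1 he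
  obtain ⟨h1, h2⟩ := Finset.mem_product.1 hp
  obtain ⟨h3, h4⟩ := Finset.mem_sdiff.1 h1
  obtain ⟨h5, h6⟩ := Finset.mem_inter.1 h2
  exact ⟨a, b, h3, h4, h5, h6, rfl⟩

private theorem mo_card {n : ℕ} (U T : Finset (Fin n)) : (mo_new U T).card = (T \ U).card * (T ∩ U).card := by
  unfold mo_new
  rw [Finset.card_image_of_injOn, Finset.card_product]
  rintro ⟨a, b⟩ hp ⟨c, d⟩ hp' h
  obtain ⟨h1, h2⟩ := Finset.mem_product.1 (Finset.mem_coe.1 hp)
  obtain ⟨h1', h2'⟩ := Finset.mem_product.1 (Finset.mem_coe.1 hp')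
  have h3 : s(a, b) = s(c, d) := h
  rcases Sym2.eq_iff.1 h3 with ⟨h4, h5⟩ | ⟨h4, h5⟩
  · rw [h4, h5]
  · exfalso
    have h6 : a ∉ U := (Finset.mem_sdiff.1 h1).2
    have h7 : d ∈ U := (Finset.mem_inter.1 h2').2
    rw [h4] at h6
    exact h6 h7

/-- the contribution of one set `T` -/
private theorem mo_one {n : ℕ} (M m2 q ub : ℕ) {K : ℝ} (hK : 0 ≤ K)
    (v : SimpleGraph (Fin n) → Finset (Fin n) → ℝ) (hv : ∀ G U, 0 ≤ v G U) (i : ℕ)
    (ih : ∀ (U : Finset (Fin n)) (Q : Finset (Sym2 (Fin n))), U.card + i * q ≤ ub → Ins Q U →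
      ∑ G ∈ (Gs n M).filter (Av Q), v G U ≤ Real.exp (-(dn n M * Q.card)) * K)
    (U : Finset (Fin n)) (Q : Finset (Sym2 (Fin n))) (hU : U.card + (i + 1) * q ≤ ub) (hQ : Ins Q U)
    (T : Finset (Fin n)) (hT : m2 ≤ T.card) (hT' : (T \ U).card = q) :
    ∑ G ∈ (Gs n M).filter (Av Q), (if Stb G T then v G (U ∪ T) else 0) ≤
      Real.exp (-(dn n M * Q.card)) * Real.exp (-(dn n M * (q * (m2 - q)))) * K := by
  have h1 : ∑ G ∈ (Gs n M).filter (Av Q), (if Stb G T then v G (U ∪ T) else 0) ≤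
      ∑ G ∈ (Gs n M).filter (Av (Q ∪ mo_new U T)), v G (U ∪ T) := by
    rw [← Finset.sum_filter]
    refine Finset.sum_le_sum_of_subset_of_nonneg ?_ fun G _ _ => hv G _
    intro G hG
    obtain ⟨h2, hS⟩ := Finset.mem_filter.1 hG
    obtain ⟨h3, h4⟩ := Finset.mem_filter.1 h2
    refine Finset.mem_filter.2 ⟨h3, fun e he => ?_⟩
    rcases Finset.mem_union.1 he with he | he
    · exact h4 e he
    · obtain ⟨a, b, ha, _, hb, _, rfl⟩ := mo_mem he
      rw [SimpleGraph.mem_edgeSet]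
      exact hS a ha b hb
  have hins : Ins (Q ∪ mo_new U T) (U ∪ T) := by
    intro e he
    rcases Finset.mem_union.1 he with he | he
    · exact ⟨(hQ e he).1, fun x hx => Finset.mem_union_left _ ((hQ e he).2 x hx)⟩
    · obtain ⟨a, b, ha, ha', hb, hb', rfl⟩ := mo_mem he
      refine ⟨?_, fun x hx => Finset.mem_union_right _ ?_⟩
      · rw [Sym2.mk_isDiag_iff]
        rintro rfl
        exact ha' hb'
      · rcases Sym2.mem_iff.1 hx with rfl | rfl
        · exact ha
        · exact hb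
  have hcU : (U ∪ T).card = U.card + q := by
    rw [← hT', add_comm, Finset.card_sdiff_add_card, Finset.union_comm]
  have h2 := ih (U ∪ T) (Q ∪ mo_new U T) (by
    rw [hcU]
    have h3 : (i + 1) * q = i * q + q := by ring
    omega) hins
  refine h1.trans (h2.trans ?_)
  rw [← Real.exp_add]
  refine mul_le_mul_of_nonneg_right (Real.exp_le_exp.2 ?_) hK
  have hdis : Disjoint Q (mo_new U T) := by
    rw [Finset.disjoint_left]
    intro e he he'
    obtain ⟨a, b, _, ha', _, _, rfl⟩ := mo_mem he'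
    exact ha' ((hQ _ he).2 a (Sym2.mem_mk_left a b))
  have hcT : (T ∩ U).card + q = T.card := by
    rw [← hT']
    exact Finset.card_inter_add_card_sdiff T U
  have hc : ((Q ∪ mo_new U T).card : ℝ) = Q.card + q * (T ∩ U).card := by
    rw [Finset.card_union_of_disjoint hdis, mo_card, hT']
    push_cast
    ring
  have h3 : (m2 : ℝ) - q ≤ (T ∩ U).card := by
    have h4 : m2 ≤ (T ∩ U).card + q := by omega
    have h5 : (m2 : ℝ) ≤ (T ∩ U).card + q := by exact_mod_cast h4
    linarith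
  have hdn : 0 ≤ dn n M := div_nonneg (Nat.cast_nonneg _) (Nat.cast_nonneg _)
  rw [hc]
  have h4 : (q : ℝ) * (m2 - q) ≤ q * (T ∩ U).card := mul_le_mul_of_nonneg_left h3 (Nat.cast_nonneg _)
  have h5 := mul_le_mul_of_nonneg_left h4 hdn
  rw [mul_add]
  linarith

theorem moment {n : ℕ} (M m2 q ub : ℕ) (hq : q ≤ m2) {γ : ℝ} (hγ : 0 ≤ γ)
    (g : SimpleGraph (Fin n) → Finset (Fin n) → ℝ) (hg : ∀ G U, 0 ≤ g G U)
    (hbase : ∀ (U : Finset (Fin n)) (Q : Finset (Sym2 (Fin n))), U.card ≤ ub → Ins Q U →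
      ∑ G ∈ (Gs n M).filter (Av Q), g G U ≤
        Real.exp (-(dn n M * Q.card)) * γ * (Gs n M).card) (i : ℕ) (U : Finset (Fin n))
    (Q : Finset (Sym2 (Fin n))) (hU : U.card + i * q ≤ ub) (hQ : Ins Q U) :
    ∑ G ∈ (Gs n M).filter (Av Q), V G m2 q (g G) i U ≤
      Real.exp (-(dn n M * Q.card)) * (rho n M m2 q ub ^ i * γ) * (Gs n M).card := by
  induction i generalizing U Q with
  | zero =>
    have h1 := hbase U Q (by omega) hQ
    rw [pow_zero, one_mul]
    exact h1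
  | succ i ih =>
    have hrho : 0 ≤ rho n M m2 q ub := by
      unfold rho
      positivity
    have hK : 0 ≤ rho n M m2 q ub ^ i * γ * ((Gs n M).card : ℝ) :=
      mul_nonneg (mul_nonneg (pow_nonneg hrho _) hγ) (Nat.cast_nonneg _)
    have ih' : ∀ (U : Finset (Fin n)) (Q : Finset (Sym2 (Fin n))), U.card + i * q ≤ ub → Ins Q U →
        ∑ G ∈ (Gs n M).filter (Av Q), V G m2 q (g G) i U ≤
          Real.exp (-(dn n M * Q.card)) * (rho n M m2 q ub ^ i * γ * ((Gs n M).card : ℝ)) := by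
      intro U Q h1 h2
      rw [← mul_assoc]
      exact ih U Q h1 h2
    have h1 : ∑ G ∈ (Gs n M).filter (Av Q), V G m2 q (g G) (i + 1) U =
        ∑ T ∈ univ.filter (fun T : Finset (Fin n) => m2 ≤ T.card ∧ (T \ U).card = q),
          ∑ G ∈ (Gs n M).filter (Av Q), (if Stb G T then V G m2 q (g G) i (U ∪ T) else 0) := by
      rw [Finset.sum_comm]
      refine Finset.sum_congr rfl fun G _ => ?_
      rw [← Finset.sum_filter, Finset.filter_filter]
      show ∑ T ∈ univ.filter (fun T => Stb G T ∧ m2 ≤ T.card ∧ (T \ U).card = q), V G m2 q (g G) i (U ∪ T) = _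
      refine Finset.sum_congr (Finset.filter_congr fun T _ => ?_) fun T _ => rfl
      constructor
      · rintro ⟨h1, h2, h3⟩
        exact ⟨⟨h2, h3⟩, h1⟩
      · rintro ⟨⟨h2, h3⟩, h1⟩
        exact ⟨h1, h2, h3⟩
    rw [h1]
    have h2 : ∀ T ∈ univ.filter (fun T : Finset (Fin n) => m2 ≤ T.card ∧ (T \ U).card = q),
        ∑ G ∈ (Gs n M).filter (Av Q), (if Stb G T then V G m2 q (g G) i (U ∪ T) else 0) ≤
        Real.exp (-(dn n M * Q.card)) * Real.exp (-(dn n M * (q * (m2 - q)))) *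
          (rho n M m2 q ub ^ i * γ * ((Gs n M).card : ℝ)) := by
      intro T hT
      obtain ⟨h3, h4⟩ := (Finset.mem_filter.1 hT).2
      exact mo_one M m2 q ub hK (fun G U => V G m2 q (g G) i U) (fun G U => mo_V G m2 q (g G) (hg G) i U) i
        ih' U Q hU hQ T h3 h4
    refine (Finset.sum_le_sum h2).trans ?_
    rw [Finset.sum_const, nsmul_eq_mul]
    have h3 := mo_cnt m2 q ub U (le_trans (Nat.le_add_right _ _) hU)
    have h4 : 0 ≤ Real.exp (-(dn n M * Q.card)) * Real.exp (-(dn n M * (q * (m2 - q)))) *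
          (rho n M m2 q ub ^ i * γ * ((Gs n M).card : ℝ)) := mul_nonneg (by positivity) hK
    refine (mul_le_mul_of_nonneg_right h3 h4).trans (le_of_eq ?_)
    rw [pow_succ]
    unfold rho
    ring

end MCE
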