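import Pool.Agent.MCE.Defs
import Pool.Agent.MCE.Mom

/-!
# MCE-Start: the first moment of all sequences

Plan. `start_sum`: exchange the sums: `∑ Z with |Z| = mx, ∑ G ∈ Gs with Stb G Z, V i Z`.  For fixed `Z` let `Q` be the set of the pairs of different vertices of `Z`:
`Q = (Z.offDiag).image (fun p => s(p.1, p.2))` or `Z.sym2.filter (fun e => ¬ e.IsDiag)`, `|Q| = C(mx, 2)` (`Finset.card_image_offDiag`, `Sym2.card_image_offDiag`).  If `Stb G Z` then `Av Q
G`, and `Ins Q Z`.  `moment` gives the bound `exp (- dn C(mx,2)) ρ^i γ #Gs` for the sum over `G` (`Z.card + i * q ≤ ub`), and there are `C(n, mx)` sets `Z`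
(`Finset.card_powersetCard`).
-/

open scoped Classical
open Finset

namespace MCE

private theorem st_V {n : ℕ} (G : SimpleGraph (Fin n)) (m2 q : ℕ) (g : Finset (Fin n) → ℝ) (hg : ∀ U, 0 ≤ g U)
    (i : ℕ) : ∀ U, 0 ≤ V G m2 q g i U := by
  induction i with
  | zero => exact hg
  | succ i ih => exact fun U => Finset.sum_nonneg fun T _ => ih _

theorem start_sum {n : ℕ} (M m2 q ub mx : ℕ) (hq : q ≤ m2) {γ : ℝ} (hγ : 0 ≤ γ)
    (g : SimpleGraph (Fin n) → Finset (Fin n) → ℝ) (hg : ∀ G U, 0 ≤ g G U)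
    (hbase : ∀ (U : Finset (Fin n)) (Q : Finset (Sym2 (Fin n))), U.card ≤ ub → Ins Q U →
      ∑ G ∈ (Gs n M).filter (Av Q), g G U ≤
        Real.exp (-(dn n M * Q.card)) * γ * (Gs n M).card) (i : ℕ) (hi : mx + i * q ≤ ub) :
    ∑ G ∈ Gs n M, ∑ Z ∈ univ.filter (fun Z : Finset (Fin n) => Stb G Z ∧ Z.card = mx),
        V G m2 q (g G) i Z ≤
      zet n M mx * (rho n M m2 q ub ^ i * γ) * (Gs n M).card := by
  have h1 : ∑ G ∈ Gs n M, ∑ Z ∈ univ.filter (fun Z : Finset (Fin n) => Stb G Z ∧ Z.card = mx), V G m2 q (g G) i Z =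
      ∑ Z ∈ (univ : Finset (Fin n)).powersetCard mx, ∑ G ∈ (Gs n M).filter (fun G => Stb G Z), V G m2 q (g G) i Z := by
    have h2 : ∀ G ∈ Gs n M, ∑ Z ∈ univ.filter (fun Z : Finset (Fin n) => Stb G Z ∧ Z.card = mx), V G m2 q (g G) i Z =
        ∑ Z ∈ (univ : Finset (Fin n)).powersetCard mx, if Stb G Z then V G m2 q (g G) i Z else 0 := by
      intro G _
      rw [← Finset.sum_filter]
      refine Finset.sum_congr ?_ fun Z _ => rfl
      ext Z
      rw [Finset.mem_filter, Finset.mem_filter, Finset.mem_powersetCard]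
      constructor
      · rintro ⟨_, h3, h4⟩
        exact ⟨⟨Finset.subset_univ _, h4⟩, h3⟩
      · rintro ⟨⟨_, h4⟩, h3⟩
        exact ⟨Finset.mem_univ _, h3, h4⟩
    rw [Finset.sum_congr rfl h2, Finset.sum_comm]
    exact Finset.sum_congr rfl fun Z _ => (Finset.sum_filter _ _).symm
  rw [h1]
  have h2 : ∀ Z ∈ (univ : Finset (Fin n)).powersetCard mx,
      ∑ G ∈ (Gs n M).filter (fun G => Stb G Z), V G m2 q (g G) i Z ≤
        Real.exp (-(dn n M * (mx.choose 2 : ℕ))) * (rho n M m2 q ub ^ i * γ) * (Gs n M).card := by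
    intro Z hZ
    have hZc : Z.card = mx := (Finset.mem_powersetCard.1 hZ).2
    obtain ⟨Q, hQ⟩ : ∃ Q : Finset (Sym2 (Fin n)), Q = Z.offDiag.image Sym2.mk.uncurry := ⟨_, rfl⟩
    have hQc : Q.card = mx.choose 2 := by
      rw [hQ, ← hZc]
      convert Sym2.card_image_offDiag Z
    have hmem : ∀ e ∈ Q, ∃ a b, a ∈ Z ∧ b ∈ Z ∧ a ≠ b ∧ e = s(a, b) := by
      intro e he
      rw [hQ] at he
      obtain ⟨⟨a, b⟩, hp, rfl⟩ := Finset.mem_image.1 he
      obtain ⟨h3, h4, h5⟩ := Finset.mem_offDiag.1 hp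
      exact ⟨a, b, h3, h4, h5, rfl⟩
    have hins : Ins Q Z := by
      intro e he
      obtain ⟨a, b, ha, hb, hab, rfl⟩ := hmem e he
      refine ⟨fun h => hab (Sym2.mk_isDiag_iff.1 h), fun x hx => ?_⟩
      rcases Sym2.mem_iff.1 hx with rfl | rfl
      · exact ha
      · exact hb
    have h3 := moment M m2 q ub hq hγ g hg hbase i Z Q (by omega) hins
    rw [hQc] at h3
    refine le_trans ?_ h3
    refine Finset.sum_le_sum_of_subset_of_nonneg ?_ fun G _ _ => st_V G m2 q (g G) (hg G) i Z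
    intro G hG
    obtain ⟨h4, h5⟩ := Finset.mem_filter.1 hG
    refine Finset.mem_filter.2 ⟨h4, fun e he => ?_⟩
    obtain ⟨a, b, ha, hb, _, rfl⟩ := hmem e he
    rw [SimpleGraph.mem_edgeSet]
    exact h5 a ha b hb
  refine (Finset.sum_le_sum h2).trans (le_of_eq ?_)
  rw [Finset.sum_const, Finset.card_powersetCard, Finset.card_univ, Fintype.card_fin, nsmul_eq_mul]
  unfold zet
  ring

end MCE
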