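import Pool.Agent.MCE.Defs
import Pool.Agent.MCE.CntV
import Pool.Agent.MCE.Base
import Pool.Agent.MCE.Start

/-!
# MCE-GateFin: few graphs have many gates

Markov's inequality with `gates_le` and `start_sum`.
-/

open scoped Classical
open Finset

namespace MCE

private theorem gf_V_nonneg {n : ℕ} (G : SimpleGraph (Fin n)) (m2 q : ℕ)
    {g : Finset (Fin n) → ℝ} (hg : ∀ U, 0 ≤ g U) (i : ℕ) : ∀ U, 0 ≤ V G m2 q g i U := by
  induction i with
  | zero => exact hg
  | succ i ih =>
    intro U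
    unfold V
    exact Finset.sum_nonneg fun T _ => ih _

private theorem gf_last_nonneg {n : ℕ} (G : SimpleGraph (Fin n)) (m2 q : ℕ) (U : Finset (Fin n)) :
    0 ≤ lastY G m2 q U := Nat.cast_nonneg _

theorem gate_fin {n : ℕ} (M m2 q mx m0 ub : ℕ) (hq0 : 0 < q) (hq : q ≤ m2)
    (hub : mx + m0 * q ≤ ub) {A : ℝ} (hA : 0 < A) :
    (((Gs n M).filter (fun G => A < (gates G m2 mx).card)).card : ℝ) ≤
      zet n M mx * (rho n M m2 q ub ^ m0 +
        (∑ i ∈ range m0, rho n M m2 q ub ^ i) * gam n M m2 q ub / A) * (Gs n M).card := by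
  set X : SimpleGraph (Fin n) → ℝ := fun G =>
    ∑ Z ∈ univ.filter (fun Z : Finset (Fin n) => Stb G Z ∧ Z.card = mx),
      V G m2 q (fun _ => 1) m0 Z with hX
  set Y : SimpleGraph (Fin n) → ℝ := fun G => ∑ i ∈ range m0,
    ∑ Z ∈ univ.filter (fun Z : Finset (Fin n) => Stb G Z ∧ Z.card = mx),
      V G m2 q (lastY G m2 q) i Z with hY
  have hX0 : ∀ G, 0 ≤ X G := fun G => Finset.sum_nonneg fun Z _ =>
    gf_V_nonneg G m2 q (fun _ => zero_le_one) m0 Z
  have hY0 : ∀ G, 0 ≤ Y G := fun G => Finset.sum_nonneg fun i _ => Finset.sum_nonneg fun Z _ =>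
    gf_V_nonneg G m2 q (gf_last_nonneg G m2 q) i Z
  have h1 : ∀ G, (if A < ((gates G m2 mx).card : ℝ) then (1 : ℝ) else 0) ≤ X G + Y G / A := by
    intro G
    split_ifs with h
    · by_cases h2 : X G < 1
      · have h3 := gates_le G (m2 := m2) (mx := mx) hq0 m0 h2
        have h4 : A < Y G := h.trans_le h3
        have h5 : 1 ≤ Y G / A := by
          rw [le_div_iff₀ hA, one_mul]
          exact h4.le
        linarith [hX0 G]
      · have h3 : 0 ≤ Y G / A := div_nonneg (hY0 G) hA.le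
        linarith
    · exact add_nonneg (hX0 G) (div_nonneg (hY0 G) hA.le)
  have h2 : (((Gs n M).filter (fun G => A < (gates G m2 mx).card)).card : ℝ) =
      ∑ G ∈ Gs n M, if A < ((gates G m2 mx).card : ℝ) then (1 : ℝ) else 0 := by
    rw [← Finset.sum_filter, Finset.sum_const, nsmul_eq_mul, mul_one]
  have hgam : 0 ≤ gam n M m2 q ub := Finset.sum_nonneg fun b _ => by positivity
  have hsX : ∑ G ∈ Gs n M, X G ≤ zet n M mx * (rho n M m2 q ub ^ m0 * 1) * (Gs n M).card :=
    start_sum M m2 q ub mx hq zero_le_one (fun _ _ => 1) (fun _ _ => zero_le_one)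
      (fun U Q hU hQ => base_one M ub U Q hU hQ) m0 hub
  have hsY : ∑ G ∈ Gs n M, Y G ≤
      ∑ i ∈ range m0, zet n M mx * (rho n M m2 q ub ^ i * gam n M m2 q ub) * (Gs n M).card := by
    rw [hY, Finset.sum_comm]
    refine Finset.sum_le_sum fun i hi => ?_
    have hi' : mx + i * q ≤ ub := by
      have h3 : i * q ≤ m0 * q := Nat.mul_le_mul_right q (Finset.mem_range.1 hi).le
      omega
    exact start_sum M m2 q ub mx hq hgam (fun G => lastY G m2 q) (fun G U => gf_last_nonneg G m2 q U)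
      (fun U Q hU hQ => base_last M m2 q ub hq U Q hU hQ) i hi'
  rw [h2]
  calc ∑ G ∈ Gs n M, (if A < ((gates G m2 mx).card : ℝ) then (1 : ℝ) else 0)
      ≤ ∑ G ∈ Gs n M, (X G + Y G / A) := Finset.sum_le_sum fun G _ => h1 G
    _ = ∑ G ∈ Gs n M, X G + (∑ G ∈ Gs n M, Y G) / A := by
        rw [Finset.sum_add_distrib, Finset.sum_div]
    _ ≤ zet n M mx * (rho n M m2 q ub ^ m0 * 1) * (Gs n M).card +
        (∑ i ∈ range m0, zet n M mx * (rho n M m2 q ub ^ i * gam n M m2 q ub) *
          (Gs n M).card) / A := add_le_add hsX (div_le_div_of_nonneg_right hsY hA.le)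
    _ = zet n M mx * (rho n M m2 q ub ^ m0 +
        (∑ i ∈ range m0, rho n M m2 q ub ^ i) * gam n M m2 q ub / A) * (Gs n M).card := by
        have h3 : ∑ i ∈ range m0, zet n M mx * (rho n M m2 q ub ^ i * gam n M m2 q ub) *
            ((Gs n M).card : ℝ) =
            zet n M mx * ((∑ i ∈ range m0, rho n M m2 q ub ^ i) * gam n M m2 q ub) *
              (Gs n M).card := by
          rw [Finset.sum_mul, Finset.mul_sum, Finset.sum_mul]
        rw [h3]
        ring

end MCE
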