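import Pool.Agent.MCE.Defs

/-!
# MCE-NumA: lower bound for the number of free vertices, numerically
-/

open scoped Classical
open Finset

namespace MCE

private theorem na_exp {δ K L : ℝ} (hδ : 0 < δ) (hL1 : 1 ≤ L) (hL : 3840 * K / δ ^ 2 ≤ L) :
    480 * K * L ≤ Real.exp (δ * L / 2) := by
  have h1 : 0 ≤ δ * L / 2 := by positivity
  have h2 := Real.quadratic_le_exp_of_nonneg h1
  rw [div_le_iff₀ (by positivity)] at hL
  have h3 : 3840 * K * L ≤ L * δ ^ 2 * L := mul_le_mul_of_nonneg_right hL (by linarith)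
  nlinarith

theorem num_a {ε δ K : ℝ} (hε : 0 < ε) (hδ : 0 < δ) (hδ1 : δ ≤ 1 / 16) (hK : 1 ≤ K) :
    ∀ᶠ k : ℕ in Filter.atTop, ∀ᶠ n : ℕ in Filter.atTop,
      (∀ j, 0 < fm ε k n j) ∧ (∀ j, fm ε k n j ≤ n) ∧
      (∀ j, j ≤ pm1 ε δ k n → 16 * K * j ≤ fm ε k n j) ∧
      ∏ i ∈ Ioc (pj0 ε δ k n) (pm1 ε δ k n), (4 * K * i / fm ε k n i) ≤
        Real.exp (-(δ ^ 2 / 4 * NN ε k n)) := by
  have hlog : Filter.Tendsto (fun k : ℕ => Real.log (k : ℝ)) Filter.atTop Filter.atTop :=
    Real.tendsto_log_atTop.comp tendsto_natCast_atTop_atTop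
  filter_upwards [hlog.eventually_ge_atTop 1, hlog.eventually_ge_atTop (3840 * K / δ ^ 2),
    Filter.eventually_ge_atTop 1] with k hL1 hL2 hk
  have hx : 0 < (1 + 2 * ε) * (k : ℝ) := by
    have : (1 : ℝ) ≤ k := by exact_mod_cast hk
    positivity
  have hk0 : (0 : ℝ) < k := by exact_mod_cast (by omega : 0 < k)
  filter_upwards [tendsto_natCast_atTop_atTop.eventually_ge_atTop (2 / δ * ((1 + 2 * ε) * (k : ℝ))),
    Filter.eventually_ge_atTop 1] with n hn hn1
  have hexp := na_exp hδ hL1 hL2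
  have hn0 : (0 : ℝ) < n := by exact_mod_cast (by omega : 0 < n)
  obtain ⟨s, hs⟩ : ∃ s : ℝ, s = ss ε k n := ⟨_, rfl⟩
  obtain ⟨L, hL⟩ : ∃ L : ℝ, L = Real.log k := ⟨_, rfl⟩
  have hs' : s = n / ((1 + 2 * ε) * k) := hs
  have hs0 : 0 < s := by
    rw [hs']
    exact div_pos hn0 hx
  have hs2 : 2 ≤ δ * s := by
    have h1 : 2 / δ ≤ s := by
      rw [hs', le_div_iff₀ hx]
      exact hn
    rw [div_le_iff₀ hδ] at h1
    linarith
  rw [← hL] at hL1 hL2 hexp
  have hL0 : 0 < L := by linarith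
  have hfm : ∀ j, fm ε k n j = n * Real.exp (-(j / s * L)) / (30 * L) := by
    intro j
    unfold fm
    rw [← hs, ← hL]
  have hkL : Real.exp L = k := by
    rw [hL, Real.exp_log hk0]
  have hkey : ∀ j : ℕ, j ≤ pm1 ε δ k n → 16 * K * j * Real.exp (δ * L / 2) ≤ fm ε k n j := by
    intro j hj
    have h1 : (j : ℝ) ≤ (1 - δ) * s := by
      have h2 : (pm1 ε δ k n : ℝ) ≤ (1 - δ) * s := by
        unfold pm1
        rw [← hs]
        exact Nat.floor_le (mul_nonneg (by linarith) hs0.le)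
      have h3 : (j : ℝ) ≤ pm1 ε δ k n := by exact_mod_cast hj
      linarith
    have h4 : (j : ℝ) / s ≤ 1 - δ := by
      rw [div_le_iff₀ hs0]
      exact h1
    have h5 : Real.exp (-((1 - δ) * L)) ≤ Real.exp (-(j / s * L)) := by
      apply Real.exp_le_exp.mpr
      have := mul_le_mul_of_nonneg_right h4 hL0.le
      linarith
    have h6 : Real.exp (-((1 - δ) * L)) = Real.exp (δ * L / 2) * Real.exp (δ * L / 2) / k := by
      rw [← Real.exp_add, ← hkL, ← Real.exp_sub]
      congr 1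
      ring
    have h7 : (s : ℝ) * k ≤ n := by
      rw [hs', div_mul_eq_mul_div, div_le_iff₀ hx]
      have : (n : ℝ) * k * 1 ≤ n * k * (1 + 2 * ε) := by
        apply mul_le_mul_of_nonneg_left _ (by positivity)
        linarith
      linarith
    rw [hfm, le_div_iff₀ (by positivity)]
    have hE : 0 < Real.exp (δ * L / 2) := Real.exp_pos _
    calc 16 * K * j * Real.exp (δ * L / 2) * (30 * L) = (480 * K * L) * (j * Real.exp (δ * L / 2)) := by ring
      _ ≤ Real.exp (δ * L / 2) * (j * Real.exp (δ * L / 2)) :=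
          mul_le_mul_of_nonneg_right hexp (by positivity)
      _ ≤ Real.exp (δ * L / 2) * (s * Real.exp (δ * L / 2)) := by
          apply mul_le_mul_of_nonneg_left _ hE.le
          apply mul_le_mul_of_nonneg_right _ hE.le
          nlinarith
      _ = s * k * Real.exp (-((1 - δ) * L)) := by
          rw [h6]
          field_simp
      _ ≤ n * Real.exp (-((1 - δ) * L)) := mul_le_mul_of_nonneg_right h7 (Real.exp_pos _).le
      _ ≤ n * Real.exp (-(j / s * L)) := mul_le_mul_of_nonneg_left h5 hn0.le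
  have hpos : ∀ j, 0 < fm ε k n j := by
    intro j
    rw [hfm]
    positivity
  refine ⟨hpos, ?_, ?_, ?_⟩
  · intro j
    rw [hfm, div_le_iff₀ (by positivity)]
    have h1 : Real.exp (-(j / s * L)) ≤ 1 := by
      rw [Real.exp_le_one_iff]
      have : 0 ≤ (j : ℝ) / s * L := by positivity
      linarith
    have h2 : (1 : ℝ) ≤ 30 * L := by linarith
    exact mul_le_mul_of_nonneg_left (h1.trans h2) hn0.le
  · intro j hj
    refine le_trans ?_ (hkey j hj)
    have h1 : 1 ≤ Real.exp (δ * L / 2) := Real.one_le_exp (by positivity)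
    exact le_mul_of_one_le_right (by positivity) h1
  · have hfac : ∀ i ∈ Ioc (pj0 ε δ k n) (pm1 ε δ k n), 4 * K * (i : ℝ) / fm ε k n i ≤ Real.exp (-(δ * L / 2)) := by
      intro i hi
      obtain ⟨h1, h2⟩ := Finset.mem_Ioc.1 hi
      rw [div_le_iff₀ (hpos i), Real.exp_neg]
      have h3 := hkey i h2
      have hE : 0 < Real.exp (δ * L / 2) := Real.exp_pos _
      rw [inv_mul_eq_div, le_div_iff₀ hE]
      refine le_trans ?_ h3
      have : 0 ≤ K * (i : ℝ) * Real.exp (δ * L / 2) := by positivity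
      linarith
    have hprod : ∏ i ∈ Ioc (pj0 ε δ k n) (pm1 ε δ k n), (4 * K * i / fm ε k n i) ≤
        Real.exp (-(δ * L / 2)) ^ (Ioc (pj0 ε δ k n) (pm1 ε δ k n)).card := by
      rw [← Finset.prod_const]
      refine Finset.prod_le_prod ?_ hfac
      intro i _
      have := hpos i
      positivity
    refine hprod.trans ?_
    rw [Nat.card_Ioc, ← Real.exp_nat_mul]
    apply Real.exp_le_exp.mpr
    have h1 : (pj0 ε δ k n : ℝ) ≤ (1 - 2 * δ) * s := by
      unfold pj0
      rw [← hs]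
      exact Nat.floor_le (mul_nonneg (by linarith) hs0.le)
    have h2 : (1 - δ) * s < (pm1 ε δ k n : ℝ) + 1 := by
      unfold pm1
      rw [← hs]
      exact Nat.lt_floor_add_one _
    have h3 : pj0 ε δ k n ≤ pm1 ε δ k n := by
      unfold pj0 pm1
      rw [← hs]
      apply Nat.floor_le_floor
      nlinarith
    rw [Nat.cast_sub h3]
    have h4 : δ * s - 1 ≤ (pm1 ε δ k n : ℝ) - pj0 ε δ k n := by linarith
    have h5 : NN ε k n = s * L := by
      unfold NN
      rw [← hs, ← hL]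
    rw [h5]
    have h6 : δ * s / 2 ≤ (pm1 ε δ k n : ℝ) - pj0 ε δ k n := by linarith
    have h7 : δ * s / 2 * (δ * L / 2) ≤ ((pm1 ε δ k n : ℝ) - pj0 ε δ k n) * (δ * L / 2) :=
      mul_le_mul_of_nonneg_right h6 (by positivity)
    nlinarith

end MCE
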