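import Pool.Agent.MCE.Defs

/-!
# MCE-NumP: the edge density
-/

open scoped Classical
open Finset

namespace MCE

private theorem one_sub_ge {y : ℝ} (h0 : 0 ≤ y) (h : y ≤ 1 / 2) : Real.exp (-(y + y ^ 2)) ≤ 1 - y := by
  have h1 : 1 + (y + y ^ 2) + (y + y ^ 2) ^ 2 / 2 ≤ Real.exp (y + y ^ 2) :=
    Real.quadratic_le_exp_of_nonneg (by positivity)
  rw [Real.exp_neg]
  have h2 : 0 < 1 + (y + y ^ 2) + (y + y ^ 2) ^ 2 / 2 := by positivity
  refine (inv_anti₀ h2 h1).trans ?_
  rw [inv_le_iff_one_le_mul₀ h2]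
  have h3 : 0 ≤ 1 - y - y ^ 2 - y ^ 3 := by
    have e1 : y ^ 2 ≤ 1 / 4 := by nlinarith
    have e2 : y ^ 3 ≤ 1 / 8 := by
      have : y ^ 3 = y ^ 2 * y := by ring
      nlinarith [sq_nonneg y]
    linarith
  have h4 : (1 - y) * (1 + (y + y ^ 2) + (y + y ^ 2) ^ 2 / 2) - 1 =
      y ^ 2 * (1 - y - y ^ 2 - y ^ 3) / 2 := by ring
  have h5 : 0 ≤ y ^ 2 * (1 - y - y ^ 2 - y ^ 3) / 2 := by positivity
  linarith

theorem num_p {ε : ℝ} (hε : 0 < ε) {k : ℕ} (hk : 3 ≤ k) : ∀ᶠ n : ℕ in Filter.atTop,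
    Mk ε k n < n.choose 2 ∧ Real.log k / ss ε k n ≤ dn n (Mk ε k n) ∧
      dn n (Mk ε k n) ≤ 1 / 2 ∧
      ∀ j : ℕ, (j : ℝ) ≤ ss ε k n →
        Real.exp (-(j / ss ε k n * Real.log k) - 1) ≤ (1 - dn n (Mk ε k n)) ^ j := by
  have hk3 : (3 : ℝ) ≤ k := by exact_mod_cast hk
  have hL : 1 ≤ Real.log k := by
    rw [Real.le_log_iff_exp_le (by linarith)]
    have := Real.exp_one_lt_d9
    linarith
  set L := Real.log k with hLdef
  set C : ℝ := (1 + 2 * ε) * k * L with hC
  have hC3 : 3 ≤ C := by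
    have h1 : (1 : ℝ) ≤ 1 + 2 * ε := by linarith
    have h2 : (3 : ℝ) ≤ (1 + 2 * ε) * k := by nlinarith
    have h3 : (1 + 2 * ε) * k ≤ (1 + 2 * ε) * k * L := by
      have : 0 < (1 + 2 * ε) * k := by linarith
      nlinarith
    linarith
  obtain ⟨n0, hn0⟩ := exists_nat_ge (16 * C ^ 2 + 16 * L + 16)
  filter_upwards [Filter.eventually_ge_atTop n0] with n hn
  have hnR : 16 * C ^ 2 + 16 * L + 16 ≤ (n : ℝ) := hn0.trans (by exact_mod_cast hn)
  have hn16 : (16 : ℝ) ≤ n := by nlinarith [sq_nonneg C]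
  have hnC : 16 * C ≤ n := by nlinarith
  have hnn : (0 : ℝ) < n := by linarith
  have hn1 : (0 : ℝ) < n - 1 := by linarith
  have hch : ((n.choose 2 : ℕ) : ℝ) = n * (n - 1) / 2 := by rw [Nat.cast_choose_two]
  have hchp : (0 : ℝ) < ((n.choose 2 : ℕ) : ℝ) := by rw [hch]; positivity
  have hM1 : (Mk ε k n : ℝ) ≤ C * n / 2 := by
    unfold Mk
    refine (Nat.floor_le ?_).trans (le_of_eq ?_)
    · positivity
    · rw [hC]; ring
  have hM2 : C * n / 2 - 1 ≤ (Mk ε k n : ℝ) := by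
    unfold Mk
    have := Nat.lt_floor_add_one ((1 / 2 + ε) * k * Real.log k * n)
    have h2 : (1 / 2 + ε) * k * Real.log k * n = C * n / 2 := by rw [hC]; ring
    rw [h2] at this
    rw [h2]
    linarith
  have hs : ss ε k n = n / ((1 + 2 * ε) * k) := rfl
  have hx : 0 < (1 + 2 * ε) * k := by positivity
  have hspos : 0 < ss ε k n := by rw [hs]; positivity
  have hLs : L / ss ε k n = C / n := by
    rw [hs, hC]; field_simp
  have hdn : dn n (Mk ε k n) = 2 * Mk ε k n / (n * (n - 1)) := by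
    unfold dn; rw [hch]; field_simp
  have hd_up : dn n (Mk ε k n) ≤ C / (n - 1) := by
    rw [hdn, div_le_div_iff₀ (by positivity) hn1]
    nlinarith
  have hd_lo : C / n ≤ dn n (Mk ε k n) := by
    rw [hdn, div_le_div_iff₀ hnn (by positivity)]
    have : C * (n * (n - 1)) ≤ 2 * (C * n / 2 - 1) * n := by nlinarith
    nlinarith
  have hd0 : 0 ≤ dn n (Mk ε k n) := le_trans (by positivity) hd_lo
  have hhalf : C / (n - 1) ≤ 1 / 8 := by
    rw [div_le_div_iff₀ hn1 (by norm_num)]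
    linarith
  refine ⟨?_, ?_, by linarith, ?_⟩
  · have : (Mk ε k n : ℝ) < ((n.choose 2 : ℕ) : ℝ) := by
      rw [hch]
      nlinarith
    exact_mod_cast this
  · rw [hLs]; exact hd_lo
  · intro j hj
    set d := dn n (Mk ε k n) with hd
    have h1 : Real.exp (-(d + d ^ 2)) ≤ 1 - d := one_sub_ge hd0 (by linarith)
    have h2 : Real.exp (-(d + d ^ 2)) ^ j ≤ (1 - d) ^ j :=
      pow_le_pow_left₀ (Real.exp_nonneg _) h1 j
    refine le_trans ?_ h2
    rw [← Real.exp_nat_mul, Real.exp_le_exp]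
    have hj0 : (0 : ℝ) ≤ j := Nat.cast_nonneg j
    have hjL : (j : ℝ) / ss ε k n * L = j * (C / n) := by
      rw [← hLs]; ring
    rw [hjL]
    have hjn : (j : ℝ) * C ≤ n * L := by
      have : ss ε k n * C = n * L := by rw [hs, hC]; field_simp
      have h3 : (j : ℝ) * C ≤ ss ε k n * C := mul_le_mul_of_nonneg_right hj (by linarith)
      linarith
    -- first error
    have e1 : (j : ℝ) * (C / (n - 1)) ≤ j * (C / n) + 1 / 2 := by
      have h4 : (j : ℝ) * (C / (n - 1)) - j * (C / n) = (j * C) / (n * (n - 1)) := by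
        field_simp; ring
      have h5 : (j * C) / (n * (n - 1)) ≤ 1 / 2 := by
        rw [div_le_div_iff₀ (by positivity) (by norm_num)]
        have h21 : (n : ℝ) * L * 2 ≤ n * (n - 1) := by
          have h22 : 2 * L ≤ (n : ℝ) - 1 := by nlinarith [sq_nonneg C]
          have h23 : (n : ℝ) * (2 * L) ≤ n * (n - 1) := mul_le_mul_of_nonneg_left h22 hnn.le
          linarith
        linarith
      linarith
    have e2 : (j : ℝ) * d ^ 2 ≤ 1 / 2 := by
      have h6 : d ^ 2 ≤ (C / (n - 1)) ^ 2 := pow_le_pow_left₀ hd0 hd_up 2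
      have h7 : (j : ℝ) * (C / (n - 1)) ^ 2 ≤ 1 / 2 := by
        have h8 : (j : ℝ) * (C / (n - 1)) ^ 2 = (j * C) * C / (n - 1) ^ 2 := by
          field_simp
        rw [h8, div_le_div_iff₀ (by positivity) (by norm_num)]
        have hC0 : 0 ≤ C := by linarith
        have h9 : (j * C) * C ≤ n * L * C := mul_le_mul_of_nonneg_right hjn hC0
        have h10 : L ≤ C := by
          have h11 : (1 : ℝ) ≤ (1 + 2 * ε) * k := by nlinarith
          have h15 : 1 * L ≤ (1 + 2 * ε) * k * L :=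
            mul_le_mul_of_nonneg_right h11 (by linarith)
          rw [hC]; linarith
        have h12 : n * L * C ≤ n * C ^ 2 := by
          have h16 : L * C ≤ C * C := mul_le_mul_of_nonneg_right h10 hC0
          have h17 : (n : ℝ) * (L * C) ≤ n * (C * C) := mul_le_mul_of_nonneg_left h16 hnn.le
          calc (n : ℝ) * L * C = n * (L * C) := by ring
            _ ≤ n * (C * C) := h17
            _ = n * C ^ 2 := by ring
        have h13 : (n : ℝ) * C ^ 2 ≤ n * (n / 16) := by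
          have h18 : C ^ 2 ≤ n / 16 := by linarith
          exact mul_le_mul_of_nonneg_left h18 hnn.le
        have h14 : (n : ℝ) ^ 2 / 4 ≤ (n - 1) ^ 2 := by nlinarith [hn16]
        have h19 : (n : ℝ) * (n / 16) = n ^ 2 / 16 := by ring
        have h20 : (0 : ℝ) ≤ n ^ 2 := by positivity
        linarith
      exact (mul_le_mul_of_nonneg_left h6 hj0).trans h7
    have e3 : (j : ℝ) * d ≤ j * (C / (n - 1)) := mul_le_mul_of_nonneg_left hd_up hj0
    have e4 : (j : ℝ) * -(d + d ^ 2) = -(j * d) - j * d ^ 2 := by ring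
    rw [e4]
    linarith

end MCE
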