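import Pool.Agent.MCE.Defs
import Pool.Agent.MCE.Binom
import Pool.Agent.MCE.NumP

/-!
# MCE-NumF: the union bound for free vertices, numerically
-/

open scoped Classical
open Finset

namespace MCE

private theorem k_conditions (x δ : ℝ) (hx : 1 < x) (hδ : 0 < δ) : ∀ᶠ k : ℕ in Filter.atTop,
    3 ≤ k ∧ 1 ≤ Real.log k ∧ Real.log (30 * Real.log k) + 1 ≤ Real.log k ∧
      3 * Real.log k + Real.log x + 1 ≤ 1 / 10 * x * (k : ℝ) ^ δ := by
  have hlog : Filter.Tendsto (fun k : ℕ => Real.log (k : ℝ)) Filter.atTop Filter.atTop :=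
    Real.tendsto_log_atTop.comp tendsto_natCast_atTop_atTop
  have h1 : ∀ᶠ k : ℕ in Filter.atTop, 3 ≤ k := Filter.eventually_ge_atTop 3
  have h2 : ∀ᶠ k : ℕ in Filter.atTop, (100 : ℝ) ≤ Real.log (k : ℝ) :=
    hlog.eventually_ge_atTop 100
  have h3 : ∀ᶠ k : ℕ in Filter.atTop, Real.log x ≤ Real.log (k : ℝ) :=
    hlog.eventually_ge_atTop _
  have h4 : ∀ᶠ k : ℕ in Filter.atTop, ‖Real.log (k : ℝ)‖ ≤ 1 / 50 * ‖(k : ℝ) ^ δ‖ :=
    ((isLittleO_log_rpow_atTop hδ).comp_tendsto tendsto_natCast_atTop_atTop).def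
      (c := 1 / 50) (by norm_num)
  filter_upwards [h1, h2, h3, h4] with k a1 a2 a3 a4
  have hk0 : (0 : ℝ) ≤ k := Nat.cast_nonneg k
  have hp : 0 ≤ (k : ℝ) ^ δ := Real.rpow_nonneg hk0 _
  rw [Real.norm_of_nonneg (by linarith), Real.norm_of_nonneg hp] at a4
  refine ⟨a1, by linarith, ?_, ?_⟩
  · -- `log (30 L) + 1 ≤ L`
    obtain ⟨L, hL⟩ : ∃ L, L = Real.log (k : ℝ) := ⟨_, rfl⟩
    rw [← hL] at a2 ⊢
    have e1 : Real.log (30 * L) = Real.log 300 + Real.log (L / 10) := by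
      rw [← Real.log_mul (by norm_num) (by linarith)]
      congr 1
      ring
    have e2 : Real.log (L / 10) ≤ L / 10 - 1 := Real.log_le_sub_one_of_pos (by linarith)
    have e3 : Real.log 300 ≤ 6 := by
      rw [Real.log_le_iff_le_exp (by norm_num)]
      have h5 : (2.7 : ℝ) ^ 6 ≤ Real.exp 1 ^ 6 :=
        pow_le_pow_left₀ (by norm_num) (by have := Real.exp_one_gt_d9; linarith) 6
      have h6 : Real.exp 1 ^ 6 = Real.exp 6 := by
        rw [← Real.exp_nat_mul]
        norm_num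
      rw [← h6]
      refine le_trans ?_ h5
      norm_num
    linarith
  · have hx0 : 0 < x := by linarith
    have : (k : ℝ) ^ δ ≤ x * (k : ℝ) ^ δ := by nlinarith
    linarith

private theorem n_poly (c : ℝ) (hc : 0 < c) : ∀ᶠ n : ℕ in Filter.atTop,
    ((n : ℝ) + 1) * ((n : ℝ) ^ 2 + 1) ≤ Real.exp (c * n) := by
  have h1 : ∀ᶠ n : ℕ in Filter.atTop, 1 ≤ n := Filter.eventually_ge_atTop 1
  have h2 : ∀ᶠ n : ℕ in Filter.atTop, 96 / c ^ 4 ≤ (n : ℝ) :=
    tendsto_natCast_atTop_atTop.eventually_ge_atTop _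
  filter_upwards [h1, h2] with n a1 a2
  have hn : (1 : ℝ) ≤ n := by exact_mod_cast a1
  have hc4 : 0 < c ^ 4 := by positivity
  rw [div_le_iff₀ hc4] at a2
  have e1 := Real.pow_div_factorial_le_exp (c * n) (by positivity) 4
  have e2 : ((Nat.factorial 4 : ℕ) : ℝ) = 24 := by norm_num [Nat.factorial]
  rw [e2] at e1
  refine le_trans ?_ e1
  rw [le_div_iff₀ (by norm_num)]
  have e3 : ((n : ℝ) + 1) * ((n : ℝ) ^ 2 + 1) ≤ 4 * (n : ℝ) ^ 3 := by
    have : (n : ℝ) ^ 2 ≥ 1 := by nlinarith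
    nlinarith
  have e4 : (c * n) ^ 4 = (n * c ^ 4) * (n : ℝ) ^ 3 := by ring
  rw [e4]
  have hn3 : 0 < (n : ℝ) ^ 3 := by positivity
  nlinarith

theorem num_f {ε δ : ℝ} (hε : 0 < ε) (hδ : 0 < δ) (hδ1 : δ ≤ 1 / 16) :
    ∀ᶠ k : ℕ in Filter.atTop, ∀ᶠ n : ℕ in Filter.atTop,
      ∑ j ∈ range (pm1 ε δ k n + 1), (n.choose j : ℝ) * (n.choose ⌊fm ε k n j⌋₊ : ℝ) *
        (((n.choose 2 : ℕ) + 1) *
          (1 - (1 - dn n (Mk ε k n)) ^ j) ^ (n - j - ⌊fm ε k n j⌋₊)) ≤
        Real.exp (-NN ε k n) := by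
  obtain ⟨x, hx⟩ : ∃ x : ℝ, x = 1 + 2 * ε := ⟨_, rfl⟩
  have hx1 : 1 < x := by rw [hx]; linarith
  have hx0 : 0 < x := by linarith
  filter_upwards [k_conditions x δ hx1 hδ] with k hkc
  obtain ⟨hk3, hL1, hL30, hKd⟩ := hkc
  have hk3' : (3 : ℝ) ≤ k := by exact_mod_cast hk3
  have hk0 : (0 : ℝ) < k := by linarith
  obtain ⟨L, hL⟩ : ∃ L, L = Real.log (k : ℝ) := ⟨_, rfl⟩
  rw [← hL] at hL1 hL30 hKd
  have hc : 0 < L / (x * k) := by positivity
  filter_upwards [num_p hε hk3, n_poly (L / (x * k)) hc, Filter.eventually_ge_atTop 1]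
    with n hp hpoly hn1
  obtain ⟨-, -, hp12, hpj⟩ := hp
  have hn : (1 : ℝ) ≤ n := by exact_mod_cast hn1
  have hn0 : (0 : ℝ) < n := by linarith
  obtain ⟨s, hs⟩ : ∃ s, s = ss ε k n := ⟨_, rfl⟩
  have hsx : s = n / (x * k) := by rw [hs, ss, hx]
  have hs0 : 0 < s := by rw [hsx]; positivity
  have hxk : 3 ≤ x * k := by nlinarith
  have hs3 : s ≤ n / 3 := by
    rw [hsx]
    exact div_le_div_of_nonneg_left hn0.le (by norm_num) hxk
  have hns : (n : ℝ) = x * k * s := by
    rw [hsx]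
    field_simp
  have hlx : 0 ≤ Real.log x := Real.log_nonneg hx1.le
  have hNN : NN ε k n = s * L := by rw [NN, ← hs, ← hL]
  have hdn0 : 0 ≤ dn n (Mk ε k n) := by
    unfold dn
    positivity
  rw [hNN]
  -- the terms
  have hterm : ∀ j ∈ range (pm1 ε δ k n + 1), (n.choose j : ℝ) * (n.choose ⌊fm ε k n j⌋₊ : ℝ) *
        (((n.choose 2 : ℕ) + 1) *
          (1 - (1 - dn n (Mk ε k n)) ^ j) ^ (n - j - ⌊fm ε k n j⌋₊)) ≤
        ((n : ℝ) ^ 2 + 1) * Real.exp (-2 * (s * L)) := by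
    intro j hj
    have hj1 : (j : ℝ) ≤ (1 - δ) * s := by
      rw [mem_range, Nat.lt_succ_iff] at hj
      have h1 : (j : ℝ) ≤ (pm1 ε δ k n : ℝ) := by exact_mod_cast hj
      refine h1.trans ?_
      rw [pm1, ← hs]
      exact Nat.floor_le (by nlinarith)
    have hjs : (j : ℝ) ≤ s := by nlinarith
    have hj0 : (0 : ℝ) ≤ j := Nat.cast_nonneg j
    obtain ⟨y, hy⟩ : ∃ y, y = (j : ℝ) / s := ⟨_, rfl⟩
    have hy0 : 0 ≤ y := by rw [hy]; positivity
    have hy1 : y ≤ 1 - δ := by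
      rw [hy, div_le_iff₀ hs0]
      exact hj1
    obtain ⟨E, hE⟩ : ∃ E, E = Real.exp (-(y * L)) := ⟨_, rfl⟩
    have hE0 : 0 < E := by rw [hE]; exact Real.exp_pos _
    have hE1 : E ≤ 1 := by
      rw [hE, Real.exp_le_one_iff]
      have : 0 ≤ y * L := by positivity
      linarith
    obtain ⟨τ, hτ⟩ : ∃ τ, τ = fm ε k n j := ⟨_, rfl⟩
    have hτE : τ = n * E / (30 * L) := by
      rw [hτ, fm, ← hs, ← hL, ← hy, ← hE]
    have hτ0 : 0 < τ := by rw [hτE]; positivity
    rw [← hτ]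
    obtain ⟨φ, hφ⟩ : ∃ φ : ℕ, φ = ⌊τ⌋₊ := ⟨_, rfl⟩
    rw [← hφ]
    have hφτ : (φ : ℝ) ≤ τ := by
      rw [hφ]
      exact Nat.floor_le hτ0.le
    have hφn : (φ : ℝ) ≤ n / 30 := by
      refine hφτ.trans ?_
      rw [hτE, div_le_div_iff₀ (by positivity) (by norm_num)]
      have : (n : ℝ) * E ≤ n * L := mul_le_mul_of_nonneg_left (by linarith) hn0.le
      nlinarith
    -- (i)
    have e1 : (n.choose j : ℝ) ≤ Real.exp (s * (L + Real.log x + 1)) := by
      refine (choose_le_ss (k := k) (n := n) hε (by omega) (by omega) j).trans ?_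
      rw [Real.exp_le_exp, ← hs, ← hL, ← hx]
      have : (j : ℝ) * (L + Real.log x) ≤ s * (L + Real.log x) :=
        mul_le_mul_of_nonneg_right hjs (by linarith)
      linarith
    -- (ii)
    have hnτ : (n : ℝ) / τ = 30 * L * Real.exp (y * L) := by
      rw [hτE, hE, Real.exp_neg]
      have := Real.exp_pos (y * L)
      field_simp
    have hbase : 1 ≤ (n : ℝ) / τ := by
      rw [hnτ]
      have : 1 ≤ Real.exp (y * L) := Real.one_le_exp (by positivity)
      nlinarith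
    have e2 : (n.choose φ : ℝ) ≤ Real.exp (n * E / 15) := by
      refine (choose_le_pow_exp n φ hτ0).trans ?_
      have h1 : ((n : ℝ) / τ) ^ φ ≤ Real.exp (τ * (Real.log (30 * L) + L)) := by
        calc ((n : ℝ) / τ) ^ φ = ((n : ℝ) / τ) ^ (φ : ℝ) := (Real.rpow_natCast _ _).symm
          _ ≤ ((n : ℝ) / τ) ^ τ := Real.rpow_le_rpow_of_exponent_le hbase hφτ
          _ = Real.exp (Real.log ((n : ℝ) / τ) * τ) := Real.rpow_def_of_pos (by positivity) _
          _ ≤ Real.exp (τ * (Real.log (30 * L) + L)) := by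
              rw [Real.exp_le_exp, hnτ, Real.log_mul (by positivity) (Real.exp_pos _).ne',
                Real.log_exp, mul_comm]
              apply mul_le_mul_of_nonneg_left _ hτ0.le
              nlinarith
      calc ((n : ℝ) / τ) ^ φ * Real.exp τ
          ≤ Real.exp (τ * (Real.log (30 * L) + L)) * Real.exp τ :=
            mul_le_mul_of_nonneg_right h1 (Real.exp_pos _).le
        _ = Real.exp (τ * (Real.log (30 * L) + L + 1)) := by
            rw [← Real.exp_add]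
            congr 1
            ring
        _ ≤ Real.exp (n * E / 15) := by
            rw [Real.exp_le_exp]
            have h2 : (n : ℝ) * E / 15 = τ * (2 * L) := by
              rw [hτE]
              field_simp
              ring
            rw [h2]
            apply mul_le_mul_of_nonneg_left _ hτ0.le
            linarith
    -- (iii)
    obtain ⟨m, hm⟩ : ∃ m : ℕ, m = n - j - φ := ⟨_, rfl⟩
    rw [← hm]
    have hmn : (n : ℝ) / 2 ≤ m := by
      have h1 : (n : ℝ) ≤ m + j + φ := by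
        have : n ≤ m + j + φ := by omega
        exact_mod_cast this
      linarith
    have h1p : E * Real.exp (-1) ≤ (1 - dn n (Mk ε k n)) ^ j := by
      have h1 := hpj j (by rw [← hs]; exact hjs)
      rw [← hs, ← hL, ← hy] at h1
      refine le_trans (le_of_eq ?_) h1
      rw [hE, ← Real.exp_add]
      congr 1
    have hq1 : (1 - dn n (Mk ε k n)) ^ j ≤ 1 := pow_le_one₀ (by linarith) (by linarith)
    have hexp1 : (0.36 : ℝ) ≤ Real.exp (-1) := by
      rw [Real.exp_neg, ← one_div, le_div_iff₀ (Real.exp_pos _)]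
      have := Real.exp_one_lt_d9
      linarith
    have e3 : (1 - (1 - dn n (Mk ε k n)) ^ j) ^ m ≤ Real.exp (-(0.18 * (n * E))) := by
      have h2 : 1 - (1 - dn n (Mk ε k n)) ^ j ≤ Real.exp (-((1 - dn n (Mk ε k n)) ^ j)) := by
        have := Real.add_one_le_exp (-((1 - dn n (Mk ε k n)) ^ j))
        linarith
      calc (1 - (1 - dn n (Mk ε k n)) ^ j) ^ m
          ≤ (Real.exp (-((1 - dn n (Mk ε k n)) ^ j))) ^ m :=
            pow_le_pow_left₀ (by linarith) h2 m
        _ = Real.exp (-(m * (1 - dn n (Mk ε k n)) ^ j)) := by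
            rw [← Real.exp_nat_mul]
            congr 1
            ring
        _ ≤ Real.exp (-(0.18 * (n * E))) := by
            rw [Real.exp_le_exp, neg_le_neg_iff]
            have h3 : E * 0.36 ≤ (1 - dn n (Mk ε k n)) ^ j :=
              le_trans (mul_le_mul_of_nonneg_left hexp1 hE0.le) h1p
            calc (0.18 : ℝ) * (n * E) = (n / 2) * (E * 0.36) := by ring
              _ ≤ m * (1 - dn n (Mk ε k n)) ^ j :=
                mul_le_mul hmn h3 (by positivity) (by linarith)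
    have e4 : (((n.choose 2 : ℕ) : ℝ) + 1) ≤ (n : ℝ) ^ 2 + 1 := by
      have h1 : n.choose 2 ≤ n ^ 2 := Nat.choose_le_pow n 2
      have h2 : ((n.choose 2 : ℕ) : ℝ) ≤ (n : ℝ) ^ 2 := by exact_mod_cast h1
      linarith
    have hEk : x * s * (k : ℝ) ^ δ ≤ n * E := by
      have h1 : (k : ℝ) ^ (-(1 - δ)) ≤ E := by
        rw [hE, Real.rpow_def_of_pos hk0, Real.exp_le_exp, ← hL]
        nlinarith
      calc x * s * (k : ℝ) ^ δ = n * (k : ℝ) ^ (-(1 - δ)) := by
            have h2 : (k : ℝ) ^ δ = k * (k : ℝ) ^ (-(1 - δ)) := by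
              have h3 : (k : ℝ) * (k : ℝ) ^ (-(1 - δ)) = (k : ℝ) ^ (1 : ℝ) * (k : ℝ) ^ (-(1 - δ)) := by
                rw [Real.rpow_one]
              rw [h3, ← Real.rpow_add hk0]
              congr 1
              ring
            rw [h2, hns]
            ring
        _ ≤ n * E := mul_le_mul_of_nonneg_left h1 hn0.le
    have hq0 : 0 ≤ (1 - (1 - dn n (Mk ε k n)) ^ j) ^ m := pow_nonneg (by linarith) _
    calc (n.choose j : ℝ) * (n.choose φ : ℝ) *
        (((n.choose 2 : ℕ) + 1) * (1 - (1 - dn n (Mk ε k n)) ^ j) ^ m)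
        ≤ Real.exp (s * (L + Real.log x + 1)) * Real.exp (n * E / 15) *
          (((n : ℝ) ^ 2 + 1) * Real.exp (-(0.18 * (n * E)))) := by
          apply mul_le_mul
          · exact mul_le_mul e1 e2 (Nat.cast_nonneg _) (Real.exp_pos _).le
          · exact mul_le_mul e4 e3 hq0 (by positivity)
          · positivity
          · positivity
      _ = ((n : ℝ) ^ 2 + 1) *
          Real.exp (s * (L + Real.log x + 1) + n * E / 15 + -(0.18 * (n * E))) := by
          rw [Real.exp_add, Real.exp_add]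
          ring
      _ ≤ ((n : ℝ) ^ 2 + 1) * Real.exp (-2 * (s * L)) := by
          apply mul_le_mul_of_nonneg_left _ (by positivity)
          rw [Real.exp_le_exp]
          have h1 : s * (3 * L + Real.log x + 1) ≤ s * (1 / 10 * x * (k : ℝ) ^ δ) :=
            mul_le_mul_of_nonneg_left hKd hs0.le
          have h2 : 0 ≤ (n : ℝ) * E := by positivity
          nlinarith
  refine (sum_le_sum hterm).trans ?_
  rw [sum_const, card_range, nsmul_eq_mul]
  have hpm : ((pm1 ε δ k n + 1 : ℕ) : ℝ) ≤ n + 1 := by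
    push_cast
    have h1 : (pm1 ε δ k n : ℝ) ≤ (1 - δ) * s := by
      rw [pm1, ← hs]
      exact Nat.floor_le (by nlinarith)
    have h2 : (1 - δ) * s ≤ n := by nlinarith
    linarith
  calc ((pm1 ε δ k n + 1 : ℕ) : ℝ) * (((n : ℝ) ^ 2 + 1) * Real.exp (-2 * (s * L)))
      ≤ (n + 1) * (((n : ℝ) ^ 2 + 1) * Real.exp (-2 * (s * L))) :=
        mul_le_mul_of_nonneg_right hpm (by positivity)
    _ = ((n + 1) * ((n : ℝ) ^ 2 + 1)) * Real.exp (-2 * (s * L)) := by ring
    _ ≤ Real.exp (L / (x * k) * n) * Real.exp (-2 * (s * L)) :=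
        mul_le_mul_of_nonneg_right hpoly (Real.exp_pos _).le
    _ = Real.exp (-(s * L)) := by
        rw [← Real.exp_add]
        congr 1
        rw [hsx]
        ring

end MCE
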