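import Pool.Agent.MCE.Defs
import Pool.Agent.MCE.Binom
import Pool.Agent.MCE.NumP

/-!
# MCE-NumG: the factor of the last step, numerically
-/

open scoped Classical
open Finset

namespace MCE

theorem num_g {ε δ : ℝ} (hε : 0 < ε) (hδ : 0 < δ) (hδ1 : δ ≤ 1 / 16) :
    ∀ᶠ k : ℕ in Filter.atTop, ∀ᶠ n : ℕ in Filter.atTop,
      gam n (Mk ε k n) (pm2 ε δ k n) (pq ε δ k n) (pub ε δ k n) ≤
        Real.exp (δ / 4 * NN ε k n) := by
  obtain ⟨C, hC⟩ : ∃ C : ℝ, C = Real.log (1 + 2 * ε) + 1 + (1 + 2 * ε) + 1 + pm0 δ := ⟨_, rfl⟩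
  have h1 : Filter.Tendsto (fun k : ℕ => Real.log (k : ℝ)) Filter.atTop Filter.atTop :=
    Real.tendsto_log_atTop.comp tendsto_natCast_atTop_atTop
  filter_upwards [h1.eventually_ge_atTop (4 * (C + 1) / δ), Filter.eventually_ge_atTop 3]
    with k hk1 hk3
  have hk0 : (0 : ℝ) < k := by
    have : 0 < k := by omega
    exact_mod_cast this
  have hx : 0 < (1 + 2 * ε) * (k : ℝ) := by positivity
  have h2 : ∀ᶠ n : ℕ in Filter.atTop, 1 ≤ ss ε k n := by
    have h3 : Filter.Tendsto (fun n : ℕ => (n : ℝ) / ((1 + 2 * ε) * k)) Filter.atTop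
        Filter.atTop := tendsto_natCast_atTop_atTop.atTop_div_const hx
    exact h3.eventually_ge_atTop 1
  filter_upwards [h2, num_p hε hk3, Filter.eventually_ge_atTop 1] with n hs hp hn
  obtain ⟨s, hsd⟩ : ∃ s : ℝ, s = ss ε k n := ⟨_, rfl⟩
  obtain ⟨L, hL⟩ : ∃ L : ℝ, L = Real.log k := ⟨_, rfl⟩
  obtain ⟨D, hD⟩ : ∃ D : ℝ, D = dn n (Mk ε k n) := ⟨_, rfl⟩
  have hp2 : L / s ≤ D := by
    rw [hL, hsd, hD]
    exact hp.2.1
  rw [← hsd] at hs
  rw [← hL] at hk1
  have hs0 : 0 < s := by linarith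
  have hL0 : 0 ≤ L := by
    rw [hL]
    exact Real.log_natCast_nonneg k
  have hLs : 0 ≤ L / s := div_nonneg hL0 hs0.le
  have hlx : 0 ≤ Real.log (1 + 2 * ε) := Real.log_nonneg (by linarith)
  have hq : (pq ε δ k n : ℝ) ≤ δ / 2 * s := by
    rw [hsd]
    refine Nat.floor_le ?_
    rw [← hsd]
    positivity
  have hm : (1 + δ) * s ≤ (pm2 ε δ k n : ℝ) := by
    rw [hsd]
    exact Nat.le_ceil _
  have hpm0 : (0 : ℝ) ≤ (pm0 δ : ℝ) := Nat.cast_nonneg _
  have hds : δ / 2 * s ≤ s := by nlinarith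
  have hub : (pub ε δ k n : ℝ) ≤ (1 + 2 * ε) * s + s + pm0 δ * s := by
    unfold pub pmx
    push_cast
    have e1 : ((⌈(n : ℝ) / k⌉₊ : ℕ) : ℝ) < (n : ℝ) / k + 1 := Nat.ceil_lt_add_one (by positivity)
    have e2 : (n : ℝ) / k = (1 + 2 * ε) * s := by
      rw [hsd]
      unfold ss
      field_simp
    have e3 : (pm0 δ : ℝ) * (pq ε δ k n : ℝ) ≤ pm0 δ * s :=
      mul_le_mul_of_nonneg_left (hq.trans hds) hpm0
    linarith
  have hl2 : Real.log 2 ≤ 1 := by
    have := Real.log_two_lt_d9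
    linarith
  have hl20 : 0 ≤ Real.log 2 := Real.log_nonneg (by norm_num)
  have hterm : ∀ b ∈ range (pq ε δ k n), (n.choose b : ℝ) * 2 ^ pub ε δ k n *
      Real.exp (-(D * (b * ((pm2 ε δ k n : ℝ) - b)))) ≤ Real.exp (C * s) := by
    intro b hb
    have hbq : (b : ℝ) ≤ pq ε δ k n := by exact_mod_cast (mem_range.1 hb).le
    have hb0 : (0 : ℝ) ≤ b := Nat.cast_nonneg b
    have hbs : (b : ℝ) ≤ δ / 2 * s := hbq.trans hq
    have hds2 : δ / 2 * s ≤ δ * s := by nlinarith
    have e1 := choose_le_ss hε (show 0 < k by omega) (show 0 < n by omega) b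
    rw [← hsd, ← hL] at e1
    have e2 : (2 : ℝ) ^ pub ε δ k n = Real.exp (pub ε δ k n * Real.log 2) := by
      rw [Real.exp_nat_mul, Real.exp_log (by norm_num)]
    have e4 : b * L ≤ L / s * (b * ((1 + δ) * s - b)) := by
      have e5 : L / s * (b * s) = b * L := by
        field_simp
      rw [← e5]
      refine mul_le_mul_of_nonneg_left (mul_le_mul_of_nonneg_left ?_ hb0) hLs
      linarith
    have e3 : L / s * (b * ((1 + δ) * s - b)) ≤ D * (b * ((pm2 ε δ k n : ℝ) - b)) :=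
      mul_le_mul hp2 (mul_le_mul_of_nonneg_left (by linarith) hb0)
        (mul_nonneg hb0 (by linarith)) (hLs.trans hp2)
    have e6 : b * L ≤ D * (b * ((pm2 ε δ k n : ℝ) - b)) := e4.trans e3
    calc (n.choose b : ℝ) * 2 ^ pub ε δ k n * Real.exp (-(D * (b * ((pm2 ε δ k n : ℝ) - b))))
        ≤ Real.exp (b * (L + Real.log (1 + 2 * ε)) + s) *
            Real.exp (pub ε δ k n * Real.log 2) * Real.exp (-(b * L)) := by
          rw [e2]
          refine mul_le_mul (mul_le_mul_of_nonneg_right e1 (Real.exp_pos _).le)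
            (Real.exp_le_exp.2 (by linarith)) (Real.exp_pos _).le (by positivity)
      _ = Real.exp (b * (L + Real.log (1 + 2 * ε)) + s + pub ε δ k n * Real.log 2 +
            -(b * L)) := by
          rw [← Real.exp_add, ← Real.exp_add]
      _ ≤ Real.exp (C * s) := by
          refine Real.exp_le_exp.2 ?_
          have f1 : b * Real.log (1 + 2 * ε) ≤ s * Real.log (1 + 2 * ε) :=
            mul_le_mul_of_nonneg_right (hbs.trans hds) hlx
          have f2 : pub ε δ k n * Real.log 2 ≤ (pub ε δ k n : ℝ) * 1 :=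
            mul_le_mul_of_nonneg_left hl2 (Nat.cast_nonneg _)
          rw [hC]
          nlinarith
  have hgam : gam n (Mk ε k n) (pm2 ε δ k n) (pq ε δ k n) (pub ε δ k n) ≤
      (pq ε δ k n : ℝ) * Real.exp (C * s) := by
    unfold gam
    rw [← hD]
    refine (Finset.sum_le_card_nsmul _ _ _ hterm).trans ?_
    rw [card_range, nsmul_eq_mul]
  refine hgam.trans ?_
  have g1 : (pq ε δ k n : ℝ) ≤ Real.exp s := by
    have := Real.add_one_le_exp s
    linarith [hq.trans hds]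
  calc (pq ε δ k n : ℝ) * Real.exp (C * s) ≤ Real.exp s * Real.exp (C * s) :=
        mul_le_mul_of_nonneg_right g1 (Real.exp_pos _).le
    _ = Real.exp ((C + 1) * s) := by
        rw [← Real.exp_add]
        ring_nf
    _ ≤ Real.exp (δ / 4 * NN ε k n) := by
        refine Real.exp_le_exp.2 ?_
        unfold NN
        rw [← hsd, ← hL]
        have g2 : C + 1 ≤ δ / 4 * L := by
          rw [div_le_iff₀ hδ] at hk1
          linarith
        calc (C + 1) * s ≤ δ / 4 * L * s := mul_le_mul_of_nonneg_right g2 hs0.le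
          _ = δ / 4 * (s * L) := by ring

end MCE
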