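import Pool.Agent.MCE.Defs

/-!
# MCE-NumL: the levels

All differences between consecutive levels are at least `δ s`, `s = ss ε k n → ∞`.
-/

open scoped Classical
open Finset

namespace MCE

theorem num_l {ε δ : ℝ} (hε : 0 < ε) (hδ : 0 < δ) (hδ1 : δ ≤ 1 / 16) (hδε : δ ≤ ε) (B : ℕ)
    (hB : 1 ≤ B) : ∀ k : ℕ, 3 ≤ k → ∀ᶠ n : ℕ in Filter.atTop,
      0 < n ∧ 0 < ss ε k n ∧ pj0 ε δ k n < pm1 ε δ k n ∧ pm1 ε δ k n < pm2 ε δ k n ∧
      pm2 ε δ k n < pmx k n ∧ 0 < pq ε δ k n ∧ pq ε δ k n ≤ pm2 ε δ k n ∧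
      δ * ss ε k n ≤ pj0 ε δ k n ∧
      ((k : ℝ) ^ B) ^ (pm2 ε δ k n - pj0 ε δ k n) ≤ Real.exp (4 * B * δ * NN ε k n) := by
  intro k hk
  have hk0 : (0 : ℝ) < k := by
    have : 0 < k := by omega
    exact_mod_cast this
  have hx : 0 < (1 + 2 * ε) * k := by positivity
  filter_upwards [Filter.eventually_ge_atTop 1,
    Filter.eventually_ge_atTop ⌈2 * ((1 + 2 * ε) * k) / δ⌉₊] with n hn1 hn2
  have hn0 : (0 : ℝ) < n := by exact_mod_cast hn1
  have hN : 2 * ((1 + 2 * ε) * k) / δ ≤ n := (Nat.le_ceil _).trans (by exact_mod_cast hn2)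
  have hs0 : 0 < ss ε k n := by
    unfold ss
    positivity
  have hsn : (1 + 2 * ε) * ss ε k n = n / k := by
    unfold ss
    field_simp
  have hds : 2 ≤ δ * ss ε k n := by
    unfold ss
    rw [div_le_iff₀ hδ] at hN
    rw [← mul_div_assoc, le_div_iff₀ hx]
    linarith
  obtain ⟨s, hs⟩ : ∃ s, s = ss ε k n := ⟨_, rfl⟩
  rw [← hs] at hs0 hds hsn
  have hA : δ * s ≤ s / 16 := by nlinarith
  have hB1 : δ * s ≤ ε * s := by nlinarith
  have ej0 : (pj0 ε δ k n : ℝ) ≤ (1 - 2 * δ) * s := by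
    unfold pj0
    rw [← hs]
    exact Nat.floor_le (by nlinarith)
  have ej0' : (1 - 2 * δ) * s < pj0 ε δ k n + 1 := by
    unfold pj0
    rw [← hs]
    exact Nat.lt_floor_add_one _
  have em1 : (pm1 ε δ k n : ℝ) ≤ (1 - δ) * s := by
    unfold pm1
    rw [← hs]
    exact Nat.floor_le (by nlinarith)
  have em1' : (1 - δ) * s < pm1 ε δ k n + 1 := by
    unfold pm1
    rw [← hs]
    exact Nat.lt_floor_add_one _
  have em2 : (1 + δ) * s ≤ pm2 ε δ k n := by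
    unfold pm2
    rw [← hs]
    exact Nat.le_ceil _
  have em2' : (pm2 ε δ k n : ℝ) < (1 + δ) * s + 1 := by
    unfold pm2
    rw [← hs]
    exact Nat.ceil_lt_add_one (by positivity)
  have emx : (n : ℝ) / k ≤ pmx k n := Nat.le_ceil _
  have eq1 : (pq ε δ k n : ℝ) ≤ δ / 2 * s := by
    unfold pq
    rw [← hs]
    exact Nat.floor_le (by positivity)
  have eq2 : δ / 2 * s < pq ε δ k n + 1 := by
    unfold pq
    rw [← hs]
    exact Nat.lt_floor_add_one _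
  have h12 : (pj0 ε δ k n : ℝ) < pm1 ε δ k n := by nlinarith
  have h23 : (pm1 ε δ k n : ℝ) < pm2 ε δ k n := by nlinarith
  have h34 : (pm2 ε δ k n : ℝ) < pmx k n := by nlinarith
  have h5 : (0 : ℝ) < pq ε δ k n := by nlinarith
  have h6 : (pq ε δ k n : ℝ) ≤ pm2 ε δ k n := by nlinarith
  have h7 : δ * s ≤ pj0 ε δ k n := by nlinarith
  rw [← hs]
  refine ⟨hn1, hs0, by exact_mod_cast h12, by exact_mod_cast h23, by exact_mod_cast h34,
    by exact_mod_cast h5, by exact_mod_cast h6, h7, ?_⟩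
  have hle : pj0 ε δ k n ≤ pm2 ε δ k n := by
    have : (pj0 ε δ k n : ℝ) ≤ pm2 ε δ k n := by linarith
    exact_mod_cast this
  have hL : 0 < Real.log k := by
    apply Real.log_pos
    have : (3 : ℝ) ≤ k := by exact_mod_cast hk
    linarith
  have hBr : (1 : ℝ) ≤ B := by exact_mod_cast hB
  rw [← pow_mul, ← Real.exp_log hk0, ← Real.exp_nat_mul, Real.exp_le_exp]
  push_cast [Nat.cast_sub hle]
  unfold NN
  rw [← hs]
  have h8 : (pm2 ε δ k n : ℝ) - pj0 ε δ k n ≤ 4 * (δ * s) := by nlinarith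
  calc (B : ℝ) * ((pm2 ε δ k n : ℝ) - pj0 ε δ k n) * Real.log k
      ≤ (B : ℝ) * (4 * (δ * s)) * Real.log k := by gcongr
    _ = 4 * B * δ * (s * Real.log k) := by ring

end MCE
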