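import Pool.Agent.MCE.Defs
import Pool.Agent.MCE.Binom
import Pool.Agent.MCE.NumP

/-!
# MCE-NumR: the factor of a fresh step, numerically

From `choose_le_ss` and `num_p` by elementary estimates of the exponent.
-/

open scoped Classical
open Finset

namespace MCE

theorem num_r {ε δ : ℝ} (hε : 0 < ε) (hδ : 0 < δ) (hδ1 : δ ≤ 1 / 16) :
    ∀ᶠ k : ℕ in Filter.atTop, ∀ᶠ n : ℕ in Filter.atTop,
      rho n (Mk ε k n) (pm2 ε δ k n) (pq ε δ k n) (pub ε δ k n) ≤
        Real.exp (-(δ ^ 2 / 8 * NN ε k n)) := by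
  set x : ℝ := 1 + 2 * ε with hx
  set P : ℝ := (pm0 δ : ℝ) with hP
  have hP0 : 0 ≤ P := Nat.cast_nonneg _
  have hx1 : 1 ≤ x := by rw [hx]; linarith
  have hlx : 0 ≤ Real.log x := Real.log_nonneg hx1
  set C : ℝ := Real.log x + 1 + x + P with hC
  have hlog := (Real.tendsto_log_atTop.comp tendsto_natCast_atTop_atTop :
    Filter.Tendsto (fun k : ℕ => Real.log (k : ℝ)) Filter.atTop Filter.atTop)
  filter_upwards [Filter.eventually_ge_atTop 3, hlog.eventually_ge_atTop (16 * C / δ ^ 2),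
    hlog.eventually_ge_atTop 1] with k hk hL hL1
  have hk0 : (0 : ℝ) < k := by
    have : 0 < k := by omega
    exact_mod_cast this
  have hs : Filter.Tendsto (fun n : ℕ => ss ε k n) Filter.atTop Filter.atTop := by
    unfold ss
    exact tendsto_natCast_atTop_atTop.atTop_div_const (by positivity)
  filter_upwards [num_p hε hk, hs.eventually_ge_atTop (32 / δ ^ 2),
    Filter.eventually_gt_atTop 0] with n hp hs32 hn
  obtain ⟨-, hp2, -, -⟩ := hp
  change 16 * C / δ ^ 2 ≤ Real.log k at hL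
  change 1 ≤ Real.log k at hL1
  set L : ℝ := Real.log k with hLdef
  set s : ℝ := ss ε k n with hsdef
  have hδ2 : 0 < δ ^ 2 := by positivity
  have hs0 : 0 < s := lt_of_lt_of_le (by positivity) hs32
  have hnk : (n : ℝ) / k = x * s := by
    rw [hsdef, ss, ← hx]
    field_simp
  set q : ℕ := pq ε δ k n with hq
  set m : ℕ := pm2 ε δ k n with hm
  set u : ℕ := pub ε δ k n with hu
  have hq1 : (q : ℝ) ≤ δ / 2 * s := Nat.floor_le (by positivity)
  have hq2 : δ / 2 * s - 1 ≤ (q : ℝ) := (Nat.sub_one_lt_floor _).le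
  have hq0 : (0 : ℝ) ≤ q := Nat.cast_nonneg _
  have hm1 : (1 + δ) * s ≤ (m : ℝ) := Nat.le_ceil _
  have hu1 : (u : ℝ) ≤ x * s + 1 + P * (δ / 2 * s) := by
    rw [hu, pub, Nat.cast_add, Nat.cast_mul, ← hP, ← hq]
    have h1 : (pmx k n : ℝ) ≤ x * s + 1 := by
      rw [← hnk]
      exact (Nat.ceil_lt_add_one (by positivity)).le
    have h2 : P * (q : ℝ) ≤ P * (δ / 2 * s) := mul_le_mul_of_nonneg_left hq1 hP0
    linarith
  have hu0 : (0 : ℝ) ≤ u := Nat.cast_nonneg _
  have hln2 : Real.log 2 ≤ 1 := by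
    have := Real.log_two_lt_d9
    linarith
  -- the exponent
  have hch := choose_le_ss hε (k := k) (by omega) hn q
  rw [← hx, ← hLdef, ← hsdef] at hch
  have hpow : (2 : ℝ) ^ u = Real.exp (u * Real.log 2) := by
    rw [Real.exp_nat_mul, Real.exp_log two_pos]
  have hdn : L * q * (1 + δ / 2) ≤ dn n (Mk ε k n) * (q * (m - q)) := by
    have h1 : (1 + δ / 2) * s ≤ (m : ℝ) - q := by linarith
    have h2 : L / s * (q * ((1 + δ / 2) * s)) ≤ dn n (Mk ε k n) * (q * (m - q)) := by
      apply mul_le_mul hp2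
      · exact mul_le_mul_of_nonneg_left h1 hq0
      · positivity
      · exact le_trans (by positivity) hp2
    have h3 : L / s * (q * ((1 + δ / 2) * s)) = L * q * (1 + δ / 2) := by
      field_simp
    rw [← h3]
    exact h2
  have hmain : rho n (Mk ε k n) m q u ≤
      Real.exp (q * (L + Real.log x) + s + u * Real.log 2 -
        dn n (Mk ε k n) * (q * (m - q))) := by
    have hsplit : Real.exp (q * (L + Real.log x) + s + u * Real.log 2 -
        dn n (Mk ε k n) * (q * (m - q))) = Real.exp (q * (L + Real.log x) + s) *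
        Real.exp (u * Real.log 2) * Real.exp (-(dn n (Mk ε k n) * (q * (m - q)))) := by
      rw [← Real.exp_add, ← Real.exp_add, sub_eq_add_neg]
    rw [hsplit]
    unfold rho
    rw [hpow]
    apply mul_le_mul_of_nonneg_right _ (Real.exp_pos _).le
    exact mul_le_mul_of_nonneg_right hch (Real.exp_pos _).le
  refine hmain.trans (Real.exp_le_exp.2 ?_)
  have hN : NN ε k n = s * L := rfl
  rw [hN]
  have e1 : (u : ℝ) * Real.log 2 ≤ x * s + 1 + P * (δ / 2 * s) := by
    calc (u : ℝ) * Real.log 2 ≤ u * 1 := mul_le_mul_of_nonneg_left hln2 hu0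
      _ ≤ _ := by rw [mul_one]; exact hu1
  have e2 : (q : ℝ) * Real.log x ≤ s * Real.log x := by
    apply mul_le_mul_of_nonneg_right _ hlx
    nlinarith
  have e3 : P * (δ / 2 * s) ≤ P * s := by
    apply mul_le_mul_of_nonneg_left _ hP0
    nlinarith
  have e4 : δ / 2 * L * (δ / 2 * s - 1) ≤ δ / 2 * L * q :=
    mul_le_mul_of_nonneg_left hq2 (by positivity)
  have e5 : C * s ≤ δ ^ 2 / 16 * (s * L) := by
    have h1 : 16 * C ≤ L * δ ^ 2 := (div_le_iff₀ hδ2).1 hL
    nlinarith
  have e6 : 2 * L ≤ δ ^ 2 / 16 * (s * L) := by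
    have h1 : 32 ≤ s * δ ^ 2 := (div_le_iff₀ hδ2).1 hs32
    nlinarith
  have e7 : δ / 2 * L ≤ 1 * L := mul_le_mul_of_nonneg_right (by linarith) (by linarith)
  have e8 : C * s = s * Real.log x + s + x * s + P * s := by rw [hC]; ring
  nlinarith

end MCE
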