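import Pool.Agent.MCE.Defs
import Pool.Agent.MCE.Binom
import Pool.Agent.MCE.NumP

/-!
# MCE-NumZ: the expected number of stable sets of size n/k, numerically

The binomial coefficient is bounded by `choose_le_ss`, the edge density by `num_p`; the error terms are small for large `k` and `n`.
-/

open scoped Classical
open Finset

namespace MCE

theorem num_z {ε δ : ℝ} (hε : 0 < ε) (hδ : 0 < δ) (hδ1 : δ ≤ 1 / 16) :
    ∀ᶠ k : ℕ in Filter.atTop, ∀ᶠ n : ℕ in Filter.atTop,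
      zet n (Mk ε k n) (pmx k n) ≤
        Real.exp ((1 / 2 - 2 * ε ^ 2 + δ / 4) * NN ε k n) := by
  have _ := hδ1
  obtain ⟨x, hx⟩ : ∃ x : ℝ, x = 1 + 2 * ε := ⟨_, rfl⟩
  have hx1 : 1 < x := by rw [hx]; linarith
  have hlx : 0 ≤ Real.log x := Real.log_nonneg hx1.le
  have hlog : Filter.Tendsto (fun k : ℕ => Real.log k) Filter.atTop Filter.atTop :=
    Real.tendsto_log_atTop.comp tendsto_natCast_atTop_atTop
  filter_upwards [hlog.eventually_ge_atTop (max 1 (8 * (x * Real.log x + 1) / δ)), Filter.eventually_ge_atTop 3] with k hkL hk3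
  have hk0 : (0 : ℝ) < k := by exact_mod_cast (by omega : 0 < k)
  have hs : Filter.Tendsto (fun n : ℕ => ss ε k n) Filter.atTop Filter.atTop := by
    unfold ss
    exact Filter.Tendsto.atTop_div_const (by positivity) tendsto_natCast_atTop_atTop
  filter_upwards [num_p hε hk3, hs.eventually_ge_atTop (max 1 (8 / δ * (1 + x / 2 + Real.log x))),
    Filter.eventually_ge_atTop 1] with n hp hsn hn
  obtain ⟨L, hL⟩ : ∃ L, L = Real.log k := ⟨_, rfl⟩
  obtain ⟨s, hsd⟩ : ∃ s, s = ss ε k n := ⟨_, rfl⟩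
  have hchoose := choose_le_ss hε (k := k) (n := n) (by omega) (by omega) (pmx k n)
  unfold NN zet
  rw [← hL] at hkL hp hchoose ⊢
  rw [← hsd] at hsn hp hchoose ⊢
  rw [← hx] at hchoose
  have hL1 : 1 ≤ L := (le_max_left _ _).trans hkL
  have hL2 : 8 * (x * Real.log x + 1) / δ ≤ L := (le_max_right _ _).trans hkL
  have hs1 : 1 ≤ s := (le_max_left _ _).trans hsn
  have hs2 : 8 / δ * (1 + x / 2 + Real.log x) ≤ s := (le_max_right _ _).trans hsn
  obtain ⟨-, hd, -, -⟩ := hp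
  obtain ⟨m, hm⟩ : ∃ m : ℕ, m = pmx k n := ⟨_, rfl⟩
  rw [← hm] at hchoose ⊢
  have hxs : (n : ℝ) / k = x * s := by
    rw [hsd, hx]
    unfold ss
    field_simp
  have hm1 : x * s ≤ m := by
    rw [← hxs, hm]
    exact Nat.le_ceil _
  have hm2 : (m : ℝ) ≤ x * s + 1 := by
    rw [← hxs, hm]
    exact (Nat.ceil_lt_add_one (by positivity)).le
  have hxs1 : 1 ≤ x * s := by nlinarith
  have hc2 : ((m.choose 2 : ℕ) : ℝ) = m * (m - 1) / 2 := Nat.cast_choose_two ℝ m
  have hc3 : x * s * (x * s - 1) / 2 ≤ ((m.choose 2 : ℕ) : ℝ) := by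
    rw [hc2]
    have h1 : x * s * (x * s - 1) ≤ m * ((m : ℝ) - 1) := mul_le_mul hm1 (by linarith) (by linarith) (by linarith)
    linarith
  have hd2 : L / s * (x * s * (x * s - 1) / 2) ≤ dn n (Mk ε k n) * ((m.choose 2 : ℕ) : ℝ) :=
    mul_le_mul hd hc3 (by nlinarith) (le_trans (by positivity) hd)
  have hd3 : L / s * (x * s * (x * s - 1) / 2) = L * x * (x * s - 1) / 2 := by
    field_simp
  rw [hd3] at hd2
  have h4 : ((n.choose m : ℕ) : ℝ) * Real.exp (-(dn n (Mk ε k n) * ((m.choose 2 : ℕ) : ℝ))) ≤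
      Real.exp (m * (L + Real.log x) + s) * Real.exp (-(L * x * (x * s - 1) / 2)) :=
    mul_le_mul hchoose (Real.exp_le_exp.2 (by linarith)) (Real.exp_pos _).le (Real.exp_pos _).le
  refine h4.trans ?_
  rw [← Real.exp_add]
  apply Real.exp_le_exp.2
  have h5 : (m : ℝ) * (L + Real.log x) ≤ (x * s + 1) * (L + Real.log x) :=
    mul_le_mul_of_nonneg_right hm2 (by linarith)
  rw [div_le_iff₀ hδ] at hL2
  have hs3 : 8 * (1 + x / 2 + Real.log x) ≤ δ * s := by
    have h6 : 8 / δ * (1 + x / 2 + Real.log x) * δ ≤ s * δ := mul_le_mul_of_nonneg_right hs2 hδ.le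
    have h7 : 8 / δ * (1 + x / 2 + Real.log x) * δ = 8 * (1 + x / 2 + Real.log x) := by
      field_simp
    rw [h7] at h6
    linarith
  have h8 : s * (8 * (x * Real.log x + 1)) ≤ s * (L * δ) := mul_le_mul_of_nonneg_left hL2 (by linarith)
  have h9 : L * (8 * (1 + x / 2 + Real.log x)) ≤ L * (δ * s) := mul_le_mul_of_nonneg_left hs3 (by linarith)
  have h10 : Real.log x ≤ L * Real.log x := by nlinarith
  have h11 : (1 / 2 - 2 * ε ^ 2 + δ / 4) * (s * L) = L * s * (x - x ^ 2 / 2) + δ / 4 * (s * L) := by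
    rw [hx]
    ring
  rw [h11]
  nlinarith

end MCE
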