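import Pool.Agent.MCE.Defs
import Pool.Agent.MCE.FreeU
import Pool.Agent.MCE.GateFin
import Pool.Agent.MCE.NumF
import Pool.Agent.MCE.NumR
import Pool.Agent.MCE.NumG
import Pool.Agent.MCE.NumZ
import Pool.Agent.MCE.NumA
import Pool.Agent.MCE.NumL

/-!
# MCE-Frac: the exceptional graphs
-/

open scoped Classical
open Finset

namespace MCE

private theorem nn_large {ε : ℝ} (hε : 0 < ε) {k : ℕ} (hk : 3 ≤ k) (C : ℝ) :
    ∀ᶠ n : ℕ in Filter.atTop, C ≤ NN ε k n := by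
  have hk' : (3 : ℝ) ≤ k := by exact_mod_cast hk
  have hL : 0 < Real.log k := Real.log_pos (by linarith)
  have hd : 0 < (1 + 2 * ε) * k := by positivity
  have h1 : Filter.Tendsto (fun n : ℕ => (n : ℝ) * (Real.log k / ((1 + 2 * ε) * k)))
      Filter.atTop Filter.atTop :=
    Filter.Tendsto.atTop_mul_const (by positivity) tendsto_natCast_atTop_atTop
  filter_upwards [h1.eventually_ge_atTop C] with n hn
  have h2 : NN ε k n = (n : ℝ) * (Real.log k / ((1 + 2 * ε) * k)) := by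
    unfold NN ss
    ring
  rw [h2]
  exact hn

private theorem final_bd {δ ε N zt rh gm A : ℝ} {m0 : ℕ} (hδ : 0 < δ) (hδ1 : δ ≤ 1 / 16)
    (hm0 : 8 / δ ^ 2 ≤ m0) (hA : A = Real.exp ((1 / 2 - 2 * ε ^ 2 + δ) * N))
    (hN : 4 * Real.log (2 + m0) / δ ≤ N)
    (hz : zt ≤ Real.exp ((1 / 2 - 2 * ε ^ 2 + δ / 4) * N))
    (hr0 : 0 ≤ rh) (hr : rh ≤ Real.exp (-(δ ^ 2 / 8 * N)))
    (hg0 : 0 ≤ gm) (hg : gm ≤ Real.exp (δ / 4 * N)) :
    Real.exp (-N) + zt * (rh ^ m0 + (∑ i ∈ range m0, rh ^ i) * gm / A) ≤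
      Real.exp (-(δ / 4 * N)) := by
  have hm2 : (1 : ℝ) ≤ 2 + m0 := by
    have : (0 : ℝ) ≤ m0 := Nat.cast_nonneg _
    linarith
  have hN0 : 0 ≤ N := le_trans (div_nonneg (mul_nonneg (by norm_num) (Real.log_nonneg hm2)) hδ.le) hN
  have hA0 : 0 < A := by rw [hA]; exact Real.exp_pos _
  have hr1 : rh ≤ 1 := by
    refine hr.trans ?_
    rw [Real.exp_le_one_iff]
    have : 0 ≤ δ ^ 2 / 8 * N := by positivity
    linarith
  have h1 : rh ^ m0 ≤ Real.exp (-N) := by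
    calc rh ^ m0 ≤ (Real.exp (-(δ ^ 2 / 8 * N))) ^ m0 := pow_le_pow_left₀ hr0 hr _
      _ = Real.exp (m0 * -(δ ^ 2 / 8 * N)) := by rw [← Real.exp_nat_mul]
      _ ≤ Real.exp (-N) := by
        apply Real.exp_le_exp.2
        have h2 : 1 ≤ (m0 : ℝ) * (δ ^ 2 / 8) := by
          have h3 : 8 / δ ^ 2 * (δ ^ 2 / 8) = 1 := by field_simp
          calc (1 : ℝ) = 8 / δ ^ 2 * (δ ^ 2 / 8) := h3.symm
            _ ≤ m0 * (δ ^ 2 / 8) := mul_le_mul_of_nonneg_right hm0 (by positivity)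
        nlinarith
  have h2 : ∑ i ∈ range m0, rh ^ i ≤ m0 := by
    calc ∑ i ∈ range m0, rh ^ i ≤ ∑ _i ∈ range m0, (1 : ℝ) :=
          Finset.sum_le_sum fun i _ => pow_le_one₀ hr0 hr1
      _ = m0 := by simp
  have h2' : 0 ≤ ∑ i ∈ range m0, rh ^ i := Finset.sum_nonneg fun i _ => pow_nonneg hr0 i
  have h3 : (∑ i ∈ range m0, rh ^ i) * gm / A ≤
      m0 * Real.exp (δ / 4 * N - (1 / 2 - 2 * ε ^ 2 + δ) * N) := by
    rw [Real.exp_sub, ← hA, mul_div_assoc]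
    exact mul_le_mul h2 (div_le_div_of_nonneg_right hg hA0.le) (div_nonneg hg0 hA0.le)
      (Nat.cast_nonneg _)
  have h4 : zt * (rh ^ m0 + (∑ i ∈ range m0, rh ^ i) * gm / A) ≤
      Real.exp ((1 / 2 - 2 * ε ^ 2 + δ / 4) * N) *
        (Real.exp (-N) + m0 * Real.exp (δ / 4 * N - (1 / 2 - 2 * ε ^ 2 + δ) * N)) := by
    apply mul_le_mul hz (add_le_add h1 h3) _ (Real.exp_pos _).le
    have := pow_nonneg hr0 m0
    positivity
  have h5 : Real.exp ((1 / 2 - 2 * ε ^ 2 + δ / 4) * N) *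
        (Real.exp (-N) + m0 * Real.exp (δ / 4 * N - (1 / 2 - 2 * ε ^ 2 + δ) * N)) =
      Real.exp ((1 / 2 - 2 * ε ^ 2 + δ / 4) * N - N) + m0 * Real.exp (-(δ / 2 * N)) := by
    rw [mul_add, ← Real.exp_add, mul_left_comm, ← Real.exp_add]
    congr 2
    · congr 1
      ring
  have h6 : Real.exp (-N) ≤ Real.exp (-(δ / 2 * N)) := by
    apply Real.exp_le_exp.2
    nlinarith
  have h7 : Real.exp ((1 / 2 - 2 * ε ^ 2 + δ / 4) * N - N) ≤ Real.exp (-(δ / 2 * N)) := by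
    apply Real.exp_le_exp.2
    have : 0 ≤ ε ^ 2 * N := by positivity
    nlinarith
  have h8 : (2 + (m0 : ℝ)) * Real.exp (-(δ / 2 * N)) ≤ Real.exp (-(δ / 4 * N)) := by
    have h9 : 2 + (m0 : ℝ) = Real.exp (Real.log (2 + m0)) := (Real.exp_log (by linarith)).symm
    rw [h9, ← Real.exp_add]
    apply Real.exp_le_exp.2
    have h10 : 4 * Real.log (2 + m0) ≤ N * δ := by
      rwa [div_le_iff₀ hδ] at hN
    linarith
  linarith

theorem frac {ε δ : ℝ} (hε : 0 < ε) (hδ : 0 < δ) (hδ1 : δ ≤ 1 / 16) (hδε : δ ≤ ε) :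
    ∀ᶠ k : ℕ in Filter.atTop, ∀ᶠ n : ℕ in Filter.atTop,
      (((Gs n (Mk ε k n)).filter (fun G => ¬ (FreeOK G (pm1 ε δ k n) (fm ε k n) ∧
        ((gates G (pm2 ε δ k n) (pmx k n)).card : ℝ) ≤
          Real.exp ((1 / 2 - 2 * ε ^ 2 + δ) * NN ε k n)))).card : ℝ) ≤
        Real.exp (-(δ / 4 * NN ε k n)) * (Gs n (Mk ε k n)).card := by
  filter_upwards [num_f hε hδ hδ1, num_r hε hδ hδ1, num_g hε hδ hδ1, num_z hε hδ hδ1,
    num_a hε hδ hδ1 (le_refl (1 : ℝ)), Filter.eventually_ge_atTop 3] with k kf kr kg kz ka hk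
  filter_upwards [kf, kr, kg, kz, ka, num_p hε hk, num_l hε hδ hδ1 hδε 1 le_rfl k hk,
    nn_large hε hk (4 * Real.log (2 + (pm0 δ : ℕ)) / δ)] with n nf nr ng nz na np nl nN
  obtain ⟨na1, na2, -, -⟩ := na
  obtain ⟨np1, -, -, -⟩ := np
  obtain ⟨-, -, -, -, -, nl1, nl2, -, -⟩ := nl
  set A := Real.exp ((1 / 2 - 2 * ε ^ 2 + δ) * NN ε k n) with hA
  have hA0 : 0 < A := Real.exp_pos _
  have hc : (0 : ℝ) ≤ (Gs n (Mk ε k n)).card := Nat.cast_nonneg _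
  have h1 := free_union (Mk ε k n) np1 (pm1 ε δ k n) (fm ε k n) (fun j => (na1 j).le) na2
  have h2 := gate_fin (n := n) (Mk ε k n) (pm2 ε δ k n) (pq ε δ k n) (pmx k n) (pm0 δ)
    (pub ε δ k n) nl1 nl2 le_rfl hA0
  have h3 : (((Gs n (Mk ε k n)).filter (fun G => ¬ (FreeOK G (pm1 ε δ k n) (fm ε k n) ∧
        ((gates G (pm2 ε δ k n) (pmx k n)).card : ℝ) ≤ A))).card : ℝ) ≤
      (((Gs n (Mk ε k n)).filter (fun G => ¬ FreeOK G (pm1 ε δ k n) (fm ε k n))).card : ℝ) +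
      (((Gs n (Mk ε k n)).filter
        (fun G => A < (gates G (pm2 ε δ k n) (pmx k n)).card)).card : ℝ) := by
    have h4 : ((Gs n (Mk ε k n)).filter (fun G => ¬ (FreeOK G (pm1 ε δ k n) (fm ε k n) ∧
        ((gates G (pm2 ε δ k n) (pmx k n)).card : ℝ) ≤ A))) ⊆
      ((Gs n (Mk ε k n)).filter (fun G => ¬ FreeOK G (pm1 ε δ k n) (fm ε k n))) ∪
      ((Gs n (Mk ε k n)).filter (fun G => A < (gates G (pm2 ε δ k n) (pmx k n)).card)) := by
      intro G hG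
      rw [Finset.mem_filter] at hG
      rw [Finset.mem_union, Finset.mem_filter, Finset.mem_filter]
      by_cases h5 : FreeOK G (pm1 ε δ k n) (fm ε k n)
      · right
        refine ⟨hG.1, ?_⟩
        by_contra h6
        exact hG.2 ⟨h5, not_lt.1 h6⟩
      · exact Or.inl ⟨hG.1, h5⟩
    exact_mod_cast (Finset.card_le_card h4).trans (Finset.card_union_le _ _)
  have hdn : 0 ≤ dn n (Mk ε k n) := by
    unfold dn
    positivity
  have hr0 : 0 ≤ rho n (Mk ε k n) (pm2 ε δ k n) (pq ε δ k n) (pub ε δ k n) := by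
    unfold rho
    positivity
  have hg0 : 0 ≤ gam n (Mk ε k n) (pm2 ε δ k n) (pq ε δ k n) (pub ε δ k n) := by
    unfold gam
    positivity
  have h7 := final_bd hδ hδ1 (m0 := pm0 δ) (Nat.le_ceil _) hA nN nz hr0 nr hg0 ng
  calc (((Gs n (Mk ε k n)).filter (fun G => ¬ (FreeOK G (pm1 ε δ k n) (fm ε k n) ∧
        ((gates G (pm2 ε δ k n) (pmx k n)).card : ℝ) ≤ A))).card : ℝ) ≤ _ := h3
    _ ≤ Real.exp (-NN ε k n) * (Gs n (Mk ε k n)).card +
        zet n (Mk ε k n) (pmx k n) *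
          (rho n (Mk ε k n) (pm2 ε δ k n) (pq ε δ k n) (pub ε δ k n) ^ pm0 δ +
        (∑ i ∈ range (pm0 δ), rho n (Mk ε k n) (pm2 ε δ k n) (pq ε δ k n) (pub ε δ k n) ^ i) *
          gam n (Mk ε k n) (pm2 ε δ k n) (pq ε δ k n) (pub ε δ k n) / A) *
          (Gs n (Mk ε k n)).card :=
        add_le_add (h1.trans (mul_le_mul_of_nonneg_right nf hc)) h2
    _ = (Real.exp (-NN ε k n) + zet n (Mk ε k n) (pmx k n) *
          (rho n (Mk ε k n) (pm2 ε δ k n) (pq ε δ k n) (pub ε δ k n) ^ pm0 δ +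
        (∑ i ∈ range (pm0 δ), rho n (Mk ε k n) (pm2 ε δ k n) (pq ε δ k n) (pub ε δ k n) ^ i) *
          gam n (Mk ε k n) (pm2 ε δ k n) (pq ε δ k n) (pub ε δ k n) / A)) *
          (Gs n (Mk ε k n)).card := by ring
    _ ≤ _ := mul_le_mul_of_nonneg_right h7 hc

end MCE
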