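import Pool.Agent.MCE.Defs

/-!
# MCE-NumD: the density at level one, numerically

Each factor is at most `(120 K L / k) e^{(i/s) L}`, and there are at least `(1 - 2δ) s - 2` factors.
-/

open scoped Classical
open Finset

namespace MCE

private lemma numd_sum (a m : ℕ) : (∑ i ∈ Ico a m, (i : ℝ)) ≤ (m : ℝ) ^ 2 / 2 := by
  have h1 : (∑ i ∈ Ico a m, (i : ℝ)) ≤ ∑ i ∈ range m, (i : ℝ) := by
    apply Finset.sum_le_sum_of_subset_of_nonneg
    · intro i hi
      exact Finset.mem_range.2 (Finset.mem_Ico.1 hi).2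
    · intro i _ _
      positivity
  have h2 : (∑ i ∈ range m, (i : ℝ)) = (m : ℝ) * (m - 1) / 2 := by
    induction m with
    | zero => simp
    | succ k ih =>
      rw [Finset.sum_range_succ, ih (by
        apply Finset.sum_le_sum_of_subset_of_nonneg
        · intro i hi
          exact Finset.mem_range.2 (Finset.mem_Ico.1 hi).2
        · intro i _ _
          positivity)]
      push_cast
      ring
  rw [h2] at h1
  have : (0 : ℝ) ≤ m := Nat.cast_nonneg m
  nlinarith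

theorem num_d {ε δ K : ℝ} (hε : 0 < ε) (hδ : 0 < δ) (hδ1 : δ ≤ 1 / 16) (hK : 1 ≤ K) :
    ∀ᶠ k : ℕ in Filter.atTop, ∀ᶠ n : ℕ in Filter.atTop,
      ∀ j1 : ℕ, (j1 : ℝ) ≤ δ * ss ε k n →
        ∏ i ∈ Ico (j1 + 1) (pm1 ε δ k n), (4 * K * i / fm ε k n i) ≤
          Real.exp ((-(1 / 2) + 3 * δ) * NN ε k n) := by
  have hL : Filter.Tendsto (fun k : ℕ => Real.log (k : ℝ)) Filter.atTop Filter.atTop :=
    Real.tendsto_log_atTop.comp tendsto_natCast_atTop_atTop
  have hc : (0 : ℝ) < δ / 2 / (120 * K) := by positivity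
  have hlit := (Real.isLittleO_log_id_atTop.def hc)
  have hz : Filter.Tendsto (fun k : ℕ => 120 * K * Real.log (k : ℝ)) Filter.atTop Filter.atTop :=
    hL.const_mul_atTop (by positivity)
  filter_upwards [hz.eventually hlit, hL.eventually_ge_atTop 1, Filter.eventually_ge_atTop 1]
    with k hk1 hk2 hk3
  have hkp : (0 : ℝ) < (k : ℝ) := by exact_mod_cast hk3
  have hxp : (0 : ℝ) < (1 + 2 * ε) * (k : ℝ) := by positivity
  obtain ⟨n0, hn0⟩ := exists_nat_ge (4 / δ * ((1 + 2 * ε) * (k : ℝ)))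
  filter_upwards [Filter.eventually_ge_atTop n0] with n hn j1 hj1
  set L := Real.log (k : ℝ) with hLdef
  have hLpos : 0 < L := by linarith
  have hn' : 4 / δ * ((1 + 2 * ε) * (k : ℝ)) ≤ (n : ℝ) := hn0.trans (by exact_mod_cast hn)
  have hs4 : 4 / δ ≤ ss ε k n := by
    unfold ss
    rw [le_div_iff₀ hxp]
    exact hn'
  set s := ss ε k n with hsdef
  have hspos : 0 < s := lt_of_lt_of_le (by positivity) hs4
  have hnpos : (0 : ℝ) < (n : ℝ) := lt_of_lt_of_le (by positivity) hn'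
  have hns : (n : ℝ) = s * ((1 + 2 * ε) * (k : ℝ)) := by
    rw [hsdef]; unfold ss; field_simp
  have hlog : Real.log (120 * K * L) ≤ δ / 2 * L := by
    have h1 : |Real.log (120 * K * L)| ≤ δ / 2 / (120 * K) * |120 * K * L| := by
      simpa [Real.norm_eq_abs] using hk1
    rw [abs_of_pos (by positivity : (0 : ℝ) < 120 * K * L)] at h1
    refine (le_abs_self _).trans (h1.trans (le_of_eq ?_))
    field_simp
  have hlog0 : 0 ≤ Real.log (120 * K * L) := by
    apply Real.log_nonneg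
    nlinarith
  set A := Real.log (120 * K * L) with hA
  have hm1 : ((pm1 ε δ k n : ℕ) : ℝ) ≤ (1 - δ) * s := by
    unfold pm1
    exact Nat.floor_le (by nlinarith)
  have hm1' : (1 - δ) * s - 1 ≤ ((pm1 ε δ k n : ℕ) : ℝ) := by
    unfold pm1
    have := Nat.lt_floor_add_one ((1 - δ) * ss ε k n)
    linarith
  have hms : ((pm1 ε δ k n : ℕ) : ℝ) ≤ s := by nlinarith
  -- factors
  have hfac : ∀ i ∈ Ico (j1 + 1) (pm1 ε δ k n),
      4 * K * i / fm ε k n i ≤ Real.exp (A - L + (i : ℝ) * (L / s)) := by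
    intro i hi
    have hi1 : (i : ℝ) ≤ s := by
      have : (i : ℝ) ≤ ((pm1 ε δ k n : ℕ) : ℝ) := by
        exact_mod_cast (Finset.mem_Ico.1 hi).2.le
      linarith
    have e1 : Real.exp (A - L + (i : ℝ) * (L / s)) =
        120 * K * L / k * Real.exp ((i : ℝ) / s * L) := by
      rw [Real.exp_add, Real.exp_sub, hA, Real.exp_log (by positivity), hLdef,
        Real.exp_log hkp]
      have : (i : ℝ) * (Real.log (k : ℝ) / s) = (i : ℝ) / s * Real.log (k : ℝ) := by ring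
      rw [this]
    have e2 : 4 * K * i / fm ε k n i = 120 * K * L * (i / n) * Real.exp ((i : ℝ) / s * L) := by
      unfold fm
      rw [← hsdef, ← hLdef, Real.exp_neg]
      have := Real.exp_pos ((i : ℝ) / s * L)
      field_simp
      ring
    rw [e1, e2]
    have h3 : (i : ℝ) / n ≤ 1 / k := by
      rw [div_le_div_iff₀ hnpos hkp, hns]
      nlinarith [mul_le_mul_of_nonneg_right hi1 hkp.le, mul_pos (mul_pos hspos hε) hkp]
    calc 120 * K * L * (i / n) * Real.exp ((i : ℝ) / s * L)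
        ≤ 120 * K * L * (1 / k) * Real.exp ((i : ℝ) / s * L) := by gcongr
      _ = 120 * K * L / k * Real.exp ((i : ℝ) / s * L) := by ring
  have hnn : ∀ i ∈ Ico (j1 + 1) (pm1 ε δ k n), 0 ≤ 4 * K * i / fm ε k n i := by
    intro i _
    unfold fm
    rw [← hLdef]
    positivity
  refine (Finset.prod_le_prod hnn hfac).trans ?_
  rw [← Real.exp_sum]
  apply Real.exp_le_exp.2
  rw [Finset.sum_add_distrib, Finset.sum_const, nsmul_eq_mul, ← Finset.sum_mul]
  have hsum := numd_sum (j1 + 1) (pm1 ε δ k n)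
  have hcard : (1 - 2 * δ) * s - 2 ≤ ((Ico (j1 + 1) (pm1 ε δ k n)).card : ℝ) := by
    rw [Nat.card_Ico]
    have h1 : ((pm1 ε δ k n : ℕ) : ℝ) - ((j1 + 1 : ℕ) : ℝ) ≤
        ((pm1 ε δ k n - (j1 + 1) : ℕ) : ℝ) := by
      have : (pm1 ε δ k n) ≤ (pm1 ε δ k n - (j1 + 1)) + (j1 + 1) := by omega
      have h2 : ((pm1 ε δ k n : ℕ) : ℝ) ≤
          (((pm1 ε δ k n - (j1 + 1)) + (j1 + 1) : ℕ) : ℝ) := by exact_mod_cast this
      push_cast at h2 ⊢
      linarith
    push_cast at h1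
    linarith
  have hAL : A - L ≤ 0 := by nlinarith
  have hb1 : ((Ico (j1 + 1) (pm1 ε δ k n)).card : ℝ) * (A - L) ≤
      ((1 - 2 * δ) * s - 2) * (A - L) := mul_le_mul_of_nonpos_right hcard hAL
  have hb2 : (∑ i ∈ Ico (j1 + 1) (pm1 ε δ k n), (i : ℝ)) * (L / s) ≤ s * L / 2 := by
    have hm0 : (0 : ℝ) ≤ ((pm1 ε δ k n : ℕ) : ℝ) := Nat.cast_nonneg _
    have h2 : (∑ i ∈ Ico (j1 + 1) (pm1 ε δ k n), (i : ℝ)) ≤ s ^ 2 / 2 := by nlinarith
    have h3 : 0 ≤ L / s := by positivity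
    calc (∑ i ∈ Ico (j1 + 1) (pm1 ε δ k n), (i : ℝ)) * (L / s) ≤ s ^ 2 / 2 * (L / s) :=
          mul_le_mul_of_nonneg_right h2 h3
      _ = s * L / 2 := by field_simp
  have hNN : NN ε k n = s * L := rfl
  rw [hNN]
  have hsd : 4 ≤ δ * s := by
    rw [div_le_iff₀ hδ] at hs4
    linarith
  have hq1 : s * A ≤ s * (δ / 2 * L) := mul_le_mul_of_nonneg_left hlog hspos.le
  have hq2 : 4 * L ≤ δ * s * L := mul_le_mul_of_nonneg_right hsd hLpos.le
  have hq3 : 0 ≤ δ * s * A := by positivity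
  have hq4 : ((1 - 2 * δ) * s - 2) * (A - L) + s * L / 2 =
      s * A - 2 * (δ * s * A) - 2 * A - s * L / 2 + 2 * (δ * s * L) + 2 * L := by ring
  have hq5 : s * (δ / 2 * L) = δ * s * L / 2 := by ring
  have hq6 : (-(1 / 2) + 3 * δ) * (s * L) = - (s * L / 2) + 3 * (δ * s * L) := by ring
  rw [hq6]
  linarith

end MCE
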