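import Pool.Agent.MCE.Defs
import Pool.Agent.MCE.Det
import Pool.Agent.MCE.NumD
import Pool.Agent.MCE.Frac

/-!
# MCE-Fin: the theorem (from `frac`, `hit_adm` and the numerical estimates)
-/

open scoped Classical
open Finset

namespace MCE

private theorem fin_NN (ε : ℝ) (hε : 0 < ε) (k : ℕ) (hk : 3 ≤ k) (C : ℝ) :
    ∀ᶠ n : ℕ in Filter.atTop, C ≤ NN ε k n := by
  have hk0 : (3 : ℝ) ≤ (k : ℝ) := by exact_mod_cast hk
  have hL : 0 < Real.log k := Real.log_pos (by linarith)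
  have hx : 0 < (1 + 2 * ε) * (k : ℝ) := by positivity
  have hc : 0 < Real.log k / ((1 + 2 * ε) * k) := div_pos hL hx
  have h1 : Filter.Tendsto (fun n : ℕ => (n : ℝ) * (Real.log k / ((1 + 2 * ε) * k))) Filter.atTop Filter.atTop :=
    Filter.Tendsto.atTop_mul_const hc tendsto_natCast_atTop_atTop
  filter_upwards [h1.eventually_ge_atTop C] with n hn
  refine hn.trans (le_of_eq ?_)
  unfold NN ss
  ring

/-- all but an `exp (- c n ln k / k)` fraction of the graphs with `M_k(n)` edges -/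
theorem main (ε : ℝ) (hε : 0 < ε) (B : ℕ) (hB : 1 ≤ B) : ∃ c : ℝ, 0 < c ∧ ∃ k₀ : ℕ, ∀ k : ℕ,
    k₀ ≤ k → ∃ n₀ : ℕ, ∀ n : ℕ, n₀ ≤ n →
      (((Gs n (Mk ε k n)).filter (fun G => ¬ ∀ a r : ℕ → ℕ → ℝ, Adm ((k : ℝ) ^ B) B a r →
        ∀ S₀ : Finset (Fin n), Stb G S₀ → (S₀.card : ℝ) ≤ c * (n / k) →
        ∀ t : ℕ, (t : ℝ) ≤ Real.exp (c * (n * Real.log k / k)) →
          hit G a r (pmx k n) t 0 S₀ ≤ Real.exp (-(c * (n * Real.log k / k))))).card : ℝ) ≤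
        Real.exp (-(c * (n * Real.log k / k))) * (Gs n (Mk ε k n)).card := by
  obtain ⟨e1, he1⟩ : ∃ e1 : ℝ, e1 = min ε 1 := ⟨_, rfl⟩
  have he10 : 0 < e1 := by
    rw [he1]
    exact lt_min hε one_pos
  have he1ε : e1 ≤ ε := by
    rw [he1]
    exact min_le_left _ _
  have he11 : e1 ≤ 1 := by
    rw [he1]
    exact min_le_right _ _
  have hBr : (1 : ℝ) ≤ (B : ℝ) := by exact_mod_cast hB
  have hB0 : (0 : ℝ) < (B : ℝ) := by linarith
  obtain ⟨δ, hδd⟩ : ∃ δ : ℝ, δ = e1 ^ 2 / (100 * B) := ⟨_, rfl⟩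
  have hδ0 : 0 < δ := by
    rw [hδd]
    positivity
  have hBδ : B * δ = e1 ^ 2 / 100 := by
    rw [hδd]
    field_simp
  have he2 : e1 ^ 2 ≤ e1 := by nlinarith
  have he2' : 0 < e1 ^ 2 := by positivity
  have hδB : δ ≤ B * δ := by nlinarith
  have hδe : δ ≤ e1 ^ 2 / 100 := hδB.trans hBδ.le
  have hδ16 : δ ≤ 1 / 16 := by linarith
  have hδ2 : δ ^ 2 ≤ δ := by
    rw [pow_two]
    have := mul_le_mul_of_nonneg_left (show δ ≤ 1 by linarith) hδ0.le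
    linarith
  have hδε : δ ≤ ε := by linarith
  have hx : 0 < 1 + 2 * ε := by linarith
  refine ⟨δ ^ 2 / (16 * (1 + 2 * ε)), by positivity, ?_⟩
  obtain ⟨k1, hk1⟩ := Filter.eventually_atTop.1 (frac hε hδ0 hδ16 hδε)
  obtain ⟨k2, hk2⟩ := Filter.eventually_atTop.1 (num_a hε hδ0 hδ16 hBr)
  obtain ⟨k3, hk3⟩ := Filter.eventually_atTop.1 (num_d hε hδ0 hδ16 hBr)
  refine ⟨max (max k1 k2) (max k3 3), fun k hk => ?_⟩
  have hkk1 : k1 ≤ k := le_trans (le_trans (le_max_left _ _) (le_max_left _ _)) hk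
  have hkk2 : k2 ≤ k := le_trans (le_trans (le_max_right _ _) (le_max_left _ _)) hk
  have hkk3 : k3 ≤ k := le_trans (le_trans (le_max_left _ _) (le_max_right _ _)) hk
  have hkk4 : 3 ≤ k := le_trans (le_trans (le_max_right _ _) (le_max_right _ _)) hk
  have hev := ((hk1 k hkk1).and ((hk2 k hkk2).and ((hk3 k hkk3).and
    ((num_l hε hδ0 hδ16 hδε B hB k hkk4).and (fin_NN ε hε k hkk4 (2 / e1 ^ 2))))))
  obtain ⟨n0, hn0⟩ := Filter.eventually_atTop.1 hev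
  refine ⟨n0, fun n hn => ?_⟩
  obtain ⟨q1, ⟨qa1, _, qa3, qa4⟩, q3, ⟨ql1, ql2, ql3, ql4, ql5, ql6, ql7, ql8, ql9⟩, q5⟩ := hn0 n hn
  have hkr : (3 : ℝ) ≤ (k : ℝ) := by exact_mod_cast hkk4
  have hkr0 : (0 : ℝ) < (k : ℝ) := by linarith
  obtain ⟨N, hN⟩ : ∃ N : ℝ, N = NN ε k n := ⟨_, rfl⟩
  have hN2 : 2 / e1 ^ 2 ≤ N := by
    rw [hN]
    exact q5
  have hN0 : 0 < N := lt_of_lt_of_le (by positivity) hN2
  have hcN : δ ^ 2 / (16 * (1 + 2 * ε)) * (n * Real.log k / k) = δ ^ 2 / 16 * N := by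
    rw [hN]
    unfold NN ss
    field_simp
  have hcs : δ ^ 2 / (16 * (1 + 2 * ε)) * ((n : ℝ) / k) = δ ^ 2 / 16 * ss ε k n := by
    unfold ss
    field_simp
  rw [hcN]
  rw [← hN] at q1 q3 ql9
  -- the exceptional graphs
  have hsub : ((Gs n (Mk ε k n)).filter (fun G => ¬ ∀ a r : ℕ → ℕ → ℝ, Adm ((k : ℝ) ^ B) B a r →
        ∀ S₀ : Finset (Fin n), Stb G S₀ → (S₀.card : ℝ) ≤ δ ^ 2 / (16 * (1 + 2 * ε)) * (n / k) →
        ∀ t : ℕ, (t : ℝ) ≤ Real.exp (δ ^ 2 / 16 * N) →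
          hit G a r (pmx k n) t 0 S₀ ≤ Real.exp (-(δ ^ 2 / 16 * N)))) ⊆
      ((Gs n (Mk ε k n)).filter (fun G => ¬ (FreeOK G (pm1 ε δ k n) (fm ε k n) ∧
        ((gates G (pm2 ε δ k n) (pmx k n)).card : ℝ) ≤
          Real.exp ((1 / 2 - 2 * ε ^ 2 + δ) * N)))) := by
    intro G hG
    rw [Finset.mem_filter] at hG ⊢
    refine ⟨hG.1, fun hgood => hG.2 ?_⟩
    obtain ⟨hfree, hgates⟩ := hgood
    intro a r hadm S₀ hS₀ hS₀c t ht
    rw [hcs] at hS₀c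
    have hs0 : (S₀.card : ℝ) ≤ δ * ss ε k n := by
      refine hS₀c.trans (mul_le_mul_of_nonneg_right ?_ ql2.le)
      linarith
    have hs1 : S₀.card ≤ pj0 ε δ k n := by
      have := hs0.trans ql8
      exact_mod_cast this
    have ht1 : (t : ℝ) + 1 ≤ 2 * Real.exp (δ ^ 2 / 16 * N) := by
      have h1 : (1 : ℝ) ≤ Real.exp (δ ^ 2 / 16 * N) := Real.one_le_exp (by positivity)
      linarith
    have ht0 : (0 : ℝ) ≤ (t : ℝ) + 1 := by positivity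
    have hprod0 : 0 ≤ ∏ i ∈ Ioc (pj0 ε δ k n) (pm1 ε δ k n), (4 * (B : ℝ) * i / fm ε k n i) :=
      Finset.prod_nonneg fun i _ => div_nonneg (by positivity) (qa1 i).le
    have hT : ((t : ℝ) + 1) * ∏ i ∈ Ioc (pj0 ε δ k n) (pm1 ε δ k n), (4 * (B : ℝ) * i / fm ε k n i) ≤ 8 := by
      rw [← hN] at qa4
      calc ((t : ℝ) + 1) * ∏ i ∈ Ioc (pj0 ε δ k n) (pm1 ε δ k n), (4 * (B : ℝ) * i / fm ε k n i)
          ≤ (2 * Real.exp (δ ^ 2 / 16 * N)) * Real.exp (-(δ ^ 2 / 4 * N)) :=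
            mul_le_mul ht1 qa4 hprod0 (by positivity)
        _ = 2 * Real.exp (δ ^ 2 / 16 * N + -(δ ^ 2 / 4 * N)) := by
            rw [Real.exp_add]
            ring
        _ ≤ 2 * 1 := by
            have : Real.exp (δ ^ 2 / 16 * N + -(δ ^ 2 / 4 * N)) ≤ 1 := by
              rw [Real.exp_le_one_iff]
              have : 0 ≤ δ ^ 2 * N := by positivity
              linarith
            linarith
        _ ≤ 8 := by norm_num
    have hkB : (1 : ℝ) ≤ (k : ℝ) ^ B := one_le_pow₀ (by linarith)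
    have hmain := hit_adm G ql1 hkB hBr a r hadm (fm ε k n) ql3 ql4 ql5 qa1 qa3 hfree hS₀ hs1 t hT
    refine hmain.trans ?_
    have hd := q3 S₀.card hs0
    have hpd0 : 0 ≤ ∏ i ∈ Ico (S₀.card + 1) (pm1 ε δ k n), (4 * (B : ℝ) * i / fm ε k n i) :=
      Finset.prod_nonneg fun i _ => div_nonneg (by positivity) (qa1 i).le
    have e1' : ((t : ℝ) + 1) ^ 2 ≤ (2 * Real.exp (δ ^ 2 / 16 * N)) ^ 2 := pow_le_pow_left₀ ht0 ht1 2
    have e2 : ((k : ℝ) ^ B) ^ (pm2 ε δ k n - pj0 ε δ k n) *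
        ∏ i ∈ Ico (S₀.card + 1) (pm1 ε δ k n), (4 * (B : ℝ) * i / fm ε k n i) ≤
        Real.exp (4 * B * δ * N) * Real.exp ((-(1 / 2) + 3 * δ) * N) :=
      mul_le_mul ql9 hd hpd0 (Real.exp_pos _).le
    have e20 : 0 ≤ ((k : ℝ) ^ B) ^ (pm2 ε δ k n - pj0 ε δ k n) *
        ∏ i ∈ Ico (S₀.card + 1) (pm1 ε δ k n), (4 * (B : ℝ) * i / fm ε k n i) :=
      mul_nonneg (by positivity) hpd0
    have e3 : ((t : ℝ) + 1) ^ 2 * ((gates G (pm2 ε δ k n) (pmx k n)).card : ℝ) ≤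
        (2 * Real.exp (δ ^ 2 / 16 * N)) ^ 2 * Real.exp ((1 / 2 - 2 * ε ^ 2 + δ) * N) :=
      mul_le_mul e1' hgates (Nat.cast_nonneg _) (by positivity)
    have e60 : (0 : ℝ) ≤ (2 * Real.exp (δ ^ 2 / 16 * N)) ^ 2 * Real.exp ((1 / 2 - 2 * ε ^ 2 + δ) * N) := by positivity
    have e6 := mul_le_mul e3 e2 e20 e60
    refine le_trans e6 ?_
    have e4 : (2 * Real.exp (δ ^ 2 / 16 * N)) ^ 2 * Real.exp ((1 / 2 - 2 * ε ^ 2 + δ) * N) *
        (Real.exp (4 * B * δ * N) * Real.exp ((-(1 / 2) + 3 * δ) * N)) =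
        4 * Real.exp (δ ^ 2 / 16 * N + δ ^ 2 / 16 * N + (1 / 2 - 2 * ε ^ 2 + δ) * N + 4 * B * δ * N +
          (-(1 / 2) + 3 * δ) * N) := by
      rw [Real.exp_add, Real.exp_add, Real.exp_add, Real.exp_add]
      ring
    rw [e4]
    have e5 : (4 : ℝ) ≤ Real.exp 2 := by
      have h1 : (2 : ℝ) ≤ Real.exp 1 := by
        have := Real.add_one_le_exp (1 : ℝ)
        linarith
      have h2 : Real.exp 2 = Real.exp 1 * Real.exp 1 := by
        rw [← Real.exp_add]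
        norm_num
      rw [h2]
      calc (4 : ℝ) = 2 * 2 := by norm_num
        _ ≤ Real.exp 1 * Real.exp 1 := mul_le_mul h1 h1 (by norm_num) (Real.exp_pos _).le
    calc 4 * Real.exp (δ ^ 2 / 16 * N + δ ^ 2 / 16 * N + (1 / 2 - 2 * ε ^ 2 + δ) * N + 4 * B * δ * N +
          (-(1 / 2) + 3 * δ) * N)
        ≤ Real.exp 2 * Real.exp (δ ^ 2 / 16 * N + δ ^ 2 / 16 * N + (1 / 2 - 2 * ε ^ 2 + δ) * N + 4 * B * δ * N +
          (-(1 / 2) + 3 * δ) * N) := mul_le_mul_of_nonneg_right e5 (Real.exp_pos _).le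
      _ = Real.exp (2 + (δ ^ 2 / 16 * N + δ ^ 2 / 16 * N + (1 / 2 - 2 * ε ^ 2 + δ) * N + 4 * B * δ * N +
          (-(1 / 2) + 3 * δ) * N)) := (Real.exp_add _ _).symm
      _ ≤ Real.exp (-(δ ^ 2 / 16 * N)) := by
          apply Real.exp_le_exp.2
          have f1 : 2 ≤ e1 ^ 2 * N := by
            have := (div_le_iff₀ he2').1 hN2
            linarith
          have f2 : e1 ^ 2 ≤ ε ^ 2 := pow_le_pow_left₀ he10.le he1ε 2
          have f4 : δ ^ 2 / 16 + δ ^ 2 / 16 + (1 / 2 - 2 * ε ^ 2 + δ) + 4 * B * δ + (-(1 / 2) + 3 * δ) + δ ^ 2 / 16 ≤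
              -e1 ^ 2 := by
            have f5 : 4 * B * δ = e1 ^ 2 / 25 := by
              have : 4 * B * δ = 4 * (B * δ) := by ring
              rw [this, hBδ]
              ring
            rw [f5]
            linarith
          have f6 := mul_le_mul_of_nonneg_right f4 hN0.le
          linarith
  have hcard : (((Gs n (Mk ε k n)).filter (fun G => ¬ ∀ a r : ℕ → ℕ → ℝ, Adm ((k : ℝ) ^ B) B a r →
        ∀ S₀ : Finset (Fin n), Stb G S₀ → (S₀.card : ℝ) ≤ δ ^ 2 / (16 * (1 + 2 * ε)) * (n / k) →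
        ∀ t : ℕ, (t : ℝ) ≤ Real.exp (δ ^ 2 / 16 * N) →
          hit G a r (pmx k n) t 0 S₀ ≤ Real.exp (-(δ ^ 2 / 16 * N)))).card : ℝ) ≤
      (((Gs n (Mk ε k n)).filter (fun G => ¬ (FreeOK G (pm1 ε δ k n) (fm ε k n) ∧
        ((gates G (pm2 ε δ k n) (pmx k n)).card : ℝ) ≤
          Real.exp ((1 / 2 - 2 * ε ^ 2 + δ) * N)))).card : ℝ) := by
    exact_mod_cast Finset.card_le_card hsub
  refine hcard.trans (q1.trans ?_)
  refine mul_le_mul_of_nonneg_right (Real.exp_le_exp.2 ?_) (Nat.cast_nonneg _)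
  have h1 : δ ^ 2 / 16 ≤ δ / 4 := by linarith
  have h2 := mul_le_mul_of_nonneg_right h1 hN0.le
  linarith

end MCE
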