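import Pool.Agent.MCE.Defs

/-!
# MCE-Sharp: the order of the exponent is optimal
-/

open scoped Classical
open Finset

namespace MCE

variable {n : ℕ}

private theorem sh_nonneg (G : SimpleGraph (Fin n)) (a r : ℕ → ℕ → ℝ) (ha : ∀ i j, a i j = 1)
    (hr : ∀ i j, 0 ≤ r i j ∧ r i j ≤ 1) (mx : ℕ) : ∀ (t i : ℕ) (S : Finset (Fin n)),
      0 ≤ hit G a r mx t i S := by
  intro t
  induction t with
  | zero =>
    intro i S
    unfold hit
    split_ifs
    · exact zero_le_one
    · exact le_rfl
  | succ t ih =>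
    intro i S
    unfold hit
    split_ifs
    · exact zero_le_one
    · unfold step
      refine div_nonneg (sum_nonneg fun v _ => ?_) (Nat.cast_nonneg n)
      have h1 := hr i S.card
      split_ifs
      · exact add_nonneg (mul_nonneg h1.1 (ih _ _)) (mul_nonneg (by linarith) (ih _ _))
      · rw [ha]
        exact add_nonneg (mul_nonneg zero_le_one (ih _ _)) (mul_nonneg (by linarith) (ih _ _))
      · exact ih _ _

private theorem sh_main (G : SimpleGraph (Fin n)) (a r : ℕ → ℕ → ℝ) (ha : ∀ i j, a i j = 1)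
    (hr : ∀ i j, 0 ≤ r i j ∧ r i j ≤ 1) {Z : Finset (Fin n)} (hZ : Stb G Z) :
    ∀ (t i : ℕ) (S : Finset (Fin n)), S ⊆ Z → Z.card ≤ S.card + t →
      ((Z.card - S.card).factorial : ℝ) / (n : ℝ) ^ (Z.card - S.card) ≤ hit G a r Z.card t i S := by
  intro t
  induction t with
  | zero =>
    intro i S hS ht
    unfold hit
    rw [if_pos (by omega)]
    have h1 : Z.card - S.card = 0 := by omega
    rw [h1, pow_zero, Nat.factorial_zero, Nat.cast_one, div_one]
  | succ t ih =>
    intro i S hS ht
    unfold hit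
    split_ifs with h0
    · have h1 : Z.card - S.card = 0 := by omega
      rw [h1, pow_zero, Nat.factorial_zero, Nat.cast_one, div_one]
    · obtain ⟨d, hd⟩ : ∃ d, Z.card - S.card = d + 1 := ⟨Z.card - S.card - 1, by omega⟩
      have hn : (0 : ℝ) < n := by
        have h1 : 0 < Z.card := by omega
        obtain ⟨v, -⟩ := card_pos.1 h1
        exact_mod_cast v.pos
      unfold step
      rw [hd, div_le_div_iff₀ (pow_pos hn _) hn]
      have hcard : (Z \ S).card = d + 1 := by
        rw [card_sdiff_of_subset hS, hd]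
      have h2 : ((d + 1 : ℕ) : ℝ) * ((d.factorial : ℝ) / (n : ℝ) ^ d) ≤
          ∑ v : Fin n, if v ∈ S then r i S.card * hit G a r Z.card t (i + 1) (S.erase v) +
              (1 - r i S.card) * hit G a r Z.card t (i + 1) S
            else if Stb G (insert v S) then a i S.card * hit G a r Z.card t (i + 1) (insert v S) +
              (1 - a i S.card) * hit G a r Z.card t (i + 1) S
            else hit G a r Z.card t (i + 1) S := by
        have h3 : ((d + 1 : ℕ) : ℝ) * ((d.factorial : ℝ) / (n : ℝ) ^ d) =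
            ∑ v ∈ Z \ S, (d.factorial : ℝ) / (n : ℝ) ^ d := by
          rw [sum_const, hcard, nsmul_eq_mul]
        rw [h3]
        refine (sum_le_sum fun v hv => ?_).trans
          (sum_le_sum_of_subset_of_nonneg (subset_univ (Z \ S)) fun v _ _ => ?_)
        · rw [mem_sdiff] at hv
          have h4 : insert v S ⊆ Z := insert_subset hv.1 hS
          have h5 : Stb G (insert v S) := fun u hu w hw => hZ u (h4 hu) w (h4 hw)
          rw [if_neg hv.2, if_pos h5, ha, one_mul, sub_self, zero_mul, add_zero]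
          have h6 : (insert v S).card = S.card + 1 := card_insert_of_notMem hv.2
          have h7 := ih (i + 1) (insert v S) h4 (by omega)
          have h8 : Z.card - (insert v S).card = d := by omega
          rw [h8] at h7
          exact h7
        · have h9 := hr i S.card
          have h10 := sh_nonneg G a r ha hr Z.card t (i + 1)
          split_ifs
          · exact add_nonneg (mul_nonneg h9.1 (h10 _)) (mul_nonneg (by linarith) (h10 _))
          · rw [ha]
            exact add_nonneg (mul_nonneg zero_le_one (h10 _)) (mul_nonneg (by linarith) (h10 _))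
          · exact h10 _
      calc ((d + 1).factorial : ℝ) * n
          = ((d + 1 : ℕ) : ℝ) * ((d.factorial : ℝ) / (n : ℝ) ^ d) * (n : ℝ) ^ (d + 1) := by
            rw [Nat.factorial_succ, Nat.cast_mul, pow_succ]
            field_simp
        _ ≤ _ := mul_le_mul_of_nonneg_right h2 (pow_nonneg hn.le _)

theorem hit_ge (G : SimpleGraph (Fin n)) (a r : ℕ → ℕ → ℝ) (ha : ∀ i j, a i j = 1)
    (hr : ∀ i j, 0 ≤ r i j ∧ r i j ≤ 1) {k : ℕ} (hk : 0 < k) {Z : Finset (Fin n)}
    (hZ : Stb G Z) (hZ1 : (n : ℝ) / k ≤ Z.card) (t : ℕ) (ht : pmx k n ≤ t) :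
    Real.exp (-(pmx k n * (1 + Real.log k))) ≤ hit G a r (pmx k n) t 0 ∅ := by
  have h1 : pmx k n ≤ Z.card := Nat.ceil_le.2 hZ1
  obtain ⟨Y, hY, hYc⟩ := exists_subset_card_eq h1
  have hYs : Stb G Y := fun u hu w hw => hZ u (hY hu) w (hY hw)
  have h2 := sh_main G a r ha hr hYs t 0 ∅ (empty_subset _) (by rw [hYc, card_empty]; omega)
  rw [card_empty, Nat.sub_zero, hYc] at h2
  refine le_trans ?_ h2
  have hk' : (0 : ℝ) < k := by exact_mod_cast hk
  set M := pmx k n with hM
  have h3 : (n : ℝ) ≤ k * M := by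
    have h4 : (n : ℝ) / k ≤ M := Nat.le_ceil _
    rw [div_le_iff₀ hk'] at h4
    linarith
  have h5 : (M : ℝ) ^ M ≤ Real.exp M * (M.factorial : ℝ) := by
    have h6 := Real.pow_div_factorial_le_exp (M : ℝ) (Nat.cast_nonneg M) M
    rw [div_le_iff₀ (by exact_mod_cast M.factorial_pos)] at h6
    exact h6
  have h7 : Real.exp (-(M * (1 + Real.log k))) = (Real.exp M * (k : ℝ) ^ M)⁻¹ := by
    rw [Real.exp_neg]
    congr 1
    rw [mul_add, mul_one, Real.exp_add, Real.exp_nat_mul, Real.exp_log hk']
  rw [h7]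
  rcases Nat.eq_zero_or_pos n with h0 | h0
  · have h8 : M = 0 := by
      rw [hM]
      unfold pmx
      rw [h0, Nat.cast_zero, zero_div, Nat.ceil_zero]
    rw [h8]
    simp
  · have hn : (0 : ℝ) < n := by exact_mod_cast h0
    rw [le_div_iff₀ (pow_pos hn _), inv_mul_le_iff₀ (mul_pos (Real.exp_pos _) (pow_pos hk' _))]
    calc (n : ℝ) ^ M ≤ (k * M) ^ M := pow_le_pow_left₀ hn.le h3 M
      _ = (k : ℝ) ^ M * (M : ℝ) ^ M := mul_pow _ _ _
      _ ≤ (k : ℝ) ^ M * (Real.exp M * (M.factorial : ℝ)) :=
        mul_le_mul_of_nonneg_left h5 (pow_nonneg hk'.le _)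
      _ = _ := by ring

end MCE
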